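import Pool.Agent.H307R2.OP.AlgMain

set_option autoImplicit false

/-! Coefficients of the odd powers of the discriminant modulo 2 at products of primes. -/

namespace Pool.Agent.R836.PP

open PowerSeries Pool.Agent.H397R2.PP Pool.Agent.H307R2.OP

theorem coeff_Tp {p n : ℕ} (h : ¬ p ∣ n) (φ : S) : coeff n (Tp p φ) = coeff (p * n) φ := by
  rw [Tp, coeff_mk, if_neg h, add_zero]

theorem WW_one {φ : S} (h : φ ∈ NIL.WW 1) : φ = 0 ∨ φ = Db := by
  have h1 : {φ : S | ∃ j, cont j < 1 ∧ φ = Db ^ (2 * j + 1)} = {Db} := by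
    ext φ
    constructor
    · rintro ⟨j, hj, hφ⟩
      have : j = 0 := NIL.cont_eq_zero (by omega)
      rw [Set.mem_singleton_iff, hφ, this]
      ring
    · intro h
      rw [Set.mem_singleton_iff] at h
      exact ⟨0, by rw [NIL.cont_zero]; norm_num, by rw [h]; ring⟩
  rw [NIL.WW, h1, Submodule.mem_span_singleton] at h
  obtain ⟨a, rfl⟩ := h
  have ha : a = 0 ∨ a = 1 := by
    revert a
    decide
  rcases ha with rfl | rfl
  · left; simp
  · right; simp

theorem coeff_one_Db : coeff 1 (Db : S) = 1 := by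
  classical
  rw [Db_eq_theta, coeff_mk, if_pos ⟨0, by norm_num⟩]

theorem fil_neg {c : ℕ} {U : EndS} {f : S} (h : Fil (-1) U) (hf : f ∈ NIL.WW (c + 1)) :
    U f ∈ NIL.WW c := by
  have := h _ f hf
  have e : (((c + 1 : ℕ) : ℤ) + -1).toNat = c := by omega
  rwa [e] at this

theorem fil_neg2 {c : ℕ} {U : EndS} {f : S} (h : Fil (-2) U) (hf : f ∈ NIL.WW (c + 2)) :
    U f ∈ NIL.WW c := by
  have := h _ f hf
  have e : (((c + 2 : ℕ) : ℤ) + -2).toNat = c := by omega
  rwa [e] at this

theorem fil_of_mod {q x : ℕ} (hq : q.Prime) (hx : x = 3 ∨ x = 5) (h : q % 8 = x) :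
    Fil (-1) (TO q) ∧ Fil (-2) (TO q + TO x) := by
  rcases hx with rfl | rfl
  · exact fq_main.q3 q hq h
  · exact fq_main.q5 q hq h

theorem key (c : ℕ) : ∀ φ ∈ FF, φ ∈ NIL.WW (c + 1) → φ ∉ NIL.WW c →
    ∃ w : List ℕ, w.length = c ∧ (∀ x ∈ w, x = 3 ∨ x = 5) ∧ ∀ e ∈ NIL.WW c, ∀ q : List ℕ,
      List.Forall₂ (fun q x => q.Prime ∧ q % 8 = x) q w → q.Nodup → coeff q.prod (φ + e) = 1 := by
  induction c with
  | zero =>
    intro φ _ h1 h0
    refine ⟨[], rfl, by simp, ?_⟩
    intro e he q hq _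
    rw [List.forall₂_nil_right_iff] at hq
    subst hq
    have he0 : e = 0 := OC.WW_zero he
    rcases WW_one h1 with h | h
    · exfalso
      apply h0
      rw [h]
      exact Submodule.zero_mem _
    · rw [he0, add_zero, h, List.prod_nil]
      exact coeff_one_Db
  | succ c ih =>
    intro φ hF h1 h0
    have hx : ∃ x, (x = 3 ∨ x = 5) ∧ Tp x φ ∉ NIL.WW c := by
      by_contra hcon
      push Not at hcon
      exact h0 (ji_main c φ hF (hcon 3 (Or.inl rfl)) (hcon 5 (Or.inr rfl)))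
    obtain ⟨x, hx, hxφ⟩ := hx
    have hxp : x.Prime := by rcases hx with rfl | rfl <;> norm_num
    have hx8 : x % 8 = x := by rcases hx with rfl | rfl <;> rfl
    have hx2 : x ≠ 2 := by rcases hx with rfl | rfl <;> norm_num
    have hmem : Tp x φ ∈ NIL.WW (c + 1) := fil_neg (U := TO x) (fil_of_mod hxp hx hx8).1 h1
    obtain ⟨w, w1, w2, w3⟩ := ih (Tp x φ) (heckeFacts.ff x hxp hx2 φ hF) hmem hxφ
    refine ⟨x :: w, by rw [List.length_cons, w1], ?_, ?_⟩
    · intro y hy
      rw [List.mem_cons] at hy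
      rcases hy with rfl | hy
      · exact hx
      · exact w2 y hy
    · intro e he q hq hnd
      obtain ⟨q0, q', ⟨hq0, hq08⟩, hq', rfl⟩ := List.forall₂_cons_right_iff.1 hq
      rw [List.nodup_cons] at hnd
      have hprime : ∀ y ∈ q', y.Prime := by
        intro y hy
        obtain ⟨i, hi, hyi⟩ := List.getElem_of_mem hy
        have := (List.forall₂_iff_get.1 hq').2 i hi (by rw [← hq'.length_eq]; exact hi)
        simp only [List.get_eq_getElem] at this
        rw [← hyi]
        exact this.1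
      have hnd' : ¬ q0 ∣ q'.prod := by
        intro h
        obtain ⟨y, hy, hdy⟩ := (Prime.dvd_prod_iff hq0.prime).1 h
        have := (Nat.prime_dvd_prime_iff_eq hq0 (hprime y hy)).1 hdy
        subst this
        exact hnd.1 hy
      rw [List.prod_cons, ← coeff_Tp hnd']
      have e1 : Tp q0 (φ + e) = Tp x φ + ((TO q0 + TO x) φ + TO q0 e) := by
        rw [NIL.Tp_add, LinearMap.add_apply]
        show Tp q0 φ + Tp q0 e = Tp x φ + (Tp q0 φ + Tp x φ + Tp q0 e)
        have : Tp x φ + Tp x φ = 0 := OC.add_self _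
        linear_combination -this
      rw [e1]
      apply w3 _ _ q' hq' hnd.2
      have hf := fil_of_mod hq0 hx hq08
      exact Submodule.add_mem _ (fil_neg2 hf.2 h1) (fil_neg hf.1 he)

theorem Db_coeff_zero : constantCoeff (Db : S) = 0 := by
  rw [Db, map_mul, constantCoeff_X, zero_mul]

theorem Db_ne : (Db : S) ≠ 0 := by
  intro h
  have := coeff_one_Db
  rw [h, map_zero] at this
  exact zero_ne_one this

theorem aeval_Db_ne (P : Polynomial (ZMod 2)) (hP : P ≠ 0) : Polynomial.aeval (Db : S) P ≠ 0 := by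
  obtain ⟨Q, hQ, hQ0⟩ := Polynomial.exists_eq_pow_rootMultiplicity_mul_and_not_dvd P hP 0
  intro h
  rw [hQ, map_mul, map_pow] at h
  rcases mul_eq_zero.1 h with h1 | h1
  · rw [map_sub, Polynomial.aeval_X, Polynomial.aeval_C, map_zero, sub_zero] at h1
    exact pow_ne_zero _ Db_ne h1
  · have h2 : constantCoeff (Polynomial.aeval (Db : S) Q) = Q.eval 0 := by
      have e1 : Polynomial.aeval (Db : S) Q = ∑ i ∈ Finset.range (Q.natDegree + 1),
          algebraMap (ZMod 2) S (Q.coeff i) * Db ^ i := by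
        rw [Polynomial.aeval_def, Polynomial.eval₂_eq_sum_range]
      rw [e1, map_sum, Polynomial.eval_eq_sum_range]
      refine Finset.sum_congr rfl fun i _ => ?_
      rw [map_mul, map_pow, Db_coeff_zero]
      congr 1
    rw [h1, map_zero] at h2
    apply hQ0
    rw [Polynomial.C_0, sub_zero, Polynomial.X_dvd_iff, Polynomial.coeff_zero_eq_eval_zero]
    exact h2.symm

theorem pow_not_mem (j : ℕ) : (Db : S) ^ (2 * j + 1) ∉ NIL.WW (cont j) := by
  intro h
  have hsub : ∀ φ ∈ NIL.WW (cont j), ∃ P : Polynomial (ZMod 2), P.coeff (2 * j + 1) = 0 ∧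
      Polynomial.aeval (Db : S) P = φ := by
    intro φ hφ
    induction hφ using Submodule.span_induction with
    | mem x hx =>
      obtain ⟨i, hi, rfl⟩ := hx
      refine ⟨Polynomial.X ^ (2 * i + 1), ?_, by rw [map_pow, Polynomial.aeval_X]⟩
      rw [Polynomial.coeff_X_pow, if_neg]
      intro h
      have : j = i := by omega
      subst this
      omega
    | zero => exact ⟨0, by simp, by simp⟩
    | add x y _ _ hx hy =>
      obtain ⟨P, h1, h2⟩ := hx
      obtain ⟨Q, h3, h4⟩ := hy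
      exact ⟨P + Q, by rw [Polynomial.coeff_add, h1, h3, add_zero], by rw [map_add, h2, h4]⟩
    | smul a x _ hx =>
      obtain ⟨P, h1, h2⟩ := hx
      exact ⟨a • P, by rw [Polynomial.coeff_smul, h1, smul_zero], by rw [map_smul, h2]⟩
  obtain ⟨P, h1, h2⟩ := hsub _ h
  have h3 : P - Polynomial.X ^ (2 * j + 1) ≠ 0 := by
    intro h0
    have := congrArg (fun R => Polynomial.coeff R (2 * j + 1)) h0
    simp only [Polynomial.coeff_sub, Polynomial.coeff_X_pow, h1, Polynomial.coeff_zero] at this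
    simp at this
  apply aeval_Db_ne _ h3
  rw [map_sub, h2, map_pow, Polynomial.aeval_X, sub_self]

/-- **nonvanishing**: `cont j` residues 3 or 5 modulo 8 such that the coefficient of `D ^ (2 j + 1)` is 1
at every product of distinct primes in these classes -/
theorem coeff_products (j : ℕ) : ∃ w : List ℕ, w.length = cont j ∧ (∀ x ∈ w, x = 3 ∨ x = 5) ∧
    ∀ q : List ℕ, List.Forall₂ (fun q x => q.Prime ∧ q % 8 = x) q w → q.Nodup →
      coeff q.prod ((Db : S) ^ (2 * j + 1)) = 1 := by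
  obtain ⟨w, w1, w2, w3⟩ := key (cont j) ((Db : S) ^ (2 * j + 1))
    (Submodule.subset_span ⟨j, rfl⟩) (NIL.WW_mem (by omega)) (pow_not_mem j)
  refine ⟨w, w1, w2, fun q hq hnd => ?_⟩
  have := w3 0 (Submodule.zero_mem _) q hq hnd
  rwa [add_zero] at this

/-- **vanishing** -/
theorem coeff_vanish (H : ℕ) : ∀ φ ∈ NIL.WW H, ∀ (N : ℕ) (R : Finset ℕ), R.card = H →
    (∀ r ∈ R, r.Prime ∧ r % 8 = 3 ∧ r ∣ N ∧ ¬ r ^ 2 ∣ N) → coeff N φ = 0 := by
  induction H with
  | zero =>
    intro φ hφ N R _ _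
    rw [OC.WW_zero hφ, map_zero]
  | succ H ih =>
    intro φ hφ N R hR h
    obtain ⟨r, hr⟩ : R.Nonempty := by
      rw [← Finset.card_pos, hR]
      omega
    obtain ⟨h1, h2, ⟨M, rfl⟩, h4⟩ := h r hr
    have hrM : ¬ r ∣ M := by
      rintro ⟨k, rfl⟩
      exact h4 ⟨k, by ring⟩
    rw [← coeff_Tp hrM]
    apply ih (Tp r φ) (fil_neg (U := TO r) (fq_main.q3 r h1 h2).1 hφ) M (R.erase r)
    · rw [Finset.card_erase_of_mem hr, hR]
      omega
    · intro s hs
      rw [Finset.mem_erase] at hs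
      obtain ⟨g1, g2, g3, g4⟩ := h s hs.2
      refine ⟨g1, g2, ?_, ?_⟩
      · rcases (Nat.Prime.dvd_mul g1).1 g3 with h' | h'
        · exact absurd ((Nat.prime_dvd_prime_iff_eq g1 h1).1 h') hs.1
        · exact h'
      · intro h'
        exact g4 (Dvd.dvd.mul_left h' _)

end Pool.Agent.R836.PP
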