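import Pool.Agent.R836.PP.Core

set_option autoImplicit false

/-! Counting arguments for which the number of exponents is odd. -/

namespace Pool.Agent.R836.PP

open PowerSeries Finset

open Classical in
theorem odd_count_exp (m : ℕ) (hm : 0 < m) (S : ℕ → Prop) (u : ℕ → ℕ)
    (hu1 : ∀ l, u l + (2 * l + 1) ≤ u (l + 1)) (hu2 : ∀ l, u l ≤ 2 * l ^ 2 + l)
    (hodd : ∀ l N, m * u l ≤ N → N < m * (u l + (2 * l + 1)) →
      ((cntF S N).card : ZMod 2) = 1) (Q n0 L : ℕ) (hQ : 0 < Q) :
    ∃ X0 : ℕ, ∀ x : ℕ, X0 ≤ x → 1 / (20 * Q) * (x : ℝ) ≤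
      (((range (x + 1)).filter fun n => n % Q = n0 % Q ∧
        ((cntF S (n + L)).card : ZMod 2) = 1).card : ℝ) := by
  have hmono : ∀ l l', l < l' → u l + (2 * l + 1) ≤ u l' := by
    intro l l' h
    induction l' with
    | zero => omega
    | succ k ih =>
      rcases Nat.lt_succ_iff_lt_or_eq.1 h with h' | h'
      · have := ih h'
        have := hu1 k
        omega
      · subst h'
        exact hu1 l
  have hul : ∀ l, l ^ 2 ≤ u l := by
    intro l
    induction l with
    | zero => simp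
    | succ k ih =>
      have := hu1 k
      have e : (k + 1) ^ 2 = k ^ 2 + (2 * k + 1) := by ring
      omega
  -- the element of the class
  set b : ℕ → ℕ := fun l => (m * u l - L) + ((n0 + Q * (m * u l - L) - (m * u l - L)) % Q) with hb
  have hbmod : ∀ l, b l % Q = n0 % Q := by
    intro l
    set y := m * u l - L with hy
    have hle : y ≤ n0 + Q * y := by nlinarith
    have e1 : b l ≡ y + (n0 + Q * y - y) [MOD Q] := by
      simp only [hb]
      exact Nat.ModEq.add_left _ (Nat.mod_modEq _ _)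
    have e2 : y + (n0 + Q * y - y) = n0 + Q * y := by omega
    rw [e2] at e1
    have e3 : n0 + Q * y ≡ n0 [MOD Q] := by
      unfold Nat.ModEq
      exact Nat.add_mul_mod_self_left _ _ _
    exact e1.trans e3
  have hb1 : ∀ l, m * u l - L ≤ b l := fun l => Nat.le_add_right _ _
  have hb2 : ∀ l, b l < m * u l - L + Q := by
    intro l
    have := Nat.mod_lt (n0 + Q * (m * u l - L) - (m * u l - L)) hQ
    simp only [hb]
    omega
  set D : ℕ := 10 * m * Q ^ 2 with hD
  have hDpos : 0 < D := by positivity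
  have main : ∀ J x : ℕ, L ≤ J → 0 < J → D * J ^ 2 ≤ x → (Q * J) * (2 * J * m) ≤
      ((range (x + 1)).filter fun n => n % Q = n0 % Q ∧
        ((cntF S (n + L)).card : ZMod 2) = 1).card := by
    intro J x hJL hJ0 hx
    set K : ℕ := Q * J with hK
    have hK0 : 0 < K := by positivity
    have hcard : ((Ico K (2 * K)) ×ˢ (range (2 * J * m))).card = (Q * J) * (2 * J * m) := by
      rw [card_product, Nat.card_Ico, card_range]
      congr 1
      omega
    rw [← hcard]
    have inL : ∀ l, K ≤ l → L ≤ m * u l := by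
      intro l hl
      have h1 := hul l
      have h2 : J ≤ l := le_trans (by rw [hK]; exact Nat.le_mul_of_pos_left J hQ) hl
      have h3 : J ≤ l ^ 2 := by nlinarith
      have h4 : u l ≤ m * u l := Nat.le_mul_of_pos_left _ hm
      omega
    have inI : ∀ l t, K ≤ l → t < 2 * J * m → m * u l ≤ b l + Q * t + L ∧
        b l + Q * t + L < m * (u l + (2 * l + 1)) := by
      intro l t hl ht
      have h1 := hb1 l
      have h2 := hb2 l
      have h3 := inL l hl
      constructor
      · have : 0 ≤ Q * t := Nat.zero_le _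
        omega
      · have e1 : Q * t + Q ≤ Q * (2 * J * m) := by
          have : Q * t + Q = Q * (t + 1) := by ring
          rw [this]
          exact Nat.mul_le_mul_left _ ht
        have e2 : Q * (2 * J * m) = m * (2 * K) := by rw [hK]; ring
        have e3 : m * (2 * K) ≤ m * (2 * l + 1) := Nat.mul_le_mul_left _ (by omega)
        have e4 : m * (u l + (2 * l + 1)) = m * u l + m * (2 * l + 1) := by ring
        omega
    apply card_le_card_of_injOn (fun lt : ℕ × ℕ => b lt.1 + Q * lt.2)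
    · rintro ⟨l, t⟩ hlt
      rw [mem_coe, mem_product, mem_Ico, mem_range] at hlt
      obtain ⟨⟨hl1, hl2⟩, ht⟩ := hlt
      simp only at hl1 hl2 ht
      obtain ⟨i1, i2⟩ := inI l t hl1 ht
      rw [mem_coe, mem_filter, mem_range]
      simp only
      refine ⟨?_, ?_, ?_⟩
      · have h1 : u l + (2 * l + 1) ≤ u (2 * K) := hmono _ _ hl2
        have h2 := hu2 (2 * K)
        have h3 : 2 * (2 * K) ^ 2 + 2 * K ≤ 10 * K ^ 2 := by nlinarith
        have h4 : m * (u l + (2 * l + 1)) ≤ m * (10 * K ^ 2) := Nat.mul_le_mul_left _ (by omega)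
        have h5 : m * (10 * K ^ 2) = D * J ^ 2 := by rw [hK, hD]; ring
        omega
      · rw [Nat.add_mul_mod_self_left]
        exact hbmod l
      · exact hodd l _ i1 i2
    · rintro ⟨l, t⟩ hlt ⟨l', t'⟩ hlt' heq
      rw [mem_coe, mem_product, mem_Ico, mem_range] at hlt hlt'
      simp only at heq hlt hlt'
      obtain ⟨i1, i2⟩ := inI l t hlt.1.1 hlt.2
      obtain ⟨i1', i2'⟩ := inI l' t' hlt'.1.1 hlt'.2
      rcases lt_trichotomy l l' with h | h | h
      · exfalso
        have := Nat.mul_le_mul_left m (hmono _ _ h)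
        omega
      · subst h
        have : Q * t = Q * t' := by omega
        have := Nat.eq_of_mul_eq_mul_left hQ this
        rw [this]
      · exfalso
        have := Nat.mul_le_mul_left m (hmono _ _ h)
        omega
  refine ⟨D * (L + 1) ^ 2, fun x hx => ?_⟩
  set J : ℕ := Nat.sqrt (x / D) with hJ
  have hxD : (L + 1) ^ 2 ≤ x / D := by
    rw [Nat.le_div_iff_mul_le hDpos]
    linarith [mul_comm D ((L + 1) ^ 2)]
  have hJL : L + 1 ≤ J := by
    rw [hJ, Nat.le_sqrt']
    exact hxD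
  have hJ2 : J ^ 2 ≤ x / D := Nat.sqrt_le' _
  have hJ3 : D * J ^ 2 ≤ x := by
    calc D * J ^ 2 ≤ D * (x / D) := Nat.mul_le_mul_left _ hJ2
      _ ≤ x := Nat.mul_div_le x D
  have hJ4 : x < D * (4 * J ^ 2) := by
    have h1 : x / D < (J + 1) ^ 2 := Nat.lt_succ_sqrt' _
    have h2 : (J + 1) ^ 2 ≤ 4 * J ^ 2 := by nlinarith
    have h3 : x / D < 4 * J ^ 2 := lt_of_lt_of_le h1 h2
    rw [Nat.div_lt_iff_lt_mul hDpos] at h3
    linarith [mul_comm D (4 * J ^ 2)]
  have h := main J x (by omega) (by omega) hJ3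
  have hDr : (0 : ℝ) < D := by exact_mod_cast hDpos
  have h' : (((Q * J) * (2 * J * m) : ℕ) : ℝ) ≤ (((range (x + 1)).filter fun n => n % Q = n0 % Q ∧
        ((cntF S (n + L)).card : ZMod 2) = 1).card : ℝ) := by exact_mod_cast h
  refine le_trans ?_ h'
  have h4' : (x : ℝ) ≤ D * (4 * J ^ 2) := by exact_mod_cast hJ4.le
  have hQr : (0 : ℝ) < Q := by exact_mod_cast hQ
  have hmr : (0 : ℝ) < m := by exact_mod_cast hm
  have e : 1 / (20 * (Q : ℝ)) * (D * (4 * J ^ 2)) = (((Q * J) * (2 * J * m) : ℕ) : ℝ) := by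
    rw [hD]
    push_cast
    field_simp
    ring
  rw [← e]
  exact mul_le_mul_of_nonneg_left h4' (by positivity)

open Classical in
theorem odd_count (m : ℕ) (hm : 0 < m) (S : ℕ → Prop) (u : ℕ → ℕ)
    (hu1 : ∀ l, u l + (2 * l + 1) ≤ u (l + 1)) (hu2 : ∀ l, u l ≤ 2 * l ^ 2 + l)
    (hodd : ∀ l N, m * u l ≤ N → N < m * (u l + (2 * l + 1)) →
      ((cntF S N).card : ZMod 2) = 1) (Q n0 L : ℕ) (hQ : 0 < Q) :
    ∃ δ : ℝ, 0 < δ ∧ ∃ X0 : ℕ, ∀ x : ℕ, X0 ≤ x → δ * x ≤
      (((range (x + 1)).filter fun n => n % Q = n0 % Q ∧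
        ((cntF S (n + L)).card : ZMod 2) = 1).card : ℝ) := by
  have hQr : (0 : ℝ) < Q := by exact_mod_cast hQ
  obtain ⟨X0, hX0⟩ := odd_count_exp m hm S u hu1 hu2 hodd Q n0 L hQ
  exact ⟨1 / (20 * Q), by positivity, X0, hX0⟩

end Pool.Agent.R836.PP
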