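import Mathlib

set_option autoImplicit false

/-! Linear patterns in the coefficients of a power series modulo 2: transfer of counts. -/

namespace Pool.Agent.R836.PP

open PowerSeries Finset

/-- the value of the pattern `c` at `n` -/
noncomputable def pat {L : ℕ} (c : Fin (L + 1) → ZMod 2) (Φ : (ZMod 2)⟦X⟧) (n : ℕ) : ZMod 2 :=
  ∑ i : Fin (L + 1), c i * coeff (n + i) Φ

/-- the reversed polynomial of the pattern -/
noncomputable def CC {L : ℕ} (c : Fin (L + 1) → ZMod 2) : (ZMod 2)⟦X⟧ :=
  ∑ i : Fin (L + 1), c i • (X : (ZMod 2)⟦X⟧) ^ (L - (i : ℕ))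

theorem coeff_CC {L : ℕ} (c : Fin (L + 1) → ZMod 2) (Φ : (ZMod 2)⟦X⟧) (n : ℕ) :
    coeff (n + L) (CC c * Φ) = pat c Φ n := by
  unfold CC pat
  rw [Finset.sum_mul, map_sum]
  refine Finset.sum_congr rfl fun i _ => ?_
  have hi : (i : ℕ) ≤ L := Nat.lt_succ_iff.1 i.2
  rw [smul_mul_assoc, coeff_smul, smul_eq_mul]
  congr 1
  have : n + L = (n + i) + (L - i) := by omega
  rw [this, coeff_X_pow_mul]

theorem zmod_two (x : ZMod 2) : x = 0 ∨ x = 1 := by
  revert x; decide

theorem zmod_two_ne {x κ : ZMod 2} (h : x ≠ κ) : x = κ + 1 := by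
  revert x κ; decide

open Classical in
/-- the exponents up to `n` -/
noncomputable def cntF (S : ℕ → Prop) (n : ℕ) : Finset ℕ := (range (n + 1)).filter S

open Classical in
theorem coeff_eq_sum (S : ℕ → Prop) (A E : (ZMod 2)⟦X⟧)
    (hE : ∀ n, coeff n E = if S n then 1 else 0) (n : ℕ) :
    coeff n (A * E) = ∑ b ∈ cntF S n, coeff (n - b) A := by
  rw [mul_comm, coeff_mul, Finset.Nat.sum_antidiagonal_eq_sum_range_succ
    (fun i j => coeff i E * coeff j A), cntF, sum_filter]
  refine sum_congr rfl fun b _ => ?_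
  rw [hE]
  split_ifs <;> simp

open Classical in
theorem exists_hit (S : ℕ → Prop) (A E : (ZMod 2)⟦X⟧)
    (hE : ∀ n, coeff n E = if S n then 1 else 0) (n : ℕ) (κ : ZMod 2)
    (h : coeff n (A * E) ≠ (κ + 1) * ((cntF S n).card : ZMod 2)) :
    ∃ b ∈ cntF S n, coeff (n - b) A = κ := by
  by_contra hcon
  push Not at hcon
  apply h
  rw [coeff_eq_sum S A E hE n, sum_congr rfl (fun b hb => zmod_two_ne (hcon b hb)), sum_const,
    nsmul_eq_mul, mul_comm]

open Classical in
/-- the good arguments -/
noncomputable def good {L : ℕ} (c : Fin (L + 1) → ZMod 2) (S : ℕ → Prop) (G : (ZMod 2)⟦X⟧)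
    (κ : ZMod 2) (m ρ x : ℕ) : Finset ℕ :=
  (range (x + 1)).filter fun n => n % m = ρ % m ∧
    pat c G n ≠ (κ + 1) * ((cntF S (n + L)).card : ZMod 2)

open Classical in
/-- the arguments where the pattern takes the value `κ` -/
noncomputable def vals {L : ℕ} (c : Fin (L + 1) → ZMod 2) (F : (ZMod 2)⟦X⟧)
    (κ : ZMod 2) (m ρ x : ℕ) : Finset ℕ :=
  (range (x + 1)).filter fun n => n % m = ρ % m ∧ pat c F n = κ

open Classical in
theorem transfer {L : ℕ} (c : Fin (L + 1) → ZMod 2) (S : ℕ → Prop) (F E G : (ZMod 2)⟦X⟧)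
    (hE : ∀ n, coeff n E = if S n then 1 else 0) (hFE : F * E = G) (m : ℕ)
    (hS : ∀ n, S n → m ∣ n) (κ : ZMod 2) (ρ x : ℕ) :
    (good c S G κ m ρ x).card ≤
      ((vals c F κ m ρ x).card + L) * (cntF S (x + L)).card := by
  set V : Finset ℕ := (range (x + L + 1)).filter
    fun a => a % m = (ρ + L) % m ∧ coeff a (CC c * F) = κ with hV
  have h1 : V.card ≤ (vals c F κ m ρ x).card + L := by
    have hsub : V ⊆ (vals c F κ m ρ x).image (fun n => n + L) ∪ range L := by
      intro a ha
      rw [hV, mem_filter, mem_range] at ha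
      rw [mem_union, mem_image, mem_range]
      by_cases haL : a < L
      · exact Or.inr haL
      · left
        obtain ⟨n, rfl⟩ : ∃ n, a = n + L := ⟨a - L, by omega⟩
        refine ⟨n, ?_, rfl⟩
        unfold vals
        rw [mem_filter, mem_range]
        refine ⟨by omega, ?_, ?_⟩
        · exact Nat.ModEq.add_right_cancel' L ha.2.1
        · rw [← coeff_CC]; exact ha.2.2
    calc V.card ≤ _ := card_le_card hsub
      _ ≤ _ := card_union_le _ _
      _ ≤ (vals c F κ m ρ x).card + L := by
        rw [card_range]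
        exact Nat.add_le_add_right card_image_le L
  have hex : ∀ n ∈ good c S G κ m ρ x, ∃ b ∈ cntF S (n + L),
      coeff (n + L - b) (CC c * F) = κ := by
    intro n hn
    unfold good at hn
    rw [mem_filter] at hn
    apply exists_hit S (CC c * F) E hE
    rw [mul_assoc, hFE, coeff_CC]
    exact hn.2.2
  choose! b hb1 hb2 using hex
  have h2 : (good c S G κ m ρ x).card ≤ (V ×ˢ cntF S (x + L)).card := by
    apply card_le_card_of_injOn (fun n => (n + L - b n, b n))
    · intro n hn
      have hn' := hn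
      rw [mem_coe] at hn'
      have e1 := hb1 n hn'
      have e2 := hb2 n hn'
      unfold cntF at e1
      rw [mem_filter, mem_range] at e1
      unfold good at hn'
      rw [mem_filter, mem_range] at hn'
      rw [mem_coe, mem_product]
      constructor
      · simp only [hV]
        rw [mem_filter, mem_range]
        refine ⟨by omega, ?_, e2⟩
        obtain ⟨t, ht⟩ := hS _ e1.2
        have e3 : n + L - b n + m * t = n + L := by omega
        have e4 : (n + L - b n) % m = (n + L) % m := by
          calc (n + L - b n) % m = (n + L - b n + m * t) % m :=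
                (Nat.add_mul_mod_self_left _ _ _).symm
            _ = (n + L) % m := by rw [e3]
        rw [e4]
        exact Nat.ModEq.add_right L hn'.2.1
      · simp only
        unfold cntF
        rw [mem_filter, mem_range]
        exact ⟨by omega, e1.2⟩
    · intro n hn n' hn' h
      rw [mem_coe] at hn hn'
      have e1 := hb1 n hn
      have e1' := hb1 n' hn'
      unfold cntF at e1 e1'
      rw [mem_filter, mem_range] at e1 e1'
      simp only [Prod.mk.injEq] at h
      omega
  rw [card_product] at h2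
  exact h2.trans (Nat.mul_le_mul_right _ h1)

end Pool.Agent.R836.PP
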