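import Pool.Agent.R836.PP.Prim
import Pool.Agent.R836.PP.Core

set_option autoImplicit false

/-! Many odd values of a pattern in the coefficients of a binary theta series. -/

namespace Pool.Agent.R836.PP

open PowerSeries Finset

/-- one step of the construction -/
theorem crt_step (qq bb : ℕ) (hqq : qq ≠ 0) (hbb : bb < qq) (hcb : bb.Coprime qq)
    (α L i i0 Q a : ℕ) (hα : 0 < α) (hQ : 0 < Q) (hi : i ≤ L) (hi0 : i0 ≤ L)
    (hne : i ≠ i0) (hco : a.Coprime Q) :
    ∃ r a' : ℕ, r.Prime ∧ r % qq = bb ∧ Q.Coprime r ∧ a' ≡ a [MOD Q] ∧ a'.Coprime (Q * r ^ 2) ∧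
      ∀ z : ℤ, z ≡ a' [ZMOD ((Q * r ^ 2 : ℕ) : ℤ)] →
        (r : ℤ) ∣ z + α * i - α * i0 ∧ ¬ ((r : ℤ) ^ 2 ∣ z + α * i - α * i0) := by
  obtain ⟨r, hr1, hr2, hr3⟩ := Nat.forall_exists_prime_gt_and_modEq (Q + α * L) (q := qq) (a := bb)
    hqq hcb
  have hr4 : r % qq = bb := by
    have h : r % qq = bb % qq := hr3
    rwa [Nat.mod_eq_of_lt hbb] at h
  have hQr : Q.Coprime r := by
    rw [Nat.coprime_comm, Nat.Prime.coprime_iff_not_dvd hr2]
    intro h
    have := Nat.le_of_dvd hQ h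
    omega
  have hQr2 : Q.Coprime (r ^ 2) := hQr.pow_right 2
  set τ : ℕ := r + α * i0 + (r ^ 2 - 1) * (α * i) with hτ
  obtain ⟨a', ha1, ha2⟩ := Nat.chineseRemainder hQr2 a τ
  have hr0 : 0 < r := hr2.pos
  have hr21 : 1 ≤ r ^ 2 := Nat.one_le_pow _ _ hr0
  have hτZ : (τ : ℤ) + α * i = r + α * i0 + r ^ 2 * (α * i) := by
    rw [hτ]
    push_cast [Nat.cast_sub hr21]
    ring
  have hz : ∀ z : ℤ, z ≡ a' [ZMOD ((Q * r ^ 2 : ℕ) : ℤ)] →
      ∃ k : ℤ, z + α * i - α * i0 = r + r ^ 2 * k := by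
    intro z hz
    have h1 : z ≡ a' [ZMOD ((r ^ 2 : ℕ) : ℤ)] := by
      apply hz.of_dvd
      exact_mod_cast Dvd.intro_left Q rfl
    have h2 : (a' : ℤ) ≡ τ [ZMOD ((r ^ 2 : ℕ) : ℤ)] := (Int.natCast_modEq_iff).2 ha2
    obtain ⟨k, hk⟩ := (h1.trans h2).symm.dvd
    refine ⟨k + α * i, ?_⟩
    push_cast at hk
    linear_combination hk + hτZ
  have hdvd : ∀ z : ℤ, z ≡ a' [ZMOD ((Q * r ^ 2 : ℕ) : ℤ)] →
        (r : ℤ) ∣ z + α * i - α * i0 ∧ ¬ ((r : ℤ) ^ 2 ∣ z + α * i - α * i0) := by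
    intro z hz'
    obtain ⟨k, hk⟩ := hz z hz'
    rw [hk]
    refine ⟨dvd_add (dvd_refl _) (Dvd.dvd.mul_right (dvd_pow_self _ two_ne_zero) _), fun h => ?_⟩
    have h3 : (r : ℤ) ^ 2 ∣ r := (Int.dvd_add_left (Dvd.intro k rfl)).1 h
    have h4 : (r : ℤ) ^ 2 ≤ r := Int.le_of_dvd (by exact_mod_cast hr0) h3
    have h5 : (2 : ℤ) ≤ r := by exact_mod_cast hr2.two_le
    nlinarith
  refine ⟨r, a', hr2, hr4, hQr, ha1, ?_, hdvd⟩
  apply Nat.Coprime.mul_right
  · have := Nat.ModEq.gcd_eq ha1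
    rw [Nat.Coprime, this]
    exact hco
  · apply Nat.Coprime.pow_right
    rw [Nat.coprime_comm, Nat.Prime.coprime_iff_not_dvd hr2]
    intro h
    have h1 := (hdvd a' (Int.ModEq.refl _)).1
    have h2 : (r : ℤ) ∣ a' := by exact_mod_cast h
    have h3 : (r : ℤ) ∣ α * i - α * i0 := by
      have := dvd_sub h1 h2
      have e : (a' : ℤ) + α * i - α * i0 - a' = α * i - α * i0 := by ring
      rwa [e] at this
    have h4 : (α : ℤ) * i - α * i0 ≠ 0 := by
      rw [← mul_sub]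
      apply mul_ne_zero
      · exact_mod_cast hα.ne'
      · intro h
        apply hne
        have : (i : ℤ) = i0 := by linarith
        exact_mod_cast this
    have h5 := Int.le_of_dvd (abs_pos.2 h4) ((dvd_abs _ _).2 h3)
    have h6 : |(α : ℤ) * i - α * i0| ≤ α * L := by
      have a1 : (α : ℤ) * i ≤ α * L := by
        exact_mod_cast Nat.mul_le_mul_left α hi
      have a2 : (α : ℤ) * i0 ≤ α * L := by
        exact_mod_cast Nat.mul_le_mul_left α hi0
      have a3 : (0 : ℤ) ≤ α * i := by positivity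
      have a4 : (0 : ℤ) ≤ α * i0 := by positivity
      rw [abs_le]
      constructor <;> linarith
    have h7 : (r : ℤ) ≤ α * L := h5.trans h6
    have h8 : r ≤ α * L := by exact_mod_cast h7
    omega

/-- the residue class -/
theorem crt (qq bb : ℕ) (hqq : qq ≠ 0) (hbb : bb < qq) (hcb : bb.Coprime qq)
    (α β m L i0 ρ : ℕ) (hα0 : 0 < α) (hm0 : 0 < m)
    (hco : ∀ z, Nat.Coprime (α * z + β) (α * m)) (hi0 : i0 ≤ L)
    (s : Finset ℕ) (hs : ∀ i ∈ s, i ≤ L ∧ i ≠ i0) :
    ∃ Q a : ℕ, 0 < Q ∧ a.Coprime Q ∧ α * m ∣ Q ∧ a ≡ α * (ρ + i0) + β [MOD (α * m)] ∧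
      ∀ z : ℤ, z ≡ a [ZMOD (Q : ℤ)] → ∀ i ∈ s, ∃ r : ℕ, r.Prime ∧ r % qq = bb ∧
        (r : ℤ) ∣ z + α * i - α * i0 ∧ ¬ ((r : ℤ) ^ 2 ∣ z + α * i - α * i0) := by
  classical
  induction s using Finset.induction_on with
  | empty =>
    exact ⟨α * m, α * (ρ + i0) + β, by positivity, hco _, dvd_refl _,
      Nat.ModEq.refl _, by simp⟩
  | insert i s his ih =>
    obtain ⟨Q, a, h1, h2, h3, h4, h5⟩ := ih fun j hj => hs j (mem_insert_of_mem hj)
    obtain ⟨hiL, hi⟩ := hs i (mem_insert_self _ _)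
    obtain ⟨r, a', g1, g2, g3, g4, g5, g6⟩ := crt_step qq bb hqq hbb hcb α L i i0 Q a hα0 h1 hiL hi0 hi h2
    refine ⟨Q * r ^ 2, a', ?_, g5, h3.mul_right _, (g4.of_dvd h3).trans h4, ?_⟩
    · have := g1.pos
      positivity
    · intro z hz j hj
      rw [mem_insert] at hj
      rcases hj with rfl | hj
      · exact ⟨r, g1, g2, g6 z hz⟩
      · apply h5 z _ j hj
        have e1 : z ≡ a' [ZMOD (Q : ℤ)] := by
          apply hz.of_dvd
          exact_mod_cast Dvd.intro _ rfl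
        exact e1.trans ((Int.natCast_modEq_iff).2 g4)

theorem log_le_two_sqrt {x : ℝ} (hx : 0 < x) : Real.log x ≤ 2 * Real.sqrt x := by
  have h := Real.log_le_sub_one_of_pos (Real.sqrt_pos.2 hx)
  rw [Real.log_sqrt hx.le] at h
  linarith

theorem odd_lower (qq bb : ℕ) (hqq : qq ≠ 0) (hbb : bb < qq) (hcb : bb.Coprime qq)
    (α β m : ℕ) (hα8 : 8 ≤ α) (hm0 : 0 < m)
    (hco : ∀ z, Nat.Coprime (α * z + β) (α * m)) (G : (ZMod 2)⟦X⟧)
    (h1 : ∀ n, (α * n + β).Prime → coeff n G = 1)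
    (h2 : ∀ n r : ℕ, r.Prime → r % qq = bb → r ∣ α * n + β → ¬ r ^ 2 ∣ α * n + β →
      coeff n G = 0)
    {L : ℕ} (c : Fin (L + 1) → ZMod 2) (hc : c ≠ 0) (ρ : ℕ) :
    ∃ δ : ℝ, 0 < δ ∧ ∃ X0 : ℕ, ∀ x : ℕ, X0 ≤ x → δ * x / Real.log x ≤
      (((range (x + 1)).filter fun n => n % m = ρ % m ∧ pat c G n = 1).card : ℝ) := by
  classical
  have hα0 : 0 < α := by omega
  obtain ⟨j0, hj0⟩ : ∃ j, c j ≠ 0 := by
    by_contra hcon
    push Not at hcon
    exact hc (funext hcon)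
  have hj1 : c j0 = 1 := (zmod_two (c j0)).resolve_left hj0
  have hj0L : (j0 : ℕ) ≤ L := Nat.lt_succ_iff.1 j0.2
  obtain ⟨Q, a, g1, g2, g3, g4, g5⟩ := crt qq bb hqq hbb hcb α β m L j0 ρ hα0 hm0 hco hj0L ((range (L + 1)).erase j0) (by
    intro i hi
    rw [mem_erase, mem_range] at hi
    exact ⟨by omega, hi.1⟩)
  obtain ⟨δ, hδ, X1, hX1⟩ := primes_AP Q g1 a g2
  -- the prime argument
  set B : ℕ := α * (ρ + j0) + β with hB
  have hinj : ∀ x : ℕ, (((Icc 1 (α * x)).filter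
      (fun p => p.Prime ∧ p % Q = a % Q)).card : ℕ) ≤
      ((range (x + 1)).filter fun n => n % m = ρ % m ∧ pat c G n = 1).card + B := by
    intro x
    have hsub : (Icc 1 (α * x)).filter (fun p => p.Prime ∧ p % Q = a % Q) ⊆
        (((range (x + 1)).filter fun n => n % m = ρ % m ∧ pat c G n = 1).image
          fun n => α * (n + j0) + β) ∪ range B := by
      intro p hp
      rw [mem_filter, mem_Icc] at hp
      obtain ⟨⟨hp1, hp2⟩, hp3, hp4⟩ := hp
      rw [mem_union, mem_range, mem_image]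
      by_cases hpB : p < B
      · exact Or.inr hpB
      · left
        push Not at hpB
        have hpm : B ≡ p [MOD (α * m)] := by
          have : p ≡ a [MOD Q] := hp4
          exact ((this.of_dvd g3).trans g4).symm
        obtain ⟨z, hz⟩ := (Nat.modEq_iff_dvd' hpB).1 hpm
        have hpe : p = α * ((ρ + m * z) + j0) + β := by
          have : p = B + α * m * z := by omega
          rw [this, hB]
          ring
        refine ⟨ρ + m * z, ?_, hpe.symm⟩
        rw [mem_filter, mem_range]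
        refine ⟨?_, Nat.add_mul_mod_self_left _ _ _, ?_⟩
        · by_contra hcon
          push Not at hcon
          have : α * (x + 1) ≤ α * ((ρ + m * z) + j0) := Nat.mul_le_mul_left _ (by omega)
          have e1 : α * (x + 1) = α * x + α := by ring
          omega
        · unfold pat
          rw [Finset.sum_eq_single j0]
          · rw [hj1, one_mul]
            apply h1
            rw [← hpe]
            exact hp3
          · intro i _ hi
            have hiL : (i : ℕ) ≤ L := Nat.lt_succ_iff.1 i.2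
            have hi' : (i : ℕ) ≠ j0 := fun h => hi (Fin.ext h)
            obtain ⟨r, r1, r2, r3, r4⟩ := g5 p ((Int.natCast_modEq_iff).2 hp4) i
              (mem_erase.2 ⟨hi', mem_range.2 (by omega)⟩)
            have e2 : (p : ℤ) + α * (i : ℕ) - α * (j0 : ℕ) =
                ((α * ((ρ + m * z) + i) + β : ℕ) : ℤ) := by
              rw [hpe]
              push_cast
              ring
            rw [e2] at r3 r4
            rw [h2 _ r r1 r2 (by exact_mod_cast r3) (by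
              intro h; apply r4; exact_mod_cast h), mul_zero]
          · intro h
            exact absurd (mem_univ _) h
    calc _ ≤ _ := card_le_card hsub
      _ ≤ _ := card_union_le _ _
      _ ≤ _ := by
        rw [card_range]
        exact Nat.add_le_add_right card_image_le B
  obtain ⟨X2, hX2⟩ := exists_nat_gt (((B : ℝ) / δ) ^ 2)
  refine ⟨δ, hδ, max (max X1 X2) (max α 3), fun x hx => ?_⟩
  have hx1 : X1 ≤ x := le_trans (le_trans (le_max_left _ _) (le_max_left _ _)) hx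
  have hx2 : X2 ≤ x := le_trans (le_trans (le_max_right _ _) (le_max_left _ _)) hx
  have hx3 : α ≤ x := le_trans (le_trans (le_max_left _ _) (le_max_right _ _)) hx
  have hx4 : 3 ≤ x := le_trans (le_trans (le_max_right _ _) (le_max_right _ _)) hx
  have hxr : (0 : ℝ) < x := by
    have : 0 < x := by omega
    exact_mod_cast this
  have hlog : 0 < Real.log x := by
    apply Real.log_pos
    have : 1 < x := by omega
    exact_mod_cast this
  have hαr : (0 : ℝ) < α := by exact_mod_cast hα0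
  have e1 := hX1 (α * x) (by nlinarith)
  have e2 : (((Icc 1 (α * x)).filter (fun p => p.Prime ∧ p % Q = a % Q)).card : ℝ) ≤
      (((range (x + 1)).filter fun n => n % m = ρ % m ∧ pat c G n = 1).card : ℝ) + B := by
    exact_mod_cast hinj x
  have e3 : Real.log ((α * x : ℕ) : ℝ) ≤ 2 * Real.log x := by
    push_cast
    rw [Real.log_mul hαr.ne' hxr.ne']
    have : Real.log α ≤ Real.log x := Real.log_le_log hαr (by exact_mod_cast hx3)
    linarith
  have e4 : 0 < Real.log ((α * x : ℕ) : ℝ) := by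
    apply Real.log_pos
    have : 1 < α * x := by nlinarith
    exact_mod_cast this
  have e5 : (B : ℝ) ≤ δ * Real.sqrt x := by
    have h3 : ((B : ℝ) / δ) ^ 2 ≤ x := hX2.le.trans (by exact_mod_cast hx2)
    have h4 : (B : ℝ) / δ ≤ Real.sqrt x := Real.le_sqrt_of_sq_le h3
    rw [div_le_iff₀ hδ] at h4
    linarith
  have e6 : Real.sqrt x ≤ 2 * (x / Real.log x) := by
    rw [← mul_div_assoc, le_div_iff₀ hlog]
    have h5 := log_le_two_sqrt hxr
    have h6 : Real.sqrt (x : ℝ) * Real.sqrt x = x := Real.mul_self_sqrt hxr.le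
    nlinarith [Real.sqrt_nonneg (x : ℝ)]
  have e7 : 4 * δ * x / Real.log x ≤ δ * ((α * x : ℕ) : ℝ) / Real.log ((α * x : ℕ) : ℝ) := by
    rw [div_le_div_iff₀ hlog e4]
    have h8 : (8 : ℝ) ≤ α := by exact_mod_cast hα8
    push_cast at e3 ⊢
    have h9 : 4 * δ * x * Real.log (α * x) ≤ 4 * δ * x * (2 * Real.log x) := by
      apply mul_le_mul_of_nonneg_left e3
      positivity
    have h10 : 8 * (δ * x * Real.log x) ≤ α * (δ * x * Real.log x) := by
      apply mul_le_mul_of_nonneg_right h8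
      positivity
    nlinarith
  have e8 : δ * x / Real.log x = δ * (x / Real.log x) := by ring
  have e9 : 4 * δ * x / Real.log x = 4 * (δ * (x / Real.log x)) := by ring
  rw [e9] at e7
  rw [e8]
  have e10 : δ * Real.sqrt x ≤ 2 * (δ * (x / Real.log x)) := by nlinarith
  have e11 : 0 ≤ δ * (x / Real.log x) := by positivity
  linarith

/-- a residue class on which the pattern vanishes -/
theorem zero_class (qq bb : ℕ) (hqq : qq ≠ 0) (hbb : bb < qq) (hcb : bb.Coprime qq)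
    (α β m : ℕ) (hα0 : 0 < α) (hm0 : 0 < m)
    (hco : ∀ z, Nat.Coprime (α * z + β) (α * m)) (G : (ZMod 2)⟦X⟧)
    (h2 : ∀ n r : ℕ, r.Prime → r % qq = bb → r ∣ α * n + β → ¬ r ^ 2 ∣ α * n + β →
      coeff n G = 0)
    {L : ℕ} (c : Fin (L + 1) → ZMod 2) (ρ : ℕ) :
    ∃ Q n0 : ℕ, 0 < Q ∧ m ∣ Q ∧ n0 % m = ρ % m ∧ ∀ n, n % Q = n0 % Q → pat c G n = 0 := by
  obtain ⟨Q, a, g1, g2, g3, g4, g5⟩ := crt qq bb hqq hbb hcb α β m (L + 1) (L + 1) ρ hα0 hm0 hco
    le_rfl (range (L + 1)) (by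
      intro i hi
      rw [mem_range] at hi
      exact ⟨by omega, by omega⟩)
  set B : ℕ := α * (ρ + (L + 1)) + β with hB
  have hle : B ≤ a + Q * B := by nlinarith
  have hmod : B ≡ a + Q * B [MOD (α * m)] := by
    have e1 : a + Q * B ≡ a [MOD Q] := by
      unfold Nat.ModEq
      exact Nat.add_mul_mod_self_left _ _ _
    exact ((e1.of_dvd g3).trans g4).symm
  obtain ⟨z, hz⟩ := (Nat.modEq_iff_dvd' hle).1 hmod
  refine ⟨Q, ρ + m * z, g1, (Dvd.intro_left α rfl).trans g3, Nat.add_mul_mod_self_left _ _ _,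
    fun n hn => ?_⟩
  unfold pat
  apply Finset.sum_eq_zero
  intro i _
  have hn' : n ≡ ρ + m * z [MOD Q] := hn
  have e1 : α * (n + (L + 1)) + β ≡ α * (ρ + m * z + (L + 1)) + β [MOD Q] :=
    Nat.ModEq.add_right _ (Nat.ModEq.mul_left _ (Nat.ModEq.add_right _ hn'))
  have e2 : α * (ρ + m * z + (L + 1)) + β = a + Q * B := by
    have : a + Q * B = B + α * m * z := by omega
    rw [this, hB]
    ring
  have e3 : α * (n + (L + 1)) + β ≡ a [MOD Q] := by
    rw [e2] at e1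
    refine e1.trans ?_
    unfold Nat.ModEq
    exact Nat.add_mul_mod_self_left _ _ _
  obtain ⟨r, r1, r2, r3, r4⟩ := g5 _ ((Int.natCast_modEq_iff).2 e3) i
    (mem_range.2 i.2)
  have e4 : ((α * (n + (L + 1)) + β : ℕ) : ℤ) + α * (i : ℕ) - α * ((L + 1 : ℕ) : ℤ) =
      ((α * (n + i) + β : ℕ) : ℤ) := by
    push_cast
    ring
  rw [e4] at r3 r4
  rw [h2 _ r r1 r2 (by exact_mod_cast r3) (by intro h; apply r4; exact_mod_cast h), mul_zero]

end Pool.Agent.R836.PP
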