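import Pool.Agent.R836.PP.Dist

set_option autoImplicit false

/-! Many values 1 of a pattern, from many coefficients 1 in residue classes. -/

namespace Pool.Agent.R836.PP

open PowerSeries Finset

/-- several primes for one shift -/
theorem crt_one (qq bb : ℕ) (hqq : qq ≠ 0) (hbb : bb < qq) (hcb : bb.Coprime qq)
    (α L i i0 : ℕ) (hα : 0 < α) (hi : i ≤ L) (hi0 : i0 ≤ L) (hne : i ≠ i0) (H : ℕ) :
    ∀ Q a : ℕ, 0 < Q → a.Coprime Q → ∃ Q' a' : ℕ, ∃ R : Finset ℕ, 0 < Q' ∧ Q ∣ Q' ∧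
      a' ≡ a [MOD Q] ∧ a'.Coprime Q' ∧ R.card = H ∧ (∀ r ∈ R, r ∣ Q') ∧
      ∀ z : ℤ, z ≡ a' [ZMOD (Q' : ℤ)] → ∀ r ∈ R, r.Prime ∧ r % qq = bb ∧
        (r : ℤ) ∣ z + α * i - α * i0 ∧ ¬ ((r : ℤ) ^ 2 ∣ z + α * i - α * i0) := by
  classical
  induction H with
  | zero =>
    intro Q a hQ hco
    exact ⟨Q, a, ∅, hQ, dvd_refl _, Nat.ModEq.refl _, hco, by simp, by simp, by simp⟩
  | succ H ih =>
    intro Q a hQ hco
    obtain ⟨Q', a', R, h1, h2, h3, h4, h5, h6, h7⟩ := ih Q a hQ hco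
    obtain ⟨r, a'', g1, g2, g3, g4, g5, g6⟩ := crt_step qq bb hqq hbb hcb α L i i0 Q' a' hα h1 hi
      hi0 hne h4
    have hrR : r ∉ R := by
      intro h
      have := h6 r h
      exact g1.one_lt.ne' (Nat.Coprime.eq_one_of_dvd g3.symm this)
    have hr0 := g1.pos
    refine ⟨Q' * r ^ 2, a'', insert r R, by positivity, h2.mul_right _, (g4.of_dvd h2).trans h3, g5,
      by rw [card_insert_of_notMem hrR, h5], ?_, ?_⟩
    · intro s hs
      rw [mem_insert] at hs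
      rcases hs with rfl | hs
      · exact Dvd.dvd.mul_left (dvd_pow_self _ two_ne_zero) _
      · exact (h6 s hs).mul_right _
    · intro z hz s hs
      rw [mem_insert] at hs
      rcases hs with rfl | hs
      · exact ⟨g1, g2, g6 z hz⟩
      · apply h7 z _ s hs
        have e1 : z ≡ a'' [ZMOD (Q' : ℤ)] := by
          apply hz.of_dvd
          exact_mod_cast Dvd.intro _ rfl
        exact e1.trans ((Int.natCast_modEq_iff).2 g4)

/-- the residue class -/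
theorem crtH (qq bb : ℕ) (hqq : qq ≠ 0) (hbb : bb < qq) (hcb : bb.Coprime qq)
    (α β m L i0 ρ H : ℕ) (hα0 : 0 < α) (hm0 : 0 < m)
    (hco : ∀ z, Nat.Coprime (α * z + β) (α * m)) (hi0 : i0 ≤ L)
    (s : Finset ℕ) (hs : ∀ i ∈ s, i ≤ L ∧ i ≠ i0) :
    ∃ Q a : ℕ, 0 < Q ∧ a.Coprime Q ∧ α * m ∣ Q ∧ a ≡ α * (ρ + i0) + β [MOD (α * m)] ∧
      ∀ z : ℤ, z ≡ a [ZMOD (Q : ℤ)] → ∀ i ∈ s, ∃ R : Finset ℕ, R.card = H ∧ ∀ r ∈ R,
        r.Prime ∧ r % qq = bb ∧
        (r : ℤ) ∣ z + α * i - α * i0 ∧ ¬ ((r : ℤ) ^ 2 ∣ z + α * i - α * i0) := by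
  classical
  induction s using Finset.induction_on with
  | empty =>
    exact ⟨α * m, α * (ρ + i0) + β, by positivity, hco _, dvd_refl _, Nat.ModEq.refl _, by simp⟩
  | insert i s his ih =>
    obtain ⟨Q, a, h1, h2, h3, h4, h5⟩ := ih fun j hj => hs j (mem_insert_of_mem hj)
    obtain ⟨hiL, hi⟩ := hs i (mem_insert_self _ _)
    obtain ⟨Q', a', R, g1, g2, g3, g4, g5, g6, g7⟩ := crt_one qq bb hqq hbb hcb α L i i0 hα0 hiL hi0
      hi H Q a h1 h2
    refine ⟨Q', a', g1, g4, h3.trans g2, (g3.of_dvd h3).trans h4, ?_⟩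
    intro z hz j hj
    rw [mem_insert] at hj
    rcases hj with rfl | hj
    · exact ⟨R, g5, g7 z hz⟩
    · apply h5 z _ j hj
      have e1 : z ≡ a' [ZMOD (Q : ℤ)] := by
        apply hz.of_dvd
        exact_mod_cast g2
      exact e1.trans ((Int.natCast_modEq_iff).2 g3)

/-- admissible weights: `w = log x / (log log x) ^ K` -/
structure Wt (w : ℕ → ℝ) : Prop where
  pos : ∃ X0 : ℕ, ∀ x : ℕ, X0 ≤ x → 0 < w x ∧ w (8 * x) ≤ 2 * w x
  small : ∀ M : ℝ, 0 < M → ∃ X0 : ℕ, ∀ x : ℕ, X0 ≤ x → M * w x ≤ Real.sqrt x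

/-- many coefficients 1 in the residue classes -/
def Many (w : ℕ → ℝ) (μ : ℕ) (Φ : (ZMod 2)⟦X⟧) : Prop :=
  ∀ Q a : ℕ, 0 < Q → 8 ∣ Q → a.Coprime Q → a % 8 = μ % 8 → ∃ δ : ℝ, 0 < δ ∧ ∃ X0 : ℕ,
    ∀ X : ℕ, X0 ≤ X → δ * X / w X ≤
      (((Icc 1 X).filter fun N => N % Q = a % Q ∧ coeff N Φ = 1).card : ℝ)

/-- vanishing criterion -/
def Vanish (H : ℕ) (Φ : (ZMod 2)⟦X⟧) : Prop :=
  ∀ (N : ℕ) (R : Finset ℕ), R.card = H →
    (∀ r ∈ R, r.Prime ∧ r % 8 = 3 ∧ r ∣ N ∧ ¬ r ^ 2 ∣ N) → coeff N Φ = 0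

theorem hco8 (μ e : ℕ) (hμ : μ % 2 = 1) (z : ℕ) : Nat.Coprime (8 * z + μ) (8 * 2 ^ e) := by
  have : 8 * 2 ^ e = 2 ^ (e + 3) := by ring
  rw [this]
  apply Nat.Coprime.pow_right
  rw [Nat.coprime_comm, Nat.coprime_two_left, Nat.odd_iff]
  omega

theorem odd_lowerB (w : ℕ → ℝ) (hw : Wt w) (μ e H : ℕ) (hμ : μ % 2 = 1) (Φ G : (ZMod 2)⟦X⟧)
    (hG : ∀ n, coeff n G = coeff (8 * n + μ) Φ) (h1 : Many w μ Φ) (h2 : Vanish H Φ)
    {L : ℕ} (c : Fin (L + 1) → ZMod 2) (hc : c ≠ 0) (ρ : ℕ) :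
    ∃ δ : ℝ, 0 < δ ∧ ∃ X0 : ℕ, ∀ x : ℕ, X0 ≤ x → δ * x / w x ≤
      (((range (x + 1)).filter fun n => n % 2 ^ e = ρ % 2 ^ e ∧ pat c G n = 1).card : ℝ) := by
  classical
  set m : ℕ := 2 ^ e with hm
  have hm0 : 0 < m := by rw [hm]; positivity
  obtain ⟨j0, hj0⟩ : ∃ j, c j ≠ 0 := by
    by_contra hcon
    push Not at hcon
    exact hc (funext hcon)
  have hj1 : c j0 = 1 := (zmod_two (c j0)).resolve_left hj0
  have hj0L : (j0 : ℕ) ≤ L := Nat.lt_succ_iff.1 j0.2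
  obtain ⟨Q, a, g1, g2, g3, g4, g5⟩ := crtH 8 3 (by norm_num) (by norm_num) (by norm_num) 8 μ m L j0 ρ
    H (by norm_num) hm0 (hco8 μ e hμ) hj0L ((range (L + 1)).erase j0) (by
      intro i hi
      rw [mem_erase, mem_range] at hi
      exact ⟨by omega, hi.1⟩)
  have h8Q : 8 ∣ Q := (Dvd.intro _ rfl).trans g3
  have ha8 : a % 8 = μ % 8 := by
    have : a ≡ 8 * (ρ + j0) + μ [MOD 8] := g4.of_dvd (Dvd.intro _ rfl)
    unfold Nat.ModEq at this
    omega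
  obtain ⟨δ, hδ, X1, hX1⟩ := h1 Q a g1 h8Q g2 ha8
  set B : ℕ := 8 * (ρ + j0) + μ with hB
  have hinj : ∀ x : ℕ, (((Icc 1 (8 * x)).filter
      (fun N => N % Q = a % Q ∧ coeff N Φ = 1)).card : ℕ) ≤
      ((range (x + 1)).filter fun n => n % m = ρ % m ∧ pat c G n = 1).card + B := by
    intro x
    have hsub : (Icc 1 (8 * x)).filter (fun N => N % Q = a % Q ∧ coeff N Φ = 1) ⊆
        (((range (x + 1)).filter fun n => n % m = ρ % m ∧ pat c G n = 1).image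
          fun n => 8 * (n + j0) + μ) ∪ range B := by
      intro p hp
      rw [mem_filter, mem_Icc] at hp
      obtain ⟨⟨hp1, hp2⟩, hp4, hp3⟩ := hp
      rw [mem_union, mem_range, mem_image]
      by_cases hpB : p < B
      · exact Or.inr hpB
      · left
        push Not at hpB
        have hpm : B ≡ p [MOD (8 * m)] := by
          have : p ≡ a [MOD Q] := hp4
          exact ((this.of_dvd g3).trans g4).symm
        obtain ⟨z, hz⟩ := (Nat.modEq_iff_dvd' hpB).1 hpm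
        have hpe : p = 8 * ((ρ + m * z) + j0) + μ := by
          have : p = B + 8 * m * z := by omega
          rw [this, hB]
          ring
        refine ⟨ρ + m * z, ?_, hpe.symm⟩
        rw [mem_filter, mem_range]
        refine ⟨?_, Nat.add_mul_mod_self_left _ _ _, ?_⟩
        · by_contra hcon
          push Not at hcon
          omega
        · unfold pat
          rw [Finset.sum_eq_single j0]
          · rw [hj1, one_mul, hG, ← hpe]
            exact hp3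
          · intro i _ hi
            have hiL : (i : ℕ) ≤ L := Nat.lt_succ_iff.1 i.2
            have hi' : (i : ℕ) ≠ j0 := fun h => hi (Fin.ext h)
            obtain ⟨R, hR, hr⟩ := g5 p ((Int.natCast_modEq_iff).2 hp4) i
              (mem_erase.2 ⟨hi', mem_range.2 (by omega)⟩)
            have e2 : (p : ℤ) + (8 : ℕ) * (i : ℕ) - (8 : ℕ) * (j0 : ℕ) =
                ((8 * ((ρ + m * z) + i) + μ : ℕ) : ℤ) := by
              rw [hpe]
              push_cast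
              ring
            rw [hG, h2 _ R hR, mul_zero]
            intro r hrR
            obtain ⟨r1, r2, r3, r4⟩ := hr r hrR
            rw [e2] at r3 r4
            exact ⟨r1, r2, by exact_mod_cast r3, by intro h; apply r4; exact_mod_cast h⟩
          · intro h
            exact absurd (mem_univ _) h
    calc _ ≤ _ := card_le_card hsub
      _ ≤ _ := card_union_le _ _
      _ ≤ _ := by
        rw [card_range]
        exact Nat.add_le_add_right card_image_le B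
  obtain ⟨X2, hX2⟩ := exists_nat_gt (((B : ℝ) / δ) ^ 2)
  obtain ⟨X3, hX3⟩ := hw.pos
  obtain ⟨X4, hX4⟩ := hw.small 1 one_pos
  refine ⟨δ, hδ, max (max X1 X2) (max (max X3 X4) 3), fun x hx => ?_⟩
  simp only [max_le_iff] at hx
  obtain ⟨⟨hx1, hx2⟩, ⟨hx3, hx4⟩, hx5⟩ := hx
  have hxr : (0 : ℝ) < x := by
    have : 0 < x := by omega
    exact_mod_cast this
  obtain ⟨w1, w2⟩ := hX3 x hx3
  obtain ⟨w3, -⟩ := hX3 (8 * x) (by omega)
  have w4 := hX4 x hx4
  rw [one_mul] at w4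
  have e1 := hX1 (8 * x) (by omega)
  have e2 : (((Icc 1 (8 * x)).filter (fun N => N % Q = a % Q ∧ coeff N Φ = 1)).card : ℝ) ≤
      (((range (x + 1)).filter fun n => n % m = ρ % m ∧ pat c G n = 1).card : ℝ) + B := by
    exact_mod_cast hinj x
  have e5 : (B : ℝ) ≤ δ * Real.sqrt x := by
    have h3 : ((B : ℝ) / δ) ^ 2 ≤ x := hX2.le.trans (by exact_mod_cast hx2)
    have h4 : (B : ℝ) / δ ≤ Real.sqrt x := Real.le_sqrt_of_sq_le h3
    rw [div_le_iff₀ hδ] at h4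
    linarith
  have e6 : Real.sqrt x ≤ x / w x := by
    rw [le_div_iff₀ w1]
    have h6 : Real.sqrt (x : ℝ) * Real.sqrt x = x := Real.mul_self_sqrt hxr.le
    nlinarith [Real.sqrt_nonneg (x : ℝ)]
  have e7 : 4 * (δ * (x / w x)) ≤ δ * ((8 * x : ℕ) : ℝ) / w (8 * x) := by
    have : 4 * (δ * (x / w x)) = (4 * δ * x) / w x := by ring
    rw [this, div_le_div_iff₀ w1 w3]
    push_cast
    have h9 : 4 * δ * x * w (8 * x) ≤ 4 * δ * x * (2 * w x) := by
      apply mul_le_mul_of_nonneg_left w2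
      positivity
    linarith
  have e8 : δ * x / w x = δ * (x / w x) := by ring
  rw [e8]
  have e10 : δ * Real.sqrt x ≤ δ * (x / w x) := mul_le_mul_of_nonneg_left e6 hδ.le
  have e11 : 0 ≤ δ * (x / w x) := by positivity
  linarith

/-- a residue class on which the pattern vanishes -/
theorem zero_classB (μ e H : ℕ) (hμ : μ % 2 = 1) (Φ G : (ZMod 2)⟦X⟧)
    (hG : ∀ n, coeff n G = coeff (8 * n + μ) Φ) (h2 : Vanish H Φ)
    {L : ℕ} (c : Fin (L + 1) → ZMod 2) (ρ : ℕ) :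
    ∃ Q n0 : ℕ, 0 < Q ∧ 2 ^ e ∣ Q ∧ n0 % 2 ^ e = ρ % 2 ^ e ∧
      ∀ n, n % Q = n0 % Q → pat c G n = 0 := by
  set m : ℕ := 2 ^ e with hm
  have hm0 : 0 < m := by rw [hm]; positivity
  obtain ⟨Q, a, g1, g2, g3, g4, g5⟩ := crtH 8 3 (by norm_num) (by norm_num) (by norm_num) 8 μ m
    (L + 1) (L + 1) ρ H (by norm_num) hm0 (hco8 μ e hμ) le_rfl (range (L + 1)) (by
      intro i hi
      rw [mem_range] at hi
      exact ⟨by omega, by omega⟩)
  set B : ℕ := 8 * (ρ + (L + 1)) + μ with hB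
  have hle : B ≤ a + Q * B := by nlinarith
  have hmod : B ≡ a + Q * B [MOD (8 * m)] := by
    have e1 : a + Q * B ≡ a [MOD Q] := by
      unfold Nat.ModEq
      exact Nat.add_mul_mod_self_left _ _ _
    exact ((e1.of_dvd g3).trans g4).symm
  obtain ⟨z, hz⟩ := (Nat.modEq_iff_dvd' hle).1 hmod
  refine ⟨Q, ρ + m * z, g1, (Dvd.intro_left 8 rfl).trans g3, Nat.add_mul_mod_self_left _ _ _,
    fun n hn => ?_⟩
  unfold pat
  apply Finset.sum_eq_zero
  intro i _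
  have hn' : n ≡ ρ + m * z [MOD Q] := hn
  have e1 : 8 * (n + (L + 1)) + μ ≡ 8 * (ρ + m * z + (L + 1)) + μ [MOD Q] :=
    Nat.ModEq.add_right _ (Nat.ModEq.mul_left _ (Nat.ModEq.add_right _ hn'))
  have e2 : 8 * (ρ + m * z + (L + 1)) + μ = a + Q * B := by
    have : a + Q * B = B + 8 * m * z := by omega
    rw [this, hB]
    ring
  have e3 : 8 * (n + (L + 1)) + μ ≡ a [MOD Q] := by
    rw [e2] at e1
    refine e1.trans ?_
    unfold Nat.ModEq
    exact Nat.add_mul_mod_self_left _ _ _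
  obtain ⟨R, hR, hr⟩ := g5 _ ((Int.natCast_modEq_iff).2 e3) i (mem_range.2 i.2)
  have e4 : ((8 * (n + (L + 1)) + μ : ℕ) : ℤ) + (8 : ℕ) * (i : ℕ) - (8 : ℕ) * ((L + 1 : ℕ) : ℤ) =
      ((8 * (n + i) + μ : ℕ) : ℤ) := by
    push_cast
    ring
  rw [hG, h2 _ R hR, mul_zero]
  intro r hrR
  obtain ⟨r1, r2, r3, r4⟩ := hr r hrR
  rw [e4] at r3 r4
  exact ⟨r1, r2, by exact_mod_cast r3, by intro h; apply r4; exact_mod_cast h⟩

end Pool.Agent.R836.PP
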