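import Pool.Agent.R836.PP.Theta

set_option autoImplicit false

/-! The powers `s` of the Euler product which are binary theta series modulo 2. -/

namespace Pool.Agent.R836.PP

open PowerSeries Finset
open Pool.Agent.H397R2.PP Pool.Agent.H397R2.PP.TH

/-- `f ^ s` modulo 2 detects the primes `α n + β` and vanishes at `n` if a prime `≡ bb` modulo `qq`
divides `α n + β` exactly once -/
def GoodS (s : ℕ) : Prop := ∃ qq bb α β : ℕ, qq ≠ 0 ∧ bb < qq ∧ bb.Coprime qq ∧
  (α = 8 ∨ α = 24) ∧ β % 2 = 1 ∧ (α = 24 → β % 3 ≠ 0) ∧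
  (∀ n, (α * n + β).Prime → coeff n (pentagonalSeries (ZMod 2) ^ s) = 1) ∧
  (∀ n r : ℕ, r.Prime → r % qq = bb → r ∣ α * n + β → ¬ r ^ 2 ∣ α * n + β →
      coeff n (pentagonalSeries (ZMod 2) ^ s) = 0)

theorem hco_of (α β e : ℕ) (hα : α = 8 ∨ α = 24) (h2 : β % 2 = 1) (h3 : α = 24 → β % 3 ≠ 0)
    (z : ℕ) : Nat.Coprime (α * z + β) (α * 2 ^ e) := by
  have c2 : Nat.Coprime (α * z + β) 2 := by
    rw [Nat.coprime_comm, Nat.coprime_two_left, Nat.odd_iff]
    rcases hα with rfl | rfl <;> omega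
  apply Nat.Coprime.mul_right
  · rcases hα with rfl | rfl
    · exact c2.pow_right 3
    · have c3 : Nat.Coprime (24 * z + β) 3 := by
        rw [Nat.coprime_comm, Nat.Prime.coprime_iff_not_dvd Nat.prime_three]
        intro h
        have := h3 rfl
        omega
      have : (24 : ℕ) = 2 ^ 3 * 3 := by norm_num
      nth_rewrite 2 [this]
      exact (c2.pow_right 3).mul_right c3
  · exact c2.pow_right e

theorem coeff_Sx (m : ℕ) (P : ℕ → Prop) (n : ℕ) :
    (Sx m P n → coeff n (ind (Sx m P)) = 1) ∧ (¬ Sx m P n → coeff n (ind (Sx m P)) = 0) := by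
  classical
  rw [coeff_ind]
  constructor
  · intro h
    rw [if_pos h]
  · intro h
    rw [if_neg h]

theorem pow_Sx (P : ℕ → Prop) (e : ℕ) : (ind P) ^ (2 ^ e) = ind (Sx (2 ^ e) P) := by
  rw [pow_eq_expand, expand_ind]
  rfl

theorem pow_eq (t s N : ℕ) (h : t + s = N) :
    (PowerSeries.mk fun n => (Fintype.card (Nat.Partition n) : ZMod 2)) ^ t *
      pentagonalSeries (ZMod 2) ^ N = pentagonalSeries (ZMod 2) ^ s := by
  subst h
  rw [pow_add, ← mul_assoc, ← mul_pow, mk_card_mul_pentagonalSeries, one_pow, one_mul]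

theorem counts_of_good (s : ℕ) (hs : GoodS s) (e ε t : ℕ) (hε : ε = 1 ∨ ε = 3)
    (ht : t + s = 2 ^ e * ε) :
    Counts ((PowerSeries.mk fun n => (Fintype.card (Nat.Partition n) : ZMod 2)) ^ t) (2 ^ e) := by
  obtain ⟨qq, bb, α, β, h1, h2, h3, h4, h5, h6, h7, h8⟩ := hs
  have hm : 0 < 2 ^ e := by positivity
  have hα8 : 8 ≤ α := by rcases h4 with rfl | rfl <;> norm_num
  have hFE := pow_eq t s _ ht
  rcases hε with rfl | rfl
  · have hE : pentagonalSeries (ZMod 2) ^ (2 ^ e * 1) = ind (Sx (2 ^ e) isPent) := by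
      rw [mul_one, pent_eq, pow_Sx]
    rw [hE] at hFE
    exact counts_of qq bb h1 h2 h3 α β (2 ^ e) hα8 hm (hco_of α β e h4 h5 h6) _ _ _ h7 h8
      (Sx (2 ^ e) isPent) (coeff_Sx _ _) hFE (fun n hn => by
        obtain ⟨k, hk, -⟩ := hn
        exact ⟨k, hk⟩) uP uP1 uP2 (uP_odd _ hm) 5 (by norm_num)
      (cnt_bound isPent _ 24 hm (by norm_num) le_rfl pent_iff)
  · have hE : pentagonalSeries (ZMod 2) ^ (2 ^ e * 3) = ind (Sx (2 ^ e) isTri) := by
      rw [mul_comm, pow_mul, pent_eq, ← psi_eq, pow_Sx]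
    rw [hE] at hFE
    exact counts_of qq bb h1 h2 h3 α β (2 ^ e) hα8 hm (hco_of α β e h4 h5 h6) _ _ _ h7 h8
      (Sx (2 ^ e) isTri) (coeff_Sx _ _) hFE (fun n hn => by
        obtain ⟨k, hk, -⟩ := hn
        exact ⟨k, hk⟩) uT uT1 uT2 (uT_odd _ hm) 5 (by norm_num)
      (cnt_bound isTri _ 8 hm (by norm_num) (by norm_num) tri_iff)

theorem odd_of_sq8 {x a : ℕ} (h : x ^ 2 = 8 * a + 1) : x % 2 = 1 := by
  rcases Nat.mod_two_eq_zero_or_one x with h' | h'
  · exfalso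
    have : x ^ 2 % 2 = 0 := by rw [Nat.pow_mod, h']
    omega
  · exact h'

theorem sq8_of_odd {x : ℕ} (h : x % 2 = 1) : ∃ a, x ^ 2 = 8 * a + 1 := by
  obtain ⟨t, i, e1, -, -⟩ := odd_sq h
  exact ⟨t, e1⟩

theorem sq24_of_odd {x : ℕ} (h : x % 2 = 1) (h3 : x ^ 2 % 3 = 1) : ∃ a, x ^ 2 = 24 * a + 1 := by
  obtain ⟨t, e1⟩ := sq8_of_odd h
  exact ⟨t / 3, by omega⟩

theorem sq_mod_three (x : ℕ) : x ^ 2 % 3 = 0 ∨ x ^ 2 % 3 = 1 := by
  have : x % 3 = 0 ∨ x % 3 = 1 ∨ x % 3 = 2 := by omega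
  rcases this with h | h | h <;> rw [Nat.pow_mod, h] <;> norm_num

theorem good_15 : GoodS 15 := by
  have hG : pentagonalSeries (ZMod 2) ^ 15 =
      ind isTri * ind (fun b => ∃ k, b = 4 * k ∧ isTri k) := by
    rw [pent_eq, ← expand_ind isTri 4 (by norm_num), ← pow_eq_expand' 4 2 (by norm_num) (by norm_num),
      psi_eq]
    ring
  refine ⟨4, 3, 8, 5, by norm_num, by norm_num, by norm_num, Or.inl rfl, by norm_num, by norm_num,
    ?_, ?_⟩
  · intro n hp
    rw [hG]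
    apply theta_coeff_one isTri isTri 8 8 8 1 4 4 n (by norm_num) tri_iff tri_iff (by norm_num)
      (by norm_num) (by norm_num)
    · obtain ⟨x, u, hx, hu, hxu⟩ := exists_rep hp (by omega)
      obtain ⟨a, ha⟩ := sq8_of_odd hx
      obtain ⟨k, hk⟩ := sq8_of_odd hu
      exact ⟨x, u, a, k, ha, hk, by linarith [hxu, mul_pow 2 u 2]⟩
    · intro x y a k x' y' a' k' h1 h2 h3 h4 h5 h6
      have e1 : x ^ 2 + (2 * y) ^ 2 = 8 * n + 5 := by linarith [mul_pow 2 y 2]
      have e2 : x' ^ 2 + (2 * y') ^ 2 = 8 * n + 5 := by linarith [mul_pow 2 y' 2]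
      exact (two_sq_unique hp e1 e2 (odd_of_sq8 h1) (odd_of_sq8 h4) (by omega) (by omega)).1
  · intro n r hr hr3 hd hd2
    rw [hG]
    apply theta_coeff_zero isTri isTri 8 8 8 1 4 4 n tri_iff tri_iff (by norm_num) (by norm_num)
    intro x y hxy
    apply hd2
    exact sq_dvd_of_rep hr hr3 (x := x) (y := 2 * y) (by linarith [mul_pow 2 y 2]) hd

theorem good_5 : GoodS 5 := by
  have hG : pentagonalSeries (ZMod 2) ^ 5 =
      ind isPent * ind (fun b => ∃ k, b = 4 * k ∧ isPent k) := by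
    rw [pent_eq, ← expand_ind isPent 4 (by norm_num),
      ← pow_eq_expand' 4 2 (by norm_num) (by norm_num)]
    ring
  refine ⟨4, 3, 24, 5, by norm_num, by norm_num, by norm_num, Or.inr rfl, by norm_num, by norm_num,
    ?_, ?_⟩
  · intro n hp
    rw [hG]
    apply theta_coeff_one isPent isPent 24 24 24 1 4 4 n (by norm_num) pent_iff pent_iff
      (by norm_num) (by norm_num) (by norm_num)
    · obtain ⟨x, u, hx, hu, hxu⟩ := exists_rep hp (by omega)
      have e3 : x ^ 2 + 4 * u ^ 2 = 24 * n + 5 := by linarith [hxu, mul_pow 2 u 2]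
      have m1 := sq_mod_three x
      have m2 := sq_mod_three u
      obtain ⟨a, ha⟩ := sq24_of_odd hx (by omega)
      obtain ⟨k, hk⟩ := sq24_of_odd hu (by omega)
      exact ⟨x, u, a, k, ha, hk, by omega⟩
    · intro x y a k x' y' a' k' h1 h2 h3 h4 h5 h6
      have e1 : x ^ 2 + (2 * y) ^ 2 = 24 * n + 5 := by linarith [mul_pow 2 y 2]
      have e2 : x' ^ 2 + (2 * y') ^ 2 = 24 * n + 5 := by linarith [mul_pow 2 y' 2]
      exact (two_sq_unique hp e1 e2 (odd_of_sq8 (a := 3 * a) (by omega))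
        (odd_of_sq8 (a := 3 * a') (by omega)) (by omega) (by omega)).1
  · intro n r hr hr3 hd hd2
    rw [hG]
    apply theta_coeff_zero isPent isPent 24 24 24 1 4 4 n pent_iff pent_iff (by norm_num)
      (by norm_num)
    intro x y hxy
    apply hd2
    exact sq_dvd_of_rep hr hr3 (x := x) (y := 2 * y) (by linarith [mul_pow 2 y 2]) hd

end Pool.Agent.R836.PP
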