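import Pool.Agent.R836.PP.Fin

set_option autoImplicit false

/-! Parity changes from the counting statement. -/

namespace Pool.Agent.R836.PP

open PowerSeries Finset

theorem updown (a : ℕ → ZMod 2) (N h : ℕ) :
    |(((range N).filter fun n => a n = 0 ∧ a (n + h) = 1).card : ℤ) -
      ((range N).filter fun n => a n = 1 ∧ a (n + h) = 0).card| ≤ h := by
  set o : ℕ → ℤ := fun n => if a n = 1 then 1 else 0 with ho
  have ho1 : ∀ n, 0 ≤ o n ∧ o n ≤ 1 := by
    intro n
    simp only [ho]
    split_ifs <;> norm_num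
  have e1 : (((range N).filter fun n => a n = 0 ∧ a (n + h) = 1).card : ℤ) -
      ((range N).filter fun n => a n = 1 ∧ a (n + h) = 0).card =
      ∑ n ∈ range N, (o (h + n) - o n) := by
    rw [card_filter, card_filter]
    push_cast
    rw [← sum_sub_distrib]
    refine sum_congr rfl fun n _ => ?_
    rw [add_comm h n]
    simp only [ho]
    rcases zmod_two (a n) with h1 | h1 <;> rcases zmod_two (a (n + h)) with h2 | h2 <;>
      rw [h1, h2] <;> decide
  have e2 := Finset.sum_range_add o h N
  have e3 := Finset.sum_range_add o N h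
  rw [add_comm N h] at e3
  rw [e1, sum_sub_distrib]
  have b1 : 0 ≤ ∑ n ∈ range h, o n := sum_nonneg fun n _ => (ho1 n).1
  have b2 : ∑ n ∈ range h, o n ≤ h := by
    calc ∑ n ∈ range h, o n ≤ ∑ n ∈ range h, 1 := sum_le_sum fun n _ => (ho1 n).2
      _ = h := by simp
  have b3 : 0 ≤ ∑ n ∈ range h, o (N + n) := sum_nonneg fun n _ => (ho1 _).1
  have b4 : ∑ n ∈ range h, o (N + n) ≤ h := by
    calc ∑ n ∈ range h, o (N + n) ≤ ∑ n ∈ range h, 1 := sum_le_sum fun n _ => (ho1 _).2
      _ = h := by simp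
  rw [abs_le]
  constructor <;> linarith

theorem transitions (F : (ZMod 2)⟦X⟧) (m : ℕ) (hF : Counts F m) (h : ℕ) (hh : 0 < h) :
    ∃ δ : ℝ, 0 < δ ∧ ∃ X0 : ℕ, ∀ x : ℕ, X0 ≤ x →
      δ * Real.sqrt x / Real.log x ≤
        (((range (x + 1)).filter fun n => coeff n F = 0 ∧ coeff (n + h) F = 1).card : ℝ) ∧
      δ * Real.sqrt x / Real.log x ≤
        (((range (x + 1)).filter fun n => coeff n F = 1 ∧ coeff (n + h) F = 0).card : ℝ) := by
  classical
  set c : Fin (h + 1) → ZMod 2 := Pi.single 0 1 + Pi.single (Fin.last h) 1 with hc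
  have h0 : (0 : Fin (h + 1)) ≠ Fin.last h := by
    intro h'
    have := congrArg Fin.val h'
    simp at this
    omega
  have hc0 : c ≠ 0 := by
    intro h'
    have := congrFun h' 0
    rw [hc] at this
    simp [Pi.single_apply, h0] at this
  have hpat : ∀ n, pat c F n = coeff n F + coeff (n + h) F := by
    intro n
    unfold pat
    rw [hc]
    simp [Pi.single_apply, add_mul, Finset.sum_add_distrib]
  obtain ⟨δ, hδ, X0, hX0⟩ := hF h c hc0 0
  obtain ⟨X1, hX1, hX1'⟩ := ev_log (2 * h / δ + 1) (by positivity)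
  refine ⟨δ / 4, by positivity, max X0 X1, fun x hx => ?_⟩
  have hx0 : X0 ≤ x := le_trans (le_max_left _ _) hx
  have hx1 : X1 ≤ x := le_trans (le_max_right _ _) hx
  have h1 := (hX0 x hx0).2
  have hlog : 0 < Real.log x := by
    apply Real.log_pos
    have : 1 < x := by omega
    exact_mod_cast this
  have h2 := hX1' x hx1
  set U := (range (x + 1)).filter fun n => coeff n F = 0 ∧ coeff (n + h) F = 1 with hU
  set D := (range (x + 1)).filter fun n => coeff n F = 1 ∧ coeff (n + h) F = 0 with hD
  have h3 : (vals c F 1 m 0 x).card ≤ U.card + D.card := by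
    refine le_trans (card_le_card ?_) (card_union_le U D)
    intro n hn
    unfold vals at hn
    rw [mem_filter, hpat] at hn
    rw [mem_union, hU, hD, mem_filter, mem_filter]
    obtain ⟨h4, -, h5⟩ := hn
    rcases zmod_two (coeff n F) with h6 | h6 <;> rcases zmod_two (coeff (n + h) F) with h7 | h7
    · rw [h6, h7] at h5
      exact absurd h5 (by decide)
    · exact Or.inl ⟨h4, h6, h7⟩
    · exact Or.inr ⟨h4, h6, h7⟩
    · rw [h6, h7] at h5
      exact absurd h5 (by decide)
  have h3' : ((vals c F 1 m 0 x).card : ℝ) ≤ U.card + D.card := by exact_mod_cast h3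
  have h4 := updown (fun n => coeff n F) (x + 1) h
  rw [← hU, ← hD, abs_le] at h4
  have h5 : (U.card : ℝ) - D.card ≤ h := by exact_mod_cast h4.2
  have h6 : -(h : ℝ) ≤ (U.card : ℝ) - D.card := by exact_mod_cast h4.1
  have h7 : (h : ℝ) ≤ δ / 2 * Real.sqrt x / Real.log x := by
    rw [le_div_iff₀ hlog]
    have : (h : ℝ) * Real.log x = δ / 2 * ((2 * h / δ) * Real.log x) := by
      field_simp
    rw [this]
    apply mul_le_mul_of_nonneg_left _ (by positivity)
    nlinarith
  have e1 : δ * Real.sqrt x / Real.log x = 4 * (δ / 4 * Real.sqrt x / Real.log x) := by ring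
  have e2 : δ / 2 * Real.sqrt x / Real.log x = 2 * (δ / 4 * Real.sqrt x / Real.log x) := by ring
  rw [e1] at h1
  rw [e2] at h7
  constructor <;> linarith

end Pool.Agent.R836.PP
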