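import Pool.Agent.R836.PP.ManyK
import Pool.Agent.R836.PP.Good
import Pool.Agent.R836.PP.Trans

set_option autoImplicit false

/-! The counting theorem for all odd `t`. -/

namespace Pool.Agent.R836.PP

open PowerSeries Finset
open Pool.Agent.H397R2.PP Pool.Agent.H397R2.PP.TH Pool.Agent.H307R2.OP

/-- the counting statement with a weight -/
def CountsW (w : ℕ → ℝ) (F : (ZMod 2)⟦X⟧) (m : ℕ) : Prop :=
  ∀ (L : ℕ) (c : Fin (L + 1) → ZMod 2), c ≠ 0 → ∀ ρ : ℕ, ∃ δ : ℝ, 0 < δ ∧ ∃ X0 : ℕ,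
    ∀ x : ℕ, X0 ≤ x → δ * Real.sqrt x ≤ ((vals c F 0 m ρ x).card : ℝ) ∧
      δ * Real.sqrt x / w x ≤ ((vals c F 1 m ρ x).card : ℝ)

theorem countsW_of (w : ℕ → ℝ) (hw : Wt w) (μ e H : ℕ) (hμ : μ % 2 = 1) (Φ F E G : (ZMod 2)⟦X⟧)
    (hG : ∀ n, coeff n G = coeff (8 * n + μ) Φ) (h1 : Many w μ Φ) (h2 : Vanish H Φ)
    (S : ℕ → Prop) (hE : ∀ n, (S n → coeff n E = 1) ∧ (¬ S n → coeff n E = 0))
    (hFE : F * E = G) (hS : ∀ n, S n → 2 ^ e ∣ n)
    (u : ℕ → ℕ) (hu1 : ∀ l, u l + (2 * l + 1) ≤ u (l + 1)) (hu2 : ∀ l, u l ≤ 2 * l ^ 2 + l)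
    (hodd : ∀ l N, 2 ^ e * u l ≤ N → N < 2 ^ e * (u l + (2 * l + 1)) →
      ((cntF S N).card : ZMod 2) = 1)
    (A : ℝ) (hA : 0 < A) (hC : ∀ X, ((cntF S X).card : ℝ) ≤ A * (Real.sqrt X + 1)) :
    CountsW w F (2 ^ e) := by
  classical
  intro L c hc ρ
  have hm0 : 0 < 2 ^ e := by positivity
  have hE' : ∀ n, coeff n E = if S n then 1 else 0 := by
    intro n
    by_cases h : S n
    · rw [if_pos h, (hE n).1 h]
    · rw [if_neg h, (hE n).2 h]
  obtain ⟨δ1, hδ1, X1, hX1⟩ := odd_lowerB w hw μ e H hμ Φ G hG h1 h2 c hc ρ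
  obtain ⟨Q, n0, hQ, hmQ, hn0, hz⟩ := zero_classB μ e H hμ Φ G hG h2 c ρ
  obtain ⟨δ0, hδ0, X2, hX2⟩ := odd_count (2 ^ e) hm0 S u hu1 hu2 hodd Q n0 L hQ
  have t1 : ∀ x, (good c S G 1 (2 ^ e) ρ x).card ≤ ((vals c F 1 (2 ^ e) ρ x).card + L) *
      (cntF S (x + L)).card := fun x => transfer c S F E G hE' hFE (2 ^ e) hS 1 ρ x
  have t0 : ∀ x, (good c S G 0 (2 ^ e) ρ x).card ≤ ((vals c F 0 (2 ^ e) ρ x).card + L) *
      (cntF S (x + L)).card := fun x => transfer c S F E G hE' hFE (2 ^ e) hS 0 ρ x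
  obtain ⟨Xw, hXw⟩ := hw.pos
  have s1 : ∃ X3 : ℕ, ∀ x : ℕ, X3 ≤ x →
      (δ1 / (6 * A)) * Real.sqrt x / w x ≤ ((vals c F 1 (2 ^ e) ρ x).card : ℝ) := by
    apply step_div L A hA (fun X => (cntF S X).card) hC (fun x => (good c S G 1 (2 ^ e) ρ x).card)
      (fun x => (vals c F 1 (2 ^ e) ρ x).card) t1 δ1 hδ1 w _ X1
    · intro x hx
      refine (hX1 x hx).trans ?_
      have : ((range (x + 1)).filter fun n => n % 2 ^ e = ρ % 2 ^ e ∧ pat c G n = 1) ⊆
          good c S G 1 (2 ^ e) ρ x := by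
        intro n hn
        unfold good
        rw [mem_filter] at hn ⊢
        refine ⟨hn.1, hn.2.1, ?_⟩
        rw [hn.2.2]
        have : (1 : ZMod 2) + 1 = 0 := by decide
        rw [this, zero_mul]
        decide
      exact_mod_cast card_le_card this
    · obtain ⟨X4, hX4⟩ := hw.small (6 * A * L / δ1 + 1) (by positivity)
      refine ⟨max Xw X4, fun x hx => ?_⟩
      have hp := (hXw x (le_trans (le_max_left _ _) hx)).1
      refine ⟨hp, ?_⟩
      have := hX4 x (le_trans (le_max_right _ _) hx)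
      nlinarith
  have s0 : ∃ X3 : ℕ, ∀ x : ℕ, X3 ≤ x →
      (δ0 / (6 * A)) * Real.sqrt x / 1 ≤ ((vals c F 0 (2 ^ e) ρ x).card : ℝ) := by
    apply step_div L A hA (fun X => (cntF S X).card) hC (fun x => (good c S G 0 (2 ^ e) ρ x).card)
      (fun x => (vals c F 0 (2 ^ e) ρ x).card) t0 δ0 hδ0 (fun x => 1) _ X2
    · intro x hx
      rw [div_one]
      refine (hX2 x hx).trans ?_
      have : ((range (x + 1)).filter fun n => n % Q = n0 % Q ∧
        ((cntF S (n + L)).card : ZMod 2) = 1) ⊆ good c S G 0 (2 ^ e) ρ x := by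
        intro n hn
        unfold good
        rw [mem_filter] at hn ⊢
        refine ⟨hn.1, ?_, ?_⟩
        · have e1 : n ≡ n0 [MOD Q] := hn.2.1
          have e2 : n % 2 ^ e = n0 % 2 ^ e := e1.of_dvd hmQ
          rw [e2, hn0]
        · rw [hn.2.2, hz n hn.2.1]
          decide
      exact_mod_cast card_le_card this
    · obtain ⟨X4, hX4⟩ := exists_nat_gt ((6 * A * L / δ0) ^ 2)
      refine ⟨X4, fun x hx => ⟨one_pos, ?_⟩⟩
      rw [mul_one]
      apply Real.le_sqrt_of_sq_le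
      exact hX4.le.trans (by exact_mod_cast hx)
  obtain ⟨X3, hX3⟩ := s1
  obtain ⟨X4, hX4⟩ := s0
  refine ⟨min (δ1 / (6 * A)) (δ0 / (6 * A)), by positivity, max (max X3 X4) Xw, fun x hx => ?_⟩
  simp only [max_le_iff] at hx
  obtain ⟨⟨hx3, hx4⟩, hx5⟩ := hx
  have hwp := (hXw x hx5).1
  constructor
  · have := hX4 x hx4
    rw [div_one] at this
    refine le_trans ?_ this
    exact mul_le_mul_of_nonneg_right (min_le_right _ _) (Real.sqrt_nonneg _)
  · refine le_trans ?_ (hX3 x hx3)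
    apply div_le_div_of_nonneg_right _ hwp.le
    exact mul_le_mul_of_nonneg_right (min_le_left _ _) (Real.sqrt_nonneg _)

theorem lt_pow_cont (j : ℕ) : j < 4 ^ cont j := by
  induction j using Nat.strong_induction_on with
  | _ j ih =>
    obtain ⟨n, d, hd, rfl⟩ := NIL.split4 j
    rw [NIL.cont_digit n d hd]
    rcases Nat.eq_zero_or_pos n with rfl | hn
    · rw [NIL.cont_zero]
      interval_cases d <;> simp [wdig]
    · have h1 := ih n (by omega)
      have h2 : 1 ≤ cont n := by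
        by_contra h
        have := NIL.cont_eq_zero (j := n) (by omega)
        omega
      have h3 : 4 ^ (cont n + 1) ≤ 4 ^ (wdig d + 2 * cont n) :=
        Nat.pow_le_pow_right (by norm_num) (by omega)
      have h4 : 4 ^ (cont n + 1) = 4 * 4 ^ cont n := by ring
      omega

theorem le_cont {K j : ℕ} (h : 4 ^ K ≤ j) : K + 1 ≤ cont j := by
  by_contra hcon
  have h1 := lt_pow_cont j
  have h2 : 4 ^ cont j ≤ 4 ^ K := Nat.pow_le_pow_right (by norm_num) (by omega)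
  omega

theorem big (t K f : ℕ) (hf : t + 2 * K + 10 ≤ f) : t + 6 * 4 ^ K + 9 ≤ 2 ^ f := by
  have h1 : 2 ^ (t + 2 * K + 10) ≤ 2 ^ f := Nat.pow_le_pow_right (by norm_num) hf
  have h2 : 2 ^ (t + 2 * K + 10) = 2 ^ t * 4 ^ K * 1024 := by
    rw [pow_add, pow_add, pow_mul]
    norm_num
  have h3 : t < 2 ^ t := Nat.lt_two_pow_self
  have h4 : 1 ≤ 4 ^ K := Nat.one_le_pow _ _ (by norm_num)
  have h5 : 2 ^ t ≤ 2 ^ t * 4 ^ K := Nat.le_mul_of_pos_right _ (by omega)
  have h6 : 4 ^ K ≤ 2 ^ t * 4 ^ K := Nat.le_mul_of_pos_left _ (by omega)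
  omega

theorem exists_e (t b K : ℕ) (ht : t % 2 = 1) : ∃ e ε j : ℕ, b ≤ e ∧ (ε = 1 ∨ ε = 3) ∧
    t + 3 * (2 * j + 1) = 2 ^ e * ε ∧ K + 1 ≤ cont j := by
  set f : ℕ := b + t + 2 * K + 10 with hf
  have h3 : t % 3 = 0 ∨ t % 3 = 1 ∨ t % 3 = 2 := by omega
  rcases h3 with h3 | h3 | h3
  · have hb := big t K f (by omega)
    have he : 2 ^ f % 2 = 0 := by
      have : f = (f - 1) + 1 := by omega
      rw [this, pow_succ]
      omega
    refine ⟨f, 3, (2 ^ f - t / 3 - 1) / 2, by omega, Or.inr rfl, by omega, le_cont (by omega)⟩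
  · have hb := big t K (2 * f) (by omega)
    have he : 2 ^ (2 * f) % 3 = 1 := by
      rw [pow_mul, Nat.pow_mod]
      norm_num
    have he2 : 2 ^ (2 * f) % 2 = 0 := by
      have : 2 * f = (2 * f - 1) + 1 := by omega
      rw [this, pow_succ]
      omega
    refine ⟨2 * f, 1, ((2 ^ (2 * f) - t) / 3 - 1) / 2, by omega, Or.inl rfl, by omega,
      le_cont (by omega)⟩
  · have hb := big t K (2 * f + 1) (by omega)
    have he : 2 ^ (2 * f + 1) % 3 = 2 := by
      have h : 2 ^ (2 * f) % 3 = 1 := by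
        rw [pow_mul, Nat.pow_mod]
        norm_num
      rw [pow_succ]
      omega
    have he2 : 2 ^ (2 * f + 1) % 2 = 0 := by
      rw [pow_succ]
      omega
    refine ⟨2 * f + 1, 1, ((2 ^ (2 * f + 1) - t) / 3 - 1) / 2, by omega, Or.inl rfl, by omega,
      le_cont (by omega)⟩

theorem vals_mono {L : ℕ} (c : Fin (L + 1) → ZMod 2) (F : (ZMod 2)⟦X⟧) (κ : ZMod 2)
    (m m' ρ x : ℕ) (h : m ∣ m') : (vals c F κ m' ρ x).card ≤ (vals c F κ m ρ x).card := by
  apply card_le_card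
  intro n hn
  unfold vals at hn ⊢
  rw [mem_filter] at hn ⊢
  obtain ⟨h1, h2, h3⟩ := hn
  have e1 : n ≡ ρ [MOD m'] := h2
  exact ⟨h1, e1.of_dvd h, h3⟩

/-- **the counting theorem for the `t`-th power of the partition generating function, `t` odd** -/
theorem countsW_all (t b K : ℕ) (ht : t % 2 = 1) : CountsW (wK K)
    ((PowerSeries.mk fun n => (Fintype.card (Nat.Partition n) : ZMod 2)) ^ t) (2 ^ b) := by
  obtain ⟨e, ε, j, hbe, hε, hj, hK⟩ := exists_e t b K ht
  have hm : 0 < 2 ^ e := by positivity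
  have hFE := pow_eq t (3 * (2 * j + 1)) _ hj
  have hV : Vanish (cont j + 1) ((Db : S) ^ (2 * j + 1)) :=
    fun N R hR h => coeff_vanish (cont j + 1) _ (NIL.WW_mem (by omega)) N R hR h
  have main : CountsW (wK K)
      ((PowerSeries.mk fun n => (Fintype.card (Nat.Partition n) : ZMod 2)) ^ t) (2 ^ e) := by
    rcases hε with rfl | rfl
    · have hE : pentagonalSeries (ZMod 2) ^ (2 ^ e * 1) = ind (Sx (2 ^ e) isPent) := by
        rw [mul_one, pent_eq, pow_Sx]
      rw [hE] at hFE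
      exact countsW_of (wK K) (wt_wK K) (2 * j + 1) e (cont j + 1) (by omega)
        ((Db : S) ^ (2 * j + 1)) _ _ _ (coeff_Db_pow _) (many_Db j K hK) hV
        (Sx (2 ^ e) isPent) (coeff_Sx _ _) hFE (fun n hn => by
          obtain ⟨k, hk, -⟩ := hn
          exact ⟨k, hk⟩) uP uP1 uP2 (uP_odd _ hm) 5 (by norm_num)
        (cnt_bound isPent _ 24 hm (by norm_num) le_rfl pent_iff)
    · have hE : pentagonalSeries (ZMod 2) ^ (2 ^ e * 3) = ind (Sx (2 ^ e) isTri) := by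
        rw [mul_comm, pow_mul, pent_eq, ← psi_eq, pow_Sx]
      rw [hE] at hFE
      exact countsW_of (wK K) (wt_wK K) (2 * j + 1) e (cont j + 1) (by omega)
        ((Db : S) ^ (2 * j + 1)) _ _ _ (coeff_Db_pow _) (many_Db j K hK) hV
        (Sx (2 ^ e) isTri) (coeff_Sx _ _) hFE (fun n hn => by
          obtain ⟨k, hk, -⟩ := hn
          exact ⟨k, hk⟩) uT uT1 uT2 (uT_odd _ hm) 5 (by norm_num)
        (cnt_bound isTri _ 8 hm (by norm_num) (by norm_num) tri_iff)
  intro L c hc ρ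
  obtain ⟨δ, hδ, X0, hX0⟩ := main L c hc ρ
  refine ⟨δ, hδ, X0, fun x hx => ?_⟩
  obtain ⟨h1, h2⟩ := hX0 x hx
  have hdvd : 2 ^ b ∣ 2 ^ e := pow_dvd_pow 2 hbe
  have e0 : ((vals c ((PowerSeries.mk fun n => (Fintype.card (Nat.Partition n) : ZMod 2)) ^ t) 0
      (2 ^ e) ρ x).card : ℝ) ≤ ((vals c ((PowerSeries.mk fun n =>
        (Fintype.card (Nat.Partition n) : ZMod 2)) ^ t) 0 (2 ^ b) ρ x).card : ℝ) := by
    exact_mod_cast vals_mono c _ 0 (2 ^ b) (2 ^ e) ρ x hdvd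
  have e1 : ((vals c ((PowerSeries.mk fun n => (Fintype.card (Nat.Partition n) : ZMod 2)) ^ t) 1
      (2 ^ e) ρ x).card : ℝ) ≤ ((vals c ((PowerSeries.mk fun n =>
        (Fintype.card (Nat.Partition n) : ZMod 2)) ^ t) 1 (2 ^ b) ρ x).card : ℝ) := by
    exact_mod_cast vals_mono c _ 1 (2 ^ b) (2 ^ e) ρ x hdvd
  exact ⟨h1.trans e0, h2.trans e1⟩

/-- the final form for the value 1 -/
theorem odd_all (t b : ℕ) (ht : t % 2 = 1) (K : ℕ) {L : ℕ} (c : Fin (L + 1) → ZMod 2) (hc : c ≠ 0)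
    (ρ : ℕ) : ∃ X0 : ℕ, ∀ x : ℕ, X0 ≤ x →
      Real.sqrt x * (Real.log (Real.log x)) ^ K / Real.log x ≤
      ((vals c ((PowerSeries.mk fun n => (Fintype.card (Nat.Partition n) : ZMod 2)) ^ t) 1
        (2 ^ b) ρ x).card : ℝ) := by
  obtain ⟨δ, hδ, X0, hX0⟩ := countsW_all t b (K + 1) ht L c hc ρ
  obtain ⟨X1, hX1⟩ := ev_loglog (max 1 (1 / δ))
  refine ⟨max X0 X1, fun x hx => ?_⟩
  have h1 := (hX0 x (le_trans (le_max_left _ _) hx)).2
  have h2 := hX1 x (le_trans (le_max_right _ _) hx)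
  rw [max_le_iff] at h2
  have h3 := log_pos_of (x := x) (by linarith [h2.1])
  refine le_trans ?_ h1
  unfold wK
  have h4 : 1 ≤ δ * Real.log (Real.log x) := by
    have := h2.2
    rw [div_le_iff₀ hδ] at this
    linarith
  have h5 : δ * Real.sqrt x / (Real.log x / Real.log (Real.log x) ^ (K + 1)) =
      (Real.sqrt x * (Real.log (Real.log x)) ^ K / Real.log x) * (δ * Real.log (Real.log x)) := by
    rw [pow_succ]
    field_simp
  rw [h5]
  apply le_mul_of_one_le_right _ h4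
  have : 0 < Real.log (Real.log x) := by linarith [h2.1]
  positivity

theorem transitions_all (t : ℕ) (ht : t % 2 = 1) (h : ℕ) (hh : 0 < h) (K : ℕ) :
    ∃ X0 : ℕ, ∀ x : ℕ, X0 ≤ x →
      Real.sqrt x * (Real.log (Real.log x)) ^ K / Real.log x ≤
        (((range (x + 1)).filter fun n =>
          coeff n ((PowerSeries.mk fun n => (Fintype.card (Nat.Partition n) : ZMod 2)) ^ t) = 0 ∧
          coeff (n + h) ((PowerSeries.mk fun n =>
            (Fintype.card (Nat.Partition n) : ZMod 2)) ^ t) = 1).card : ℝ) ∧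
      Real.sqrt x * (Real.log (Real.log x)) ^ K / Real.log x ≤
        (((range (x + 1)).filter fun n =>
          coeff n ((PowerSeries.mk fun n => (Fintype.card (Nat.Partition n) : ZMod 2)) ^ t) = 1 ∧
          coeff (n + h) ((PowerSeries.mk fun n =>
            (Fintype.card (Nat.Partition n) : ZMod 2)) ^ t) = 0).card : ℝ) := by
  classical
  set F : (ZMod 2)⟦X⟧ :=
    (PowerSeries.mk fun n => (Fintype.card (Nat.Partition n) : ZMod 2)) ^ t with hF
  set c : Fin (h + 1) → ZMod 2 := Pi.single 0 1 + Pi.single (Fin.last h) 1 with hc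
  have h0 : (0 : Fin (h + 1)) ≠ Fin.last h := by
    intro h'
    have := congrArg Fin.val h'
    simp at this
    omega
  have hc0 : c ≠ 0 := by
    intro h'
    have := congrFun h' 0
    rw [hc] at this
    simp [h0] at this
  have hpat : ∀ n, pat c F n = coeff n F + coeff (n + h) F := by
    intro n
    unfold pat
    rw [hc]
    simp [Pi.single_apply, add_mul, Finset.sum_add_distrib]
  obtain ⟨X0, hX0⟩ := odd_all t 0 ht (K + 1) c hc0 0
  obtain ⟨X1, hX1⟩ := ev_loglog 4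
  obtain ⟨X2, hX2g, hX2⟩ := ev_log (h + 1) (by positivity)
  refine ⟨max X0 (max X1 X2), fun x hx => ?_⟩
  simp only [max_le_iff] at hx
  obtain ⟨hx0, hx1, hx2⟩ := hx
  have g1 := hX0 x hx0
  rw [← hF] at g1
  have g2 := hX1 x hx1
  have g3 := log_pos_of (x := x) (by linarith)
  have g4 := hX2 x hx2
  set U := (range (x + 1)).filter fun n => coeff n F = 0 ∧ coeff (n + h) F = 1 with hU
  set D := (range (x + 1)).filter fun n => coeff n F = 1 ∧ coeff (n + h) F = 0 with hD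
  have h3 : (vals c F 1 (2 ^ 0) 0 x).card ≤ U.card + D.card := by
    refine le_trans (card_le_card ?_) (card_union_le U D)
    intro n hn
    unfold vals at hn
    rw [mem_filter, hpat] at hn
    rw [mem_union, hU, hD, mem_filter, mem_filter]
    obtain ⟨h4, -, h5⟩ := hn
    rcases zmod_two (coeff n F) with h6 | h6 <;> rcases zmod_two (coeff (n + h) F) with h7 | h7
    · rw [h6, h7] at h5
      exact absurd h5 (by decide)
    · exact Or.inl ⟨h4, h6, h7⟩
    · exact Or.inr ⟨h4, h6, h7⟩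
    · rw [h6, h7] at h5
      exact absurd h5 (by decide)
  have h3' : ((vals c F 1 (2 ^ 0) 0 x).card : ℝ) ≤ U.card + D.card := by exact_mod_cast h3
  have h4 := updown (fun n => coeff n F) (x + 1) h
  rw [← hU, ← hD, abs_le] at h4
  have h5 : (U.card : ℝ) - D.card ≤ h := by exact_mod_cast h4.2
  have h6 : -(h : ℝ) ≤ (U.card : ℝ) - D.card := by exact_mod_cast h4.1
  set lam := Real.log (Real.log x) with hlam
  have e1 : Real.sqrt x * lam ^ (K + 1) / Real.log x =
      lam * (Real.sqrt x * lam ^ K / Real.log x) := by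
    rw [pow_succ]
    ring
  set Z := Real.sqrt x * lam ^ K / Real.log x with hZ
  have hZh : (h : ℝ) ≤ Z := by
    rw [hZ, le_div_iff₀ (by linarith)]
    have e2 : (1 : ℝ) ≤ lam ^ K := one_le_pow₀ (by linarith)
    have e3 : Real.sqrt x ≤ Real.sqrt x * lam ^ K :=
      le_mul_of_one_le_right (Real.sqrt_nonneg _) e2
    nlinarith
  have hZ0 : 0 ≤ Z := by
    have : (0 : ℝ) ≤ h := by positivity
    linarith
  rw [e1] at g1
  have e5 : 4 * Z ≤ lam * Z := mul_le_mul_of_nonneg_right g2 hZ0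
  constructor <;> linarith

end Pool.Agent.R836.PP
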