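import Pool.Agent.R836.PP.Lac
import Pool.Agent.R836.PP.FinB

set_option autoImplicit false

/-! The value 0 of a pattern is taken more than `C √x` times, for every `C`. -/

namespace Pool.Agent.R836.PP

open PowerSeries Finset
open Pool.Agent.H397R2.PP Pool.Agent.H397R2.PP.TH Pool.Agent.H307R2.OP

theorem cnt_bound' (P : ℕ → Prop) (m γ : ℕ) (hm : 0 < m) (hγ : 0 < γ) (hγ2 : γ ≤ 24)
    (hP : ∀ a, P a ↔ ∃ x, x ^ 2 = γ * a + 1) (X : ℕ) :
    ((cntF (Sx m P) X).card : ℝ) ≤ 5 * (Real.sqrt ((X : ℝ) / m) + 1) := by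
  classical
  have hex : ∀ n ∈ cntF (Sx m P) X, ∃ x : ℕ, x ^ 2 * m = γ * n + m := by
    intro n hn
    unfold cntF at hn
    rw [mem_filter] at hn
    obtain ⟨k, hk, hPk⟩ := hn.2
    obtain ⟨x, hx⟩ := (hP k).1 hPk
    exact ⟨x, by rw [hx, hk]; ring⟩
  choose! x hx using hex
  have h1 : (cntF (Sx m P) X).card ≤ (range (Nat.sqrt (24 * X / m + 1) + 1)).card := by
    apply card_le_card_of_injOn x
    · intro n hn
      rw [mem_coe] at hn
      have e1 := hx n hn
      unfold cntF at hn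
      rw [mem_filter, mem_range] at hn
      rw [mem_coe, mem_range, Nat.lt_succ_iff, Nat.le_sqrt']
      have e2 : γ * n ≤ 24 * X := Nat.mul_le_mul hγ2 (by omega)
      have e3 : x n ^ 2 * m ≤ 24 * X + m := by omega
      rcases Nat.eq_zero_or_pos (x n ^ 2) with h | h
      · rw [h]; exact Nat.zero_le _
      · obtain ⟨k, hk⟩ : ∃ k, x n ^ 2 = k + 1 := ⟨x n ^ 2 - 1, by omega⟩
        rw [hk] at e3 ⊢
        have e4 : k * m ≤ 24 * X := by
          have : (k + 1) * m = k * m + m := by ring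
          omega
        have := (Nat.le_div_iff_mul_le hm).2 e4
        omega
    · intro n hn n' hn' heq
      rw [mem_coe] at hn hn'
      have e1 := hx n hn
      have e2 := hx n' hn'
      rw [heq, e2] at e1
      exact (Nat.eq_of_mul_eq_mul_left hγ (Nat.add_right_cancel e1)).symm
  rw [card_range] at h1
  have h2 : ((cntF (Sx m P) X).card : ℝ) ≤ (Nat.sqrt (24 * X / m + 1) : ℝ) + 1 := by
    exact_mod_cast h1
  have hmr : (0 : ℝ) < m := by exact_mod_cast hm
  have h3 : (Nat.sqrt (24 * X / m + 1) : ℝ) ≤ 5 * Real.sqrt ((X : ℝ) / m) + 1 := by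
    have e1 : (Nat.sqrt (24 * X / m + 1) : ℝ) ≤ Real.sqrt ((24 * X / m + 1 : ℕ) : ℝ) :=
      Real.nat_sqrt_le_real_sqrt
    have e2 : Real.sqrt ((24 * X / m + 1 : ℕ) : ℝ) ≤ 5 * Real.sqrt ((X : ℝ) / m) + 1 := by
      have e3 : Real.sqrt ((X : ℝ) / m) * Real.sqrt ((X : ℝ) / m) = (X : ℝ) / m :=
        Real.mul_self_sqrt (by positivity)
      have e4 := Real.sqrt_nonneg ((X : ℝ) / m)
      have e5 : ((24 * X / m : ℕ) : ℝ) ≤ 24 * ((X : ℝ) / m) := by
        have := @Nat.cast_div_le ℝ _ _ _ (24 * X) m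
        push_cast at this
        rw [mul_div_assoc] at this
        exact this
      rw [Real.sqrt_le_left (by positivity)]
      push_cast at e5 ⊢
      nlinarith
    linarith
  linarith

theorem nonzero_pat {L : ℕ} (c : Fin (L + 1) → ZMod 2) (μ H : ℕ) (Φ G : (ZMod 2)⟦X⟧)
    (hG : ∀ n, coeff n G = coeff (8 * n + μ) Φ) (hV : Vanish H Φ) (ε : ℝ) (hε : 0 < ε) :
    ∃ X0 : ℕ, ∀ x : ℕ, X0 ≤ x →
      (((range (x + 1)).filter fun n => pat c G n ≠ 0).card : ℝ) ≤ ε * x := by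
  classical
  obtain ⟨X1, hX1⟩ := lac H Φ hV (ε / (9 * (L + 1))) (by positivity)
  refine ⟨max X1 (8 * L + μ + 1), fun x hx => ?_⟩
  have hx1 : X1 ≤ x := le_trans (le_max_left _ _) hx
  have hx2 : 8 * L + μ + 1 ≤ x := le_trans (le_max_right _ _) hx
  set Y : ℕ := 8 * (x + L) + μ + 1 with hY
  have h1 := hX1 Y (by omega)
  have hsub : ((range (x + 1)).filter fun n => pat c G n ≠ 0) ⊆
      (univ : Finset (Fin (L + 1))).biUnion fun i =>
        (range (x + 1)).filter fun n => coeff (8 * (n + i) + μ) Φ ≠ 0 := by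
    intro n hn
    rw [mem_filter] at hn
    rw [mem_biUnion]
    by_contra hcon
    apply hn.2
    unfold pat
    apply Finset.sum_eq_zero
    intro i _
    have h3 : coeff (8 * (n + i) + μ) Φ = 0 := by
      by_contra h4
      exact hcon ⟨i, mem_univ _, mem_filter.2 ⟨hn.1, h4⟩⟩
    rw [hG, h3, mul_zero]
  have hi : ∀ i : Fin (L + 1), ((range (x + 1)).filter fun n =>
      coeff (8 * (n + i) + μ) Φ ≠ 0).card ≤ ((range Y).filter fun N => coeff N Φ ≠ 0).card := by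
    intro i
    apply card_le_card_of_injOn (fun n => 8 * (n + i) + μ)
    · intro n hn
      rw [mem_coe, mem_filter, mem_range] at hn
      rw [mem_coe, mem_filter, mem_range]
      have := i.2
      refine ⟨?_, hn.2⟩
      show 8 * (n + (i : ℕ)) + μ < Y
      omega
    · intro n _ n' _ h
      simp only at h
      omega
  have h2 : ((range (x + 1)).filter fun n => pat c G n ≠ 0).card ≤
      (L + 1) * ((range Y).filter fun N => coeff N Φ ≠ 0).card := by
    refine (card_le_card hsub).trans (card_biUnion_le.trans ?_)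
    calc ∑ i : Fin (L + 1), ((range (x + 1)).filter fun n =>
          coeff (8 * (n + i) + μ) Φ ≠ 0).card ≤
          ∑ _i : Fin (L + 1), ((range Y).filter fun N => coeff N Φ ≠ 0).card :=
          sum_le_sum fun i _ => hi i
      _ = _ := by simp
  have h2' : (((range (x + 1)).filter fun n => pat c G n ≠ 0).card : ℝ) ≤
      (L + 1) * (((range Y).filter fun N => coeff N Φ ≠ 0).card : ℝ) := by exact_mod_cast h2
  have hY9 : (Y : ℝ) ≤ 9 * x := by
    have : Y ≤ 9 * x := by omega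
    exact_mod_cast this
  calc (((range (x + 1)).filter fun n => pat c G n ≠ 0).card : ℝ)
      ≤ (L + 1) * (ε / (9 * (L + 1)) * Y) := h2'.trans (mul_le_mul_of_nonneg_left h1 (by positivity))
    _ = ε / 9 * Y := by field_simp
    _ ≤ ε / 9 * (9 * x) := mul_le_mul_of_nonneg_left hY9 (by positivity)
    _ = ε * x := by ring

theorem even_of (μ b e H : ℕ) (hbe : b ≤ e) (Φ F E G : (ZMod 2)⟦X⟧)
    (hG : ∀ n, coeff n G = coeff (8 * n + μ) Φ) (h2 : Vanish H Φ)
    (S : ℕ → Prop) (hE : ∀ n, (S n → coeff n E = 1) ∧ (¬ S n → coeff n E = 0))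
    (hFE : F * E = G) (hS : ∀ n, S n → 2 ^ e ∣ n)
    (u : ℕ → ℕ) (hu1 : ∀ l, u l + (2 * l + 1) ≤ u (l + 1)) (hu2 : ∀ l, u l ≤ 2 * l ^ 2 + l)
    (hodd : ∀ l N, 2 ^ e * u l ≤ N → N < 2 ^ e * (u l + (2 * l + 1)) →
      ((cntF S N).card : ZMod 2) = 1)
    (hC : ∀ X : ℕ, ((cntF S X).card : ℝ) ≤ 5 * (Real.sqrt ((X : ℝ) / (2 ^ e : ℕ)) + 1))
    {L : ℕ} (c : Fin (L + 1) → ZMod 2) (ρ : ℕ) : ∃ X0 : ℕ, ∀ x : ℕ, X0 ≤ x →
      Real.sqrt (2 ^ e : ℕ) / (800 * 2 ^ b) * Real.sqrt x ≤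
        ((vals c F 0 (2 ^ b) ρ x).card : ℝ) := by
  classical
  have hm0 : 0 < 2 ^ e := by positivity
  have hE' : ∀ n, coeff n E = if S n then 1 else 0 := by
    intro n
    by_cases h : S n
    · rw [if_pos h, (hE n).1 h]
    · rw [if_neg h, (hE n).2 h]
  set M : ℝ := ((2 ^ e : ℕ) : ℝ) with hM
  have hM1 : (1 : ℝ) ≤ M := by
    rw [hM]
    exact_mod_cast hm0
  set B : ℝ := (2 : ℝ) ^ b with hB
  have hB1 : (1 : ℝ) ≤ B := one_le_pow₀ (by norm_num)
  obtain ⟨X1, hX1⟩ := odd_count_exp (2 ^ e) hm0 S u hu1 hu2 hodd (2 ^ b) ρ L (by positivity)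
  obtain ⟨X2, hX2⟩ := nonzero_pat c μ H Φ G hG h2 (1 / (40 * B)) (by positivity)
  obtain ⟨X3, hX3⟩ := exists_nat_gt ((800 * B * L / Real.sqrt M) ^ 2)
  obtain ⟨X4, hX4⟩ := exists_nat_gt (100 * M)
  refine ⟨max (max X1 X2) (max (max X3 X4) (max L 1)), fun x hx => ?_⟩
  simp only [max_le_iff] at hx
  obtain ⟨⟨hx1, hx2⟩, ⟨hx3, hx4⟩, hx5, hx6⟩ := hx
  have g1 := hX1 x hx1
  have g2 := hX2 x hx2
  have hxr : (0 : ℝ) < x := by exact_mod_cast hx6
  -- the good set
  have hgood : ((range (x + 1)).filter fun n => n % 2 ^ b = ρ % 2 ^ b ∧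
      ((cntF S (n + L)).card : ZMod 2) = 1).card ≤ (good c S G 0 (2 ^ b) ρ x).card +
        ((range (x + 1)).filter fun n => pat c G n ≠ 0).card := by
    refine le_trans (card_le_card ?_) (card_union_le _ _)
    intro n hn
    rw [mem_filter] at hn
    rw [mem_union]
    by_cases h : pat c G n = 0
    · left
      unfold good
      rw [mem_filter]
      refine ⟨hn.1, hn.2.1, ?_⟩
      rw [hn.2.2, h]
      decide
    · right
      rw [mem_filter]
      exact ⟨hn.1, h⟩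
  have hgood' : (((range (x + 1)).filter fun n => n % 2 ^ b = ρ % 2 ^ b ∧
      ((cntF S (n + L)).card : ZMod 2) = 1).card : ℝ) ≤ ((good c S G 0 (2 ^ b) ρ x).card : ℝ) +
        (((range (x + 1)).filter fun n => pat c G n ≠ 0).card : ℝ) := by exact_mod_cast hgood
  have t0 := transfer c S F E G hE' hFE (2 ^ b) (fun n hn => (pow_dvd_pow 2 hbe).trans (hS n hn)) 0 ρ x
  have t0' : ((good c S G 0 (2 ^ b) ρ x).card : ℝ) ≤
      (((vals c F 0 (2 ^ b) ρ x).card : ℝ) + L) * ((cntF S (x + L)).card : ℝ) := by exact_mod_cast t0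
  have g3 : (x : ℝ) / (40 * B) ≤ ((good c S G 0 (2 ^ b) ρ x).card : ℝ) := by
    have e1 : 1 / (20 * ((2 ^ b : ℕ) : ℝ)) * x = 2 * ((x : ℝ) / (40 * B)) := by
      rw [hB]
      push_cast
      field_simp
      norm_num
    have e2 : 1 / (40 * B) * x = (x : ℝ) / (40 * B) := by ring
    rw [e1] at g1
    rw [e2] at g2
    linarith
  -- the number of exponents
  have hsx : Real.sqrt x * Real.sqrt x = x := Real.mul_self_sqrt hxr.le
  have hsM : Real.sqrt M * Real.sqrt M = M := Real.mul_self_sqrt (by linarith)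
  have hsM0 : 0 < Real.sqrt M := Real.sqrt_pos.2 (by linarith)
  have hsx0 : 0 < Real.sqrt x := Real.sqrt_pos.2 hxr
  have g4 : ((cntF S (x + L)).card : ℝ) ≤ 10 * (Real.sqrt x / Real.sqrt M) := by
    refine (hC (x + L)).trans ?_
    have e1 : Real.sqrt (((x + L : ℕ) : ℝ) / M) ≤ 3 / 2 * (Real.sqrt x / Real.sqrt M) := by
      rw [Real.sqrt_le_left (by positivity)]
      have e2 : (3 / 2 * (Real.sqrt x / Real.sqrt M)) ^ 2 = 9 / 4 * (x / M) := by
        rw [mul_pow, div_pow (Real.sqrt (x : ℝ)), Real.sq_sqrt hxr.le, Real.sq_sqrt (by linarith)]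
        norm_num
      rw [e2]
      have e3 : ((x + L : ℕ) : ℝ) ≤ 2 * x := by
        have : (L : ℝ) ≤ x := by exact_mod_cast hx5
        push_cast
        linarith
      calc ((x + L : ℕ) : ℝ) / M ≤ (2 * x) / M := div_le_div_of_nonneg_right e3 (by linarith)
        _ ≤ 9 / 4 * (x / M) := by
          have : 0 ≤ (x : ℝ) / M := by positivity
          have e4 : (2 * (x : ℝ)) / M = 2 * (x / M) := by ring
          rw [e4]
          linarith
    have e5 : 10 ≤ Real.sqrt x / Real.sqrt M := by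
      rw [le_div_iff₀ hsM0]
      have e6 : 100 * M ≤ x := hX4.le.trans (by exact_mod_cast hx4)
      have e7 : (10 * Real.sqrt M) ^ 2 ≤ x := by
        rw [mul_pow, Real.sq_sqrt (by linarith)]
        linarith
      exact Real.le_sqrt_of_sq_le e7
    linarith
  have g5 : (x : ℝ) / (40 * B) ≤ (((vals c F 0 (2 ^ b) ρ x).card : ℝ) + L) *
      (10 * (Real.sqrt x / Real.sqrt M)) :=
    g3.trans (t0'.trans (mul_le_mul_of_nonneg_left g4 (by positivity)))
  have g6 : 2 * (Real.sqrt M / (800 * B) * Real.sqrt x) ≤ ((vals c F 0 (2 ^ b) ρ x).card : ℝ) + L := by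
    have e1 : (x : ℝ) / (40 * B) = (2 * (Real.sqrt M / (800 * B) * Real.sqrt x)) *
        (10 * (Real.sqrt x / Real.sqrt M)) := by
      have h : (x : ℝ) / (40 * B) = (Real.sqrt x * Real.sqrt x) / (40 * B) := by rw [hsx]
      rw [h]
      field_simp
      norm_num
    rw [e1] at g5
    exact le_of_mul_le_mul_right g5 (by positivity)
  have g7 : (L : ℝ) ≤ Real.sqrt M / (800 * B) * Real.sqrt x := by
    have e1 : (800 * B * L / Real.sqrt M) ^ 2 ≤ x := hX3.le.trans (by exact_mod_cast hx3)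
    have e2 : 800 * B * L / Real.sqrt M ≤ Real.sqrt x := Real.le_sqrt_of_sq_le e1
    rw [div_le_iff₀ hsM0] at e2
    rw [div_mul_eq_mul_div, le_div_iff₀ (by positivity)]
    linarith
  linarith

/-- the final form for the value 0 -/
theorem even_all (t b : ℕ) (ht : t % 2 = 1) (C : ℝ) {L : ℕ} (c : Fin (L + 1) → ZMod 2) (ρ : ℕ) :
    ∃ X0 : ℕ, ∀ x : ℕ, X0 ≤ x → C * Real.sqrt x ≤
      ((vals c ((PowerSeries.mk fun n => (Fintype.card (Nat.Partition n) : ZMod 2)) ^ t) 0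
        (2 ^ b) ρ x).card : ℝ) := by
  obtain ⟨b', hb'⟩ := exists_nat_gt ((800 * 2 ^ b * C) ^ 2)
  obtain ⟨e, ε, j, hbe, hε, hj, hK⟩ := exists_e t (max b b') 0 ht
  have hbe1 : b ≤ e := le_trans (le_max_left _ _) hbe
  have hbe2 : b' ≤ e := le_trans (le_max_right _ _) hbe
  have hm : 0 < 2 ^ e := by positivity
  have hFE := pow_eq t (3 * (2 * j + 1)) _ hj
  have hV : Vanish (cont j + 1) ((Db : S) ^ (2 * j + 1)) :=
    fun N R hR h => coeff_vanish (cont j + 1) _ (NIL.WW_mem (by omega)) N R hR h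
  have hCs : C ≤ Real.sqrt (2 ^ e : ℕ) / (800 * 2 ^ b) := by
    rw [le_div_iff₀ (by positivity)]
    have h1 : ((800 * 2 ^ b * C) ^ 2 : ℝ) ≤ ((2 ^ e : ℕ) : ℝ) := by
      refine hb'.le.trans ?_
      have h2 : b' ≤ 2 ^ e := hbe2.trans (Nat.lt_two_pow_self).le
      exact_mod_cast h2
    have h3 : 800 * 2 ^ b * C ≤ Real.sqrt (2 ^ e : ℕ) := Real.le_sqrt_of_sq_le h1
    linarith
  have main : ∃ X0 : ℕ, ∀ x : ℕ, X0 ≤ x → Real.sqrt (2 ^ e : ℕ) / (800 * 2 ^ b) * Real.sqrt x ≤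
      ((vals c ((PowerSeries.mk fun n => (Fintype.card (Nat.Partition n) : ZMod 2)) ^ t) 0
        (2 ^ b) ρ x).card : ℝ) := by
    rcases hε with rfl | rfl
    · have hE : pentagonalSeries (ZMod 2) ^ (2 ^ e * 1) = ind (Sx (2 ^ e) isPent) := by
        rw [mul_one, pent_eq, pow_Sx]
      rw [hE] at hFE
      exact even_of (2 * j + 1) b e (cont j + 1) hbe1
        ((Db : S) ^ (2 * j + 1)) _ _ _ (coeff_Db_pow _) hV
        (Sx (2 ^ e) isPent) (coeff_Sx _ _) hFE (fun n hn => by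
          obtain ⟨k, hk, -⟩ := hn
          exact ⟨k, hk⟩) uP uP1 uP2 (uP_odd _ hm)
        (cnt_bound' isPent _ 24 hm (by norm_num) le_rfl pent_iff) c ρ
    · have hE : pentagonalSeries (ZMod 2) ^ (2 ^ e * 3) = ind (Sx (2 ^ e) isTri) := by
        rw [mul_comm, pow_mul, pent_eq, ← psi_eq, pow_Sx]
      rw [hE] at hFE
      exact even_of (2 * j + 1) b e (cont j + 1) hbe1
        ((Db : S) ^ (2 * j + 1)) _ _ _ (coeff_Db_pow _) hV
        (Sx (2 ^ e) isTri) (coeff_Sx _ _) hFE (fun n hn => by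
          obtain ⟨k, hk, -⟩ := hn
          exact ⟨k, hk⟩) uT uT1 uT2 (uT_odd _ hm)
        (cnt_bound' isTri _ 8 hm (by norm_num) (by norm_num) tri_iff) c ρ
  obtain ⟨X0, hX0⟩ := main
  exact ⟨X0, fun x hx => (mul_le_mul_of_nonneg_right hCs (Real.sqrt_nonneg _)).trans (hX0 x hx)⟩

end Pool.Agent.R836.PP
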