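import Pool.Agent.R836.PP.Dist
import Pool.Agent.R836.PP.Cnt

set_option autoImplicit false

/-! The counting theorem for linear patterns. -/

namespace Pool.Agent.R836.PP

open PowerSeries Finset

theorem ev_log (M : ℝ) (hM : 0 < M) : ∃ X0 : ℕ, 1 < X0 ∧ ∀ x : ℕ, X0 ≤ x →
    M * Real.log x ≤ Real.sqrt x := by
  have h := (isLittleO_log_rpow_atTop (show (0 : ℝ) < 1 / 2 by norm_num)).bound
    (show (0 : ℝ) < 1 / M by positivity)
  have h2 := (tendsto_natCast_atTop_atTop (R := ℝ)).eventually h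
  obtain ⟨X1, hX1⟩ := Filter.eventually_atTop.1 h2
  refine ⟨max X1 2, by omega, fun x hx => ?_⟩
  have h3 := hX1 x (le_trans (le_max_left _ _) hx)
  rw [← Real.sqrt_eq_rpow, Real.norm_eq_abs, Real.norm_eq_abs,
    abs_of_nonneg (Real.sqrt_nonneg _)] at h3
  have h4 : Real.log x ≤ 1 / M * Real.sqrt x := (le_abs_self _).trans h3
  calc M * Real.log x ≤ M * (1 / M * Real.sqrt x) := mul_le_mul_of_nonneg_left h4 hM.le
    _ = Real.sqrt x := by field_simp

/-- the counting statement for the series `F` and the residue classes modulo `m` -/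
def Counts (F : (ZMod 2)⟦X⟧) (m : ℕ) : Prop :=
  ∀ (L : ℕ) (c : Fin (L + 1) → ZMod 2), c ≠ 0 → ∀ ρ : ℕ, ∃ δ : ℝ, 0 < δ ∧ ∃ X0 : ℕ,
    ∀ x : ℕ, X0 ≤ x → δ * Real.sqrt x ≤ ((vals c F 0 m ρ x).card : ℝ) ∧
      δ * Real.sqrt x / Real.log x ≤ ((vals c F 1 m ρ x).card : ℝ)

theorem step_div (L : ℕ) (A : ℝ) (hA : 0 < A) (C : ℕ → ℕ)
    (hC : ∀ X, (C X : ℝ) ≤ A * (Real.sqrt X + 1)) (g v : ℕ → ℕ)
    (hgv : ∀ x, g x ≤ (v x + L) * C (x + L)) (δ : ℝ) (hδ : 0 < δ) (w : ℕ → ℝ)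
    (hw : ∃ X0, ∀ x, X0 ≤ x → 0 < w x ∧ (6 * A * L / δ) * w x ≤ Real.sqrt x)
    (X0 : ℕ) (hg : ∀ x, X0 ≤ x → δ * x / w x ≤ g x) :
    ∃ X1 : ℕ, ∀ x, X1 ≤ x → (δ / (6 * A)) * Real.sqrt x / w x ≤ v x := by
  obtain ⟨X2, hX2⟩ := hw
  refine ⟨max (max X0 X2) (max L 1), fun x hx => ?_⟩
  have hx0 : X0 ≤ x := le_trans (le_trans (le_max_left _ _) (le_max_left _ _)) hx
  have hx2 : X2 ≤ x := le_trans (le_trans (le_max_right _ _) (le_max_left _ _)) hx
  have hxL : L ≤ x := le_trans (le_trans (le_max_left _ _) (le_max_right _ _)) hx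
  have hx1 : 1 ≤ x := le_trans (le_trans (le_max_right _ _) (le_max_right _ _)) hx
  obtain ⟨w1, w2⟩ := hX2 x hx2
  have h1 := hg x hx0
  have h2 : (g x : ℝ) ≤ ((v x : ℝ) + L) * C (x + L) := by exact_mod_cast hgv x
  have hxr : (1 : ℝ) ≤ x := by exact_mod_cast hx1
  have hs1 : (1 : ℝ) ≤ Real.sqrt x := Real.one_le_sqrt.2 hxr
  have hs2 : Real.sqrt x * Real.sqrt x = x := Real.mul_self_sqrt (by linarith)
  have h3 : (C (x + L) : ℝ) ≤ 3 * A * Real.sqrt x := by
    have e1 := hC (x + L)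
    have e2 : Real.sqrt ((x + L : ℕ) : ℝ) ≤ 2 * Real.sqrt x := by
      rw [Real.sqrt_le_left (by positivity)]
      have e3 : (L : ℝ) ≤ x := by exact_mod_cast hxL
      push_cast
      nlinarith
    have e4 : A * (Real.sqrt ((x + L : ℕ) : ℝ) + 1) ≤ A * (2 * Real.sqrt x + Real.sqrt x) := by
      apply mul_le_mul_of_nonneg_left _ hA.le
      linarith
    linarith
  have h4 : δ * x / w x ≤ ((v x : ℝ) + L) * (3 * A * Real.sqrt x) :=
    h1.trans (h2.trans (mul_le_mul_of_nonneg_left h3 (by positivity)))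
  have hsp : 0 < Real.sqrt x := by linarith
  -- divide by 3 A sqrt x
  have h5 : δ / (3 * A) * Real.sqrt x / w x ≤ (v x : ℝ) + L := by
    have e1 : δ * x / w x = (δ / (3 * A) * Real.sqrt x / w x) * (3 * A * Real.sqrt x) := by
      have : δ * (x : ℝ) = δ * (Real.sqrt x * Real.sqrt x) := by rw [hs2]
      rw [this]
      field_simp
    rw [e1] at h4
    exact le_of_mul_le_mul_right h4 (by positivity)
  have h6 : (L : ℝ) ≤ δ / (6 * A) * Real.sqrt x / w x := by
    rw [le_div_iff₀ w1]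
    have e1 : (L : ℝ) * w x = δ / (6 * A) * ((6 * A * L / δ) * w x) := by
      field_simp
    rw [e1]
    exact mul_le_mul_of_nonneg_left w2 (by positivity)
  have h7 : δ / (3 * A) * Real.sqrt x / w x = 2 * (δ / (6 * A) * Real.sqrt x / w x) := by
    field_simp
    ring
  rw [h7] at h5
  linarith

theorem counts_of (qq bb : ℕ) (hqq : qq ≠ 0) (hbb : bb < qq) (hcb : bb.Coprime qq)
    (α β m : ℕ) (hα8 : 8 ≤ α) (hm0 : 0 < m)
    (hco : ∀ z, Nat.Coprime (α * z + β) (α * m)) (F E G : (ZMod 2)⟦X⟧)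
    (h1 : ∀ n, (α * n + β).Prime → coeff n G = 1)
    (h2 : ∀ n r : ℕ, r.Prime → r % qq = bb → r ∣ α * n + β → ¬ r ^ 2 ∣ α * n + β →
      coeff n G = 0)
    (S : ℕ → Prop) (hE : ∀ n, (S n → coeff n E = 1) ∧ (¬ S n → coeff n E = 0))
    (hFE : F * E = G) (hS : ∀ n, S n → m ∣ n)
    (u : ℕ → ℕ) (hu1 : ∀ l, u l + (2 * l + 1) ≤ u (l + 1)) (hu2 : ∀ l, u l ≤ 2 * l ^ 2 + l)
    (hodd : ∀ l N, m * u l ≤ N → N < m * (u l + (2 * l + 1)) →
      ((cntF S N).card : ZMod 2) = 1)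
    (A : ℝ) (hA : 0 < A) (hC : ∀ X, ((cntF S X).card : ℝ) ≤ A * (Real.sqrt X + 1)) :
    Counts F m := by
  classical
  intro L c hc ρ
  have hE' : ∀ n, coeff n E = if S n then 1 else 0 := by
    intro n
    by_cases h : S n
    · rw [if_pos h, (hE n).1 h]
    · rw [if_neg h, (hE n).2 h]
  obtain ⟨δ1, hδ1, X1, hX1⟩ := odd_lower qq bb hqq hbb hcb α β m hα8 hm0 hco G h1 h2 c hc ρ
  obtain ⟨Q, n0, hQ, hmQ, hn0, hz⟩ := zero_class qq bb hqq hbb hcb α β m (by omega) hm0 hco G h2 c ρ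
  obtain ⟨δ0, hδ0, X2, hX2⟩ := odd_count m hm0 S u hu1 hu2 hodd Q n0 L hQ
  have t1 : ∀ x, (good c S G 1 m ρ x).card ≤ ((vals c F 1 m ρ x).card + L) *
      (cntF S (x + L)).card := fun x => transfer c S F E G hE' hFE m hS 1 ρ x
  have t0 : ∀ x, (good c S G 0 m ρ x).card ≤ ((vals c F 0 m ρ x).card + L) *
      (cntF S (x + L)).card := fun x => transfer c S F E G hE' hFE m hS 0 ρ x
  have s1 : ∃ X3 : ℕ, ∀ x : ℕ, X3 ≤ x →
      (δ1 / (6 * A)) * Real.sqrt x / Real.log x ≤ ((vals c F 1 m ρ x).card : ℝ) := by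
    apply step_div L A hA (fun X => (cntF S X).card) hC (fun x => (good c S G 1 m ρ x).card)
      (fun x => (vals c F 1 m ρ x).card) t1 δ1 hδ1 (fun x => Real.log x) _ X1
    · intro x hx
      refine (hX1 x hx).trans ?_
      have : ((range (x + 1)).filter fun n => n % m = ρ % m ∧ pat c G n = 1) ⊆
          good c S G 1 m ρ x := by
        intro n hn
        unfold good
        rw [mem_filter] at hn ⊢
        refine ⟨hn.1, hn.2.1, ?_⟩
        rw [hn.2.2]
        have : (1 : ZMod 2) + 1 = 0 := by decide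
        rw [this, zero_mul]
        decide
      exact_mod_cast card_le_card this
    · obtain ⟨X4, hX4, hX4'⟩ := ev_log (6 * A * L / δ1 + 1) (by positivity)
      refine ⟨X4, fun x hx => ?_⟩
      have hlog : 0 < Real.log x := by
        apply Real.log_pos
        have : 1 < x := by omega
        exact_mod_cast this
      refine ⟨hlog, ?_⟩
      have := hX4' x hx
      nlinarith
  have s0 : ∃ X3 : ℕ, ∀ x : ℕ, X3 ≤ x →
      (δ0 / (6 * A)) * Real.sqrt x / 1 ≤ ((vals c F 0 m ρ x).card : ℝ) := by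
    apply step_div L A hA (fun X => (cntF S X).card) hC (fun x => (good c S G 0 m ρ x).card)
      (fun x => (vals c F 0 m ρ x).card) t0 δ0 hδ0 (fun x => 1) _ X2
    · intro x hx
      rw [div_one]
      refine (hX2 x hx).trans ?_
      have : ((range (x + 1)).filter fun n => n % Q = n0 % Q ∧
        ((cntF S (n + L)).card : ZMod 2) = 1) ⊆ good c S G 0 m ρ x := by
        intro n hn
        unfold good
        rw [mem_filter] at hn ⊢
        refine ⟨hn.1, ?_, ?_⟩
        · have e : n ≡ n0 [MOD Q] := hn.2.1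
          have e2 : n % m = n0 % m := e.of_dvd hmQ
          rw [e2, hn0]
        · rw [hn.2.2, hz n hn.2.1]
          decide
      exact_mod_cast card_le_card this
    · obtain ⟨X4, hX4⟩ := exists_nat_gt ((6 * A * L / δ0) ^ 2)
      refine ⟨X4, fun x hx => ⟨one_pos, ?_⟩⟩
      rw [mul_one]
      apply Real.le_sqrt_of_sq_le
      exact hX4.le.trans (by exact_mod_cast hx)
  obtain ⟨X3, hX3⟩ := s1
  obtain ⟨X4, hX4⟩ := s0
  refine ⟨min (δ1 / (6 * A)) (δ0 / (6 * A)), by positivity, max (max X3 X4) 3, fun x hx => ?_⟩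
  have hx3 : X3 ≤ x := le_trans (le_trans (le_max_left _ _) (le_max_left _ _)) hx
  have hx4 : X4 ≤ x := le_trans (le_trans (le_max_right _ _) (le_max_left _ _)) hx
  have hx5 : 3 ≤ x := le_trans (le_max_right _ _) hx
  have hlog : 0 < Real.log x := by
    apply Real.log_pos
    have : 1 < x := by omega
    exact_mod_cast this
  constructor
  · have := hX4 x hx4
    rw [div_one] at this
    refine le_trans ?_ this
    exact mul_le_mul_of_nonneg_right (min_le_right _ _) (Real.sqrt_nonneg _)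
  · refine le_trans ?_ (hX3 x hx3)
    apply div_le_div_of_nonneg_right _ hlog.le
    exact mul_le_mul_of_nonneg_right (min_le_left _ _) (Real.sqrt_nonneg _)

end Pool.Agent.R836.PP
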