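import Mathlib

set_option autoImplicit false

/-! The forms `x² + 2y²` and `x² + 3y²`. -/

namespace Pool.Agent.R836.PP

theorem uniqD (D : ℕ) (hD : 2 ≤ D) {p x y z w : ℕ} (hp : p.Prime) (h1 : x ^ 2 + D * y ^ 2 = p)
    (h2 : z ^ 2 + D * w ^ 2 = p) (hx : 0 < x) (hz : 0 < z) : x = z ∧ y = w := by
  have hpZ : Prime (p : ℤ) := Nat.prime_iff_prime_int.1 hp
  have h1' : (x : ℤ) ^ 2 + D * (y : ℤ) ^ 2 = p := by exact_mod_cast h1
  have h2' : (z : ℤ) ^ 2 + D * (w : ℤ) ^ 2 = p := by exact_mod_cast h2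
  have hp0 : (0 : ℤ) < p := by exact_mod_cast hp.pos
  have hD' : (2 : ℤ) ≤ D := by exact_mod_cast hD
  have hx0 : (0 : ℤ) < x := by exact_mod_cast hx
  have hz0 : (0 : ℤ) < z := by exact_mod_cast hz
  have hy0 : (0 : ℤ) ≤ y := by positivity
  have hw0 : (0 : ℤ) ≤ w := by positivity
  have hd : (p : ℤ) ∣ ((x : ℤ) * w - y * z) * (x * w + y * z) := by
    refine ⟨(w : ℤ) ^ 2 - y ^ 2, ?_⟩
    linear_combination (w : ℤ) ^ 2 * h1' - (y : ℤ) ^ 2 * h2'
  have small : ∀ k : ℤ, D * ((p : ℤ) * k) ^ 2 ≤ p ^ 2 → k = 0 := by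
    intro k hk
    by_contra hk0
    have e1 : 1 ≤ k ^ 2 := by
      have := Int.one_le_abs hk0
      nlinarith [sq_abs k]
    have e2 : (0 : ℤ) < (p : ℤ) ^ 2 := by positivity
    have e3 : D * ((p : ℤ) * k) ^ 2 = (p : ℤ) ^ 2 * (D * k ^ 2) := by ring
    rw [e3] at hk
    have e4 : (2 : ℤ) ≤ D * k ^ 2 := by nlinarith
    nlinarith
  rcases hpZ.dvd_or_dvd hd with h | h
  · obtain ⟨k, hk⟩ := h
    have e1 : ((x : ℤ) * z + D * y * w) ^ 2 + D * (x * w - y * z) ^ 2 = (p : ℤ) ^ 2 := by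
      linear_combination ((z : ℤ) ^ 2 + D * w ^ 2) * h1' + (p : ℤ) * h2'
    have hk0 : k = 0 := by
      apply small
      rw [← hk]
      nlinarith [sq_nonneg ((x : ℤ) * z + D * y * w)]
    rw [hk0, mul_zero, sub_eq_zero] at hk
    have e2 : (p : ℤ) * (x : ℤ) ^ 2 = p * (z : ℤ) ^ 2 := by
      linear_combination (-(x : ℤ) ^ 2) * h2' + (z : ℤ) ^ 2 * h1' + D * ((x : ℤ) * w + y * z) * hk
    have e3 : (x : ℤ) ^ 2 = z ^ 2 := mul_left_cancel₀ hp0.ne' e2
    have e4 : (x : ℤ) = z := by nlinarith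
    have e5 : (y : ℤ) = w := by
      rw [e4] at hk
      have : (z : ℤ) * w = z * y := by linarith
      exact (mul_left_cancel₀ hz0.ne' this).symm
    exact ⟨by exact_mod_cast e4, by exact_mod_cast e5⟩
  · exfalso
    obtain ⟨k, hk⟩ := h
    have e1 : ((x : ℤ) * z - D * y * w) ^ 2 + D * (x * w + y * z) ^ 2 = (p : ℤ) ^ 2 := by
      linear_combination ((z : ℤ) ^ 2 + D * w ^ 2) * h1' + (p : ℤ) * h2'
    have hk0 : k = 0 := by
      apply small
      rw [← hk]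
      nlinarith [sq_nonneg ((x : ℤ) * z - D * y * w)]
    rw [hk0, mul_zero] at hk
    have e2 : (x : ℤ) * w = 0 := by nlinarith [mul_nonneg hx0.le hw0, mul_nonneg hy0 hz0.le]
    have e3 : (w : ℤ) = 0 := by
      rcases mul_eq_zero.1 e2 with h | h
      · omega
      · exact h
    have e4 : w = 0 := by exact_mod_cast e3
    rw [e4] at h2
    simp only [ne_eq, OfNat.ofNat_ne_zero, not_false_eq_true, zero_pow, mul_zero, add_zero] at h2
    exact Nat.Prime.not_prime_pow (le_refl 2) (h2 ▸ hp)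

theorem thueD (p : ℕ) [Fact p.Prime] (z : ZMod p) :
    ∃ x y : ℤ, (x ≠ 0 ∨ y ≠ 0) ∧ x ^ 2 < p ∧ y ^ 2 < p ∧ (x : ZMod p) = z * y := by
  have hp : p.Prime := Fact.out
  set r := Nat.sqrt p with hr
  have hr1 : r * r ≤ p := Nat.sqrt_le p
  have hr2 : p < (r + 1) * (r + 1) := Nat.lt_succ_sqrt p
  have hr3 : r * r < p := by
    refine lt_of_le_of_ne hr1 ?_
    intro h
    have : IsSquare p := ⟨r, h.symm⟩
    exact hp.prime.not_isSquare this
  let f : Fin (r + 1) × Fin (r + 1) → ZMod p := fun ij => (ij.1 : ℕ) - z * (ij.2 : ℕ)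
  have hcard : Fintype.card (ZMod p) < Fintype.card (Fin (r + 1) × Fin (r + 1)) := by
    rw [ZMod.card, Fintype.card_prod, Fintype.card_fin]
    exact hr2
  obtain ⟨⟨i, j⟩, ⟨i', j'⟩, hne, heq⟩ := Fintype.exists_ne_map_eq_of_card_lt f hcard
  refine ⟨((i : ℕ) : ℤ) - ((i' : ℕ) : ℤ), ((j : ℕ) : ℤ) - ((j' : ℕ) : ℤ), ?_, ?_, ?_, ?_⟩
  · by_contra hcon
    push Not at hcon
    apply hne
    have h1 : (i : ℕ) = (i' : ℕ) := by omega
    have h2 : (j : ℕ) = (j' : ℕ) := by omega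
    exact Prod.ext (Fin.ext h1) (Fin.ext h2)
  · have h1 : ((i : ℕ) : ℤ) ≤ r := by have := i.2; omega
    have h2 : ((i' : ℕ) : ℤ) ≤ r := by have := i'.2; omega
    have h3 : (0 : ℤ) ≤ ((i : ℕ) : ℤ) := by positivity
    have h4 : (0 : ℤ) ≤ ((i' : ℕ) : ℤ) := by positivity
    have h5 : (r : ℤ) * r < p := by exact_mod_cast hr3
    nlinarith
  · have h1 : ((j : ℕ) : ℤ) ≤ r := by have := j.2; omega
    have h2 : ((j' : ℕ) : ℤ) ≤ r := by have := j'.2; omega
    have h3 : (0 : ℤ) ≤ ((j : ℕ) : ℤ) := by positivity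
    have h4 : (0 : ℤ) ≤ ((j' : ℕ) : ℤ) := by positivity
    have h5 : (r : ℤ) * r < p := by exact_mod_cast hr3
    nlinarith
  · have : ((i : ℕ) : ZMod p) - z * ((j : ℕ) : ZMod p)
        = ((i' : ℕ) : ZMod p) - z * ((j' : ℕ) : ZMod p) := heq
    push_cast
    linear_combination this

theorem thue_form (D p : ℕ) [hp : Fact p.Prime] (hD : 0 < D) (z : ZMod p) (hz : z * z = -(D : ZMod p)) :
    ∃ x y k : ℕ, 0 < k ∧ k ≤ D ∧ x ^ 2 + D * y ^ 2 = k * p := by
  obtain ⟨x, y, h0, h1, h2, h3⟩ := thueD p z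
  have hdvd : (p : ℤ) ∣ x ^ 2 + D * y ^ 2 := by
    rw [← ZMod.intCast_zmod_eq_zero_iff_dvd]
    push_cast
    rw [h3]
    linear_combination (y : ZMod p) ^ 2 * hz
  obtain ⟨k, hk⟩ := hdvd
  have hp0 : (0 : ℤ) < p := by exact_mod_cast hp.out.pos
  have hD' : (0 : ℤ) < D := by exact_mod_cast hD
  have hpos : 0 < x ^ 2 + D * y ^ 2 := by
    rcases h0 with h | h
    · have := sq_pos_of_pos (abs_pos.2 h)
      rw [sq_abs] at this
      nlinarith [sq_nonneg y]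
    · have := sq_pos_of_pos (abs_pos.2 h)
      rw [sq_abs] at this
      nlinarith [sq_nonneg x]
  have hk0 : 0 < k := by
    rw [hk] at hpos
    exact pos_of_mul_pos_right hpos hp0.le
  have hkD : k ≤ D := by
    have : (p : ℤ) * k < p * (D + 1) := by rw [← hk]; nlinarith
    have := lt_of_mul_lt_mul_left this hp0.le
    omega
  refine ⟨x.natAbs, y.natAbs, k.toNat, by omega, by omega, ?_⟩
  have e : (((x.natAbs) ^ 2 + D * (y.natAbs) ^ 2 : ℕ) : ℤ) = ((k.toNat * p : ℕ) : ℤ) := by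
    push_cast
    rw [sq_abs, sq_abs, Int.toNat_of_nonneg hk0.le, hk]
    ring
  exact_mod_cast e

theorem sq_mod_four (x : ℕ) : x ^ 2 % 4 = 0 ∨ x ^ 2 % 4 = 1 := by
  have : x % 4 = 0 ∨ x % 4 = 1 ∨ x % 4 = 2 ∨ x % 4 = 3 := by omega
  rcases this with h | h | h | h <;> rw [Nat.pow_mod, h] <;> norm_num

theorem sq_mod_eight (x : ℕ) : x ^ 2 % 8 = 0 ∨ x ^ 2 % 8 = 1 ∨ x ^ 2 % 8 = 4 := by
  have : x % 8 = 0 ∨ x % 8 = 1 ∨ x % 8 = 2 ∨ x % 8 = 3 ∨ x % 8 = 4 ∨ x % 8 = 5 ∨ x % 8 = 6 ∨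
    x % 8 = 7 := by omega
  rcases this with h | h | h | h | h | h | h | h <;> rw [Nat.pow_mod, h] <;> norm_num

theorem odd_of_sq {x : ℕ} (h : x ^ 2 % 2 = 1) : x % 2 = 1 := by
  rcases Nat.mod_two_eq_zero_or_one x with h' | h'
  · exfalso
    rw [Nat.pow_mod, h'] at h
    simp at h
  · exact h'

theorem even_of_sq {x : ℕ} (h : x ^ 2 % 2 = 0) : ∃ y, x = 2 * y := by
  rcases Nat.mod_two_eq_zero_or_one x with h' | h'
  · exact ⟨x / 2, by omega⟩
  · exfalso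
    rw [Nat.pow_mod, h'] at h
    simp at h

theorem rep_two {p : ℕ} (hp : p.Prime) (h3 : p % 8 = 3) :
    ∃ x y : ℕ, x % 2 = 1 ∧ y % 2 = 1 ∧ x ^ 2 + 2 * y ^ 2 = p := by
  have : Fact p.Prime := ⟨hp⟩
  obtain ⟨z, hz⟩ := (ZMod.exists_sq_eq_neg_two_iff (p := p) (by omega)).2 (Or.inr h3)
  obtain ⟨x, y, k, k0, k2, hk⟩ := thue_form 2 p (by norm_num) z (by rw [← hz]; norm_cast)
  have hrep : ∃ x y : ℕ, x ^ 2 + 2 * y ^ 2 = p := by
    have : k = 1 ∨ k = 2 := by omega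
    rcases this with rfl | rfl
    · exact ⟨x, y, by omega⟩
    · obtain ⟨x', rfl⟩ := even_of_sq (x := x) (by omega)
      have : (2 * x') ^ 2 = 4 * x' ^ 2 := by ring
      exact ⟨y, x', by omega⟩
  obtain ⟨x, y, hxy⟩ := hrep
  have m1 := sq_mod_eight x
  have m2 := sq_mod_eight y
  exact ⟨x, y, odd_of_sq (by omega), odd_of_sq (by omega), hxy⟩

theorem neg_three_sq {p : ℕ} [hp : Fact p.Prime] (h : p % 3 = 1) : ∃ z : ZMod p, z * z = -3 := by
  have h1 : 3 ∣ Fintype.card (ZMod p)ˣ := by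
    rw [ZMod.card_units]
    have := hp.out.two_le
    omega
  have : Fact (Nat.Prime 3) := ⟨Nat.prime_three⟩
  obtain ⟨u, hu⟩ := exists_prime_orderOf_dvd_card 3 h1
  have h3 : (u : ZMod p) ^ 3 = 1 := by
    rw [← Units.val_pow_eq_pow_val, ← hu, pow_orderOf_eq_one, Units.val_one]
  have h4 : (u : ZMod p) ≠ 1 := by
    intro h5
    have : u = 1 := Units.ext h5
    rw [this, orderOf_one] at hu
    omega
  have h5 : (u : ZMod p) ^ 2 + u + 1 = 0 := by
    have : ((u : ZMod p) - 1) * ((u : ZMod p) ^ 2 + u + 1) = 0 := by linear_combination h3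
    rcases mul_eq_zero.1 this with h | h
    · exact absurd (sub_eq_zero.1 h) h4
    · exact h
  exact ⟨2 * u + 1, by linear_combination 4 * h5⟩

theorem neg_three_not_sq {r : ℕ} [hr : Fact r.Prime] (h : r % 3 = 2) (h2 : r ≠ 2) (z : ZMod r) :
    z * z ≠ -3 := by
  intro hz
  have two : (2 : ZMod r) ≠ 0 := by
    intro h0
    have h1 : ((2 : ℕ) : ZMod r) = 0 := by exact_mod_cast h0
    rw [ZMod.natCast_eq_zero_iff] at h1
    have := (Nat.prime_dvd_prime_iff_eq hr.out Nat.prime_two).1 h1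
    exact h2 this
  have three : (3 : ZMod r) ≠ 0 := by
    intro h0
    have h1 : ((3 : ℕ) : ZMod r) = 0 := by exact_mod_cast h0
    rw [ZMod.natCast_eq_zero_iff] at h1
    have := (Nat.prime_dvd_prime_iff_eq hr.out Nat.prime_three).1 h1
    omega
  set w : ZMod r := (z - 1) / 2 with hw
  have h1 : w ^ 2 + w + 1 = 0 := by
    rw [hw]
    field_simp
    linear_combination hz
  have h3 : w ^ 3 = 1 := by linear_combination (w - 1) * h1
  have hw1 : w ≠ 1 := by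
    intro h0
    rw [h0] at h1
    apply three
    linear_combination h1
  have hw0 : w ≠ 0 := by
    intro h0
    rw [h0] at h3
    simp at h3
  have : Fact (Nat.Prime 3) := ⟨Nat.prime_three⟩
  have ho : orderOf w = 3 := orderOf_eq_prime h3 hw1
  have hd := ZMod.orderOf_dvd_card_sub_one hw0
  rw [ho] at hd
  have := hr.out.two_le
  omega

theorem rep_three {p : ℕ} (hp : p.Prime) (h3 : p % 3 = 1) : ∃ x y : ℕ, x ^ 2 + 3 * y ^ 2 = p := by
  have : Fact p.Prime := ⟨hp⟩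
  have hodd : p % 2 = 1 := by
    rcases hp.eq_two_or_odd with h | h
    · omega
    · exact h
  obtain ⟨z, hz⟩ := neg_three_sq (p := p) h3
  obtain ⟨x, y, k, k0, k2, hk⟩ := thue_form 3 p (by norm_num) z (by rw [hz]; norm_cast)
  have : k = 1 ∨ k = 2 ∨ k = 3 := by omega
  rcases this with rfl | rfl | rfl
  · exact ⟨x, y, by omega⟩
  · exfalso
    have m1 := sq_mod_four x
    have m2 := sq_mod_four y
    omega
  · have hx3 : x % 3 = 0 := by
      have h4 : x % 3 = 0 ∨ x % 3 = 1 ∨ x % 3 = 2 := by omega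
      have h5 : x ^ 2 % 3 = 0 := by omega
      rcases h4 with h | h | h
      · exact h
      · rw [Nat.pow_mod, h] at h5; norm_num at h5
      · rw [Nat.pow_mod, h] at h5; norm_num at h5
    obtain ⟨x', rfl⟩ : ∃ x', x = 3 * x' := ⟨x / 3, by omega⟩
    have : (3 * x') ^ 2 = 9 * x' ^ 2 := by ring
    exact ⟨y, x', by omega⟩

theorem sq_dvdD {D r n x y : ℕ} (hr : r.Prime) (hD : ∀ z : ZMod r, z * z ≠ -(D : ZMod r))
    (h : x ^ 2 + D * y ^ 2 = n) (hd : r ∣ n) : r ^ 2 ∣ n := by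
  have : Fact r.Prime := ⟨hr⟩
  have h0 : ((x : ZMod r)) ^ 2 + D * (y : ZMod r) ^ 2 = 0 := by
    have := (ZMod.natCast_eq_zero_iff n r).2 hd
    rw [← h] at this
    push_cast at this
    exact this
  have hy : (y : ZMod r) = 0 := by
    by_contra hy
    apply hD ((x : ZMod r) / y)
    field_simp
    linear_combination h0
  have hx : (x : ZMod r) = 0 := by
    rw [hy] at h0
    simpa using h0
  rw [ZMod.natCast_eq_zero_iff] at hx hy
  rw [← h]
  exact dvd_add (pow_dvd_pow_of_dvd hx 2) (Dvd.dvd.mul_left (pow_dvd_pow_of_dvd hy 2) _)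

end Pool.Agent.R836.PP
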