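import Pool.Agent.R836.PP.Good
import Pool.Agent.R836.PP.Forms

set_option autoImplicit false

/-! The powers 7, 9 and 13. -/

namespace Pool.Agent.R836.PP

open PowerSeries Finset
open Pool.Agent.H397R2.PP Pool.Agent.H397R2.PP.TH

theorem inert_two {r : ℕ} (hr : r.Prime) (h : r % 8 = 5) (z : ZMod r) :
    z * z ≠ -((2 : ℕ) : ZMod r) := by
  have : Fact r.Prime := ⟨hr⟩
  intro hz
  have := (ZMod.exists_sq_eq_neg_two_iff (p := r) (by omega)).1 ⟨z, by rw [hz]; norm_cast⟩
  omega

theorem inert_three {r N : ℕ} (hr : r.Prime) (h : r % 3 = 2) (hd : r ∣ N) (hN : N % 2 = 1)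
    (z : ZMod r) : z * z ≠ -((3 : ℕ) : ZMod r) := by
  have : Fact r.Prime := ⟨hr⟩
  have h2 : r ≠ 2 := by
    rintro rfl
    omega
  have := neg_three_not_sq h h2 z
  exact_mod_cast this

theorem good_9 : GoodS 9 := by
  have hG : pentagonalSeries (ZMod 2) ^ 9 =
      ind isTri * ind (fun b => ∃ k, b = 2 * k ∧ isTri k) := by
    rw [pent_eq, ← expand_ind isTri 2 (by norm_num), ← pow_eq_expand' 2 1 (by norm_num) (by norm_num),
      psi_eq]
    ring
  refine ⟨8, 5, 8, 3, by norm_num, by norm_num, by norm_num, Or.inl rfl, by norm_num, by norm_num,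
    ?_, ?_⟩
  · intro n hp
    rw [hG]
    apply theta_coeff_one isTri isTri 8 8 8 1 2 2 n (by norm_num) tri_iff tri_iff (by norm_num)
      (by norm_num) (by norm_num)
    · obtain ⟨x, u, hx, hu, hxu⟩ := rep_two hp (by omega)
      obtain ⟨a, ha⟩ := sq8_of_odd hx
      obtain ⟨k, hk⟩ := sq8_of_odd hu
      exact ⟨x, u, a, k, ha, hk, by omega⟩
    · intro x y a k x' y' a' k' h1 h2 h3 h4 h5 h6
      have hx := odd_of_sq8 h1
      have hx' := odd_of_sq8 h4
      exact (uniqD 2 le_rfl hp (x := x) (y := y) (z := x') (w := y') (by omega) (by omega)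
        (by omega) (by omega)).1
  · intro n r hr hr3 hd hd2
    rw [hG]
    apply theta_coeff_zero isTri isTri 8 8 8 1 2 2 n tri_iff tri_iff (by norm_num) (by norm_num)
    intro x y hxy
    apply hd2
    exact sq_dvdD hr (inert_two hr hr3) (x := x) (y := y) (by omega) hd

theorem good_7 : GoodS 7 := by
  have hG : pentagonalSeries (ZMod 2) ^ 7 =
      ind isTri * ind (fun b => ∃ k, b = 4 * k ∧ isPent k) := by
    rw [pent_eq, ← expand_ind isPent 4 (by norm_num), ← pow_eq_expand' 4 2 (by norm_num) (by norm_num),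
      psi_eq]
    ring
  refine ⟨3, 2, 24, 7, by norm_num, by norm_num, by norm_num, Or.inr rfl, by norm_num, by norm_num,
    ?_, ?_⟩
  · intro n hp
    rw [hG]
    apply theta_coeff_one isTri isPent 8 24 24 3 4 4 n (by norm_num) tri_iff pent_iff (by norm_num)
      (by norm_num) (by norm_num)
    · obtain ⟨x, y, hxy⟩ := rep_three hp (by omega)
      have m1 := sq_mod_eight x
      have m2 := sq_mod_eight y
      have m3 := sq_mod_three x
      obtain ⟨u, rfl⟩ := even_of_sq (x := x) (by omega)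
      have e1 : (2 * u) ^ 2 = 4 * u ^ 2 := by ring
      have hy : y % 2 = 1 := odd_of_sq (by omega)
      have m4 := sq_mod_three u
      have m5 := sq_mod_eight u
      obtain ⟨a, ha⟩ := sq8_of_odd hy
      obtain ⟨k, hk⟩ := sq24_of_odd (odd_of_sq (x := u) (by omega)) (by omega)
      exact ⟨y, u, a, k, ha, hk, by omega⟩
    · intro x y a k x' y' a' k' h1 h2 h3 h4 h5 h6
      have e1 : (2 * y) ^ 2 = 4 * y ^ 2 := by ring
      have e2 : (2 * y') ^ 2 = 4 * y' ^ 2 := by ring
      have hy : y % 2 = 1 := odd_of_sq8 (a := 3 * k) (by omega)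
      have hy' : y' % 2 = 1 := odd_of_sq8 (a := 3 * k') (by omega)
      exact (uniqD 3 (by norm_num) hp (x := 2 * y) (y := x) (z := 2 * y') (w := x') (by omega)
        (by omega) (by omega) (by omega)).2
  · intro n r hr hr3 hd hd2
    rw [hG]
    apply theta_coeff_zero isTri isPent 8 24 24 3 4 4 n tri_iff pent_iff (by norm_num) (by norm_num)
    intro x y hxy
    apply hd2
    have e1 : (2 * y) ^ 2 = 4 * y ^ 2 := by ring
    exact sq_dvdD hr (inert_three hr hr3 hd (by omega)) (x := 2 * y) (y := x) (by omega) hd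

theorem good_13 : GoodS 13 := by
  have hG : pentagonalSeries (ZMod 2) ^ 13 =
      ind isPent * ind (fun b => ∃ k, b = 4 * k ∧ isTri k) := by
    rw [pent_eq, ← expand_ind isTri 4 (by norm_num), ← pow_eq_expand' 4 2 (by norm_num) (by norm_num),
      psi_eq]
    ring
  refine ⟨3, 2, 24, 13, by norm_num, by norm_num, by norm_num, Or.inr rfl, by norm_num, by norm_num,
    ?_, ?_⟩
  · intro n hp
    rw [hG]
    apply theta_coeff_one isPent isTri 24 8 24 1 12 4 n (by norm_num) pent_iff tri_iff (by norm_num)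
      (by norm_num) (by norm_num)
    · obtain ⟨x, y, hxy⟩ := rep_three hp (by omega)
      have m1 := sq_mod_eight x
      have m2 := sq_mod_eight y
      have m3 := sq_mod_three x
      obtain ⟨u, rfl⟩ := even_of_sq (x := y) (by omega)
      have e1 : (2 * u) ^ 2 = 4 * u ^ 2 := by ring
      have hx : x % 2 = 1 := odd_of_sq (by omega)
      have m5 := sq_mod_eight u
      obtain ⟨a, ha⟩ := sq24_of_odd hx (by omega)
      obtain ⟨k, hk⟩ := sq8_of_odd (odd_of_sq (x := u) (by omega))
      exact ⟨x, u, a, k, ha, hk, by omega⟩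
    · intro x y a k x' y' a' k' h1 h2 h3 h4 h5 h6
      have e1 : (2 * y) ^ 2 = 4 * y ^ 2 := by ring
      have e2 : (2 * y') ^ 2 = 4 * y' ^ 2 := by ring
      have hx : x % 2 = 1 := odd_of_sq8 (a := 3 * a) (by omega)
      have hx' : x' % 2 = 1 := odd_of_sq8 (a := 3 * a') (by omega)
      exact (uniqD 3 (by norm_num) hp (x := x) (y := 2 * y) (z := x') (w := 2 * y') (by omega)
        (by omega) (by omega) (by omega)).1
  · intro n r hr hr3 hd hd2
    rw [hG]
    apply theta_coeff_zero isPent isTri 24 8 24 1 12 4 n pent_iff tri_iff (by norm_num) (by norm_num)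
    intro x y hxy
    apply hd2
    have e1 : (2 * y) ^ 2 = 4 * y ^ 2 := by ring
    exact sq_dvdD hr (inert_three hr hr3 hd (by omega)) (x := x) (y := 2 * y) (by omega) hd

end Pool.Agent.R836.PP
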