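import Pool.Agent.H771R2.Dens
import Pool.Agent.R836.PP.DistB

set_option autoImplicit false

/-! The coefficients vanish on a set of density one. -/

namespace Pool.Agent.R836.PP

open PowerSeries Finset
open Pool.Agent.H771R2.Dens

open Classical in
theorem dens_exact (q : ℕ) [NeZero q] (a : ZMod q) (ha : IsUnit a) (ε : ℝ) (hε : 0 < ε) :
    ∃ X0 : ℕ, ∀ X : ℕ, X0 ≤ X → (((range X).filter fun n => ∀ r : ℕ, r.Prime →
      (r : ZMod q) = a → ¬ (r ∣ n ∧ ¬ r ^ 2 ∣ n)).card : ℝ) ≤ ε * X := by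
  obtain ⟨F, hF, hFε⟩ := exists_exp_small (big_ap ha) (ε := ε / 2) (by positivity)
  have hB : Per (fun n => ∀ r ∈ F, ¬ (r ∣ n ∧ ¬ r ^ 2 ∣ n)) (∏ r ∈ F, r ^ 2)
      (∏ r ∈ F, Real.exp (-(1 / (2 * (r : ℝ))))) :=
    Per.forall F (fun r n => ¬ (r ∣ n ∧ ¬ r ^ 2 ∣ n)) (fun r => r ^ 2) _
      (fun r hr => per_exact (hF r hr).1) (fun r _ => (Real.exp_pos _).le)
      (fun r hr r' hr' h => ((Nat.coprime_primes (hF r hr).1 (hF r' hr').1).2 h).pow 2 2)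
  have hB' : (∏ r ∈ F, Real.exp (-(1 / (2 * (r : ℝ))))) ≤ ε / 2 := by
    refine le_trans (le_of_eq ?_) hFε
    rw [← Real.exp_sum]
    congr 1
    rw [neg_div, sum_div, sum_neg_distrib]
    congr 1
    refine sum_congr rfl fun r _ => ?_
    rw [div_div, mul_comm]
  obtain ⟨X0, hX0⟩ := exists_nat_ge (2 * ((∏ r ∈ F, r ^ 2 : ℕ) : ℝ) / ε)
  refine ⟨X0, fun X hX => ?_⟩
  have h1 := hB.count X
  have h2 : (((range X).filter fun n => ∀ r : ℕ, r.Prime →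
      (r : ZMod q) = a → ¬ (r ∣ n ∧ ¬ r ^ 2 ∣ n)).card : ℝ) ≤
      (cnt (fun n => ∀ r ∈ F, ¬ (r ∣ n ∧ ¬ r ^ 2 ∣ n)) X : ℝ) := by
    have : ((range X).filter fun n => ∀ r : ℕ, r.Prime →
        (r : ZMod q) = a → ¬ (r ∣ n ∧ ¬ r ^ 2 ∣ n)).card ≤
        cnt (fun n => ∀ r ∈ F, ¬ (r ∣ n ∧ ¬ r ^ 2 ∣ n)) X := by
      unfold cnt
      apply card_le_card
      intro n hn
      simp only [mem_filter, mem_range] at hn ⊢
      exact ⟨hn.1, fun r hr => hn.2 r (hF r hr).1 (hF r hr).2⟩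
    exact_mod_cast this
  have h3 : 2 * ((∏ r ∈ F, r ^ 2 : ℕ) : ℝ) / ε ≤ X := hX0.trans (by exact_mod_cast hX)
  rw [div_le_iff₀ hε] at h3
  have h4 : (∏ r ∈ F, Real.exp (-(1 / (2 * (r : ℝ))))) * X ≤ ε / 2 * X :=
    mul_le_mul_of_nonneg_right hB' (by positivity)
  linarith

theorem exists_primes_card (H : ℕ) : ∃ R0 : Finset ℕ, R0.card = H ∧
    ∀ p ∈ R0, p.Prime ∧ p % 8 = 3 := by
  have hinf : {p : ℕ | p.Prime ∧ p % 8 = 3}.Infinite := by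
    rw [Set.infinite_iff_exists_gt]
    intro n
    obtain ⟨p, h1, h2, h3⟩ := Nat.forall_exists_prime_gt_and_modEq n (q := 8) (a := 3)
      (by norm_num) (by norm_num)
    exact ⟨p, ⟨h2, h3⟩, h1⟩
  obtain ⟨R0, h1, h2⟩ := hinf.exists_subset_card_eq H
  exact ⟨R0, h2, fun p hp => h1 hp⟩

open Classical in
theorem lac (H : ℕ) (Φ : (ZMod 2)⟦X⟧) (hV : Vanish H Φ) (ε : ℝ) (hε : 0 < ε) :
    ∃ X0 : ℕ, ∀ X : ℕ, X0 ≤ X →
      (((range X).filter fun N => coeff N Φ ≠ 0).card : ℝ) ≤ ε * X := by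
  obtain ⟨R0, hR0, hR0p⟩ := exists_primes_card H
  set s : ℕ := 3 + ∑ p ∈ R0, p with hs
  have hlt : ∀ p ∈ R0, p < 2 ^ s := by
    intro p hp
    have h1 : p ≤ ∑ p ∈ R0, p := single_le_sum (f := fun p => p) (fun _ _ => Nat.zero_le _) hp
    calc p < 2 ^ p := Nat.lt_two_pow_self
      _ ≤ 2 ^ s := Nat.pow_le_pow_right (by norm_num) (by omega)
  have : NeZero (2 ^ s) := ⟨by positivity⟩
  have hunit : ∀ p ∈ R0, IsUnit ((p : ℕ) : ZMod (2 ^ s)) := by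
    intro p hp
    rw [ZMod.isUnit_iff_coprime]
    apply Nat.Coprime.pow_right
    rw [Nat.coprime_comm, Nat.coprime_two_left, Nat.odd_iff]
    have := (hR0p p hp).2
    omega
  have hex : ∀ p ∈ R0, ∃ X0 : ℕ, ∀ X : ℕ, X0 ≤ X → (((range X).filter fun n => ∀ r : ℕ, r.Prime →
      (r : ZMod (2 ^ s)) = (p : ZMod (2 ^ s)) → ¬ (r ∣ n ∧ ¬ r ^ 2 ∣ n)).card : ℝ) ≤
        (ε / (H + 1)) * X :=
    fun p hp => dens_exact (2 ^ s) _ (hunit p hp) _ (by positivity)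
  choose! X0 hX0 using hex
  refine ⟨∑ p ∈ R0, X0 p, fun X hX => ?_⟩
  have hsub : ((range X).filter fun N => coeff N Φ ≠ 0) ⊆ R0.biUnion fun p =>
      (range X).filter fun n => ∀ r : ℕ, r.Prime →
        (r : ZMod (2 ^ s)) = (p : ZMod (2 ^ s)) → ¬ (r ∣ n ∧ ¬ r ^ 2 ∣ n) := by
    intro N hN
    rw [mem_filter] at hN
    by_contra hcon
    rw [mem_biUnion] at hcon
    have h1 : ∀ p ∈ R0, ∃ r : ℕ, r.Prime ∧ (r : ZMod (2 ^ s)) = (p : ZMod (2 ^ s)) ∧ r ∣ N ∧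
        ¬ r ^ 2 ∣ N := by
      intro p hp
      by_contra h3
      apply hcon
      refine ⟨p, hp, ?_⟩
      rw [mem_filter]
      exact ⟨hN.1, fun r hr hrp h4 => h3 ⟨r, hr, hrp, h4.1, h4.2⟩⟩
    choose! g hg using h1
    apply hN.2
    apply hV N (R0.image g)
    · rw [card_image_of_injOn, hR0]
      intro p hp p' hp' heq
      rw [mem_coe] at hp hp'
      have e1 := (hg p hp).2.1
      have e2 := (hg p' hp').2.1
      rw [heq, e2, ZMod.natCast_eq_natCast_iff] at e1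
      exact (Nat.ModEq.eq_of_lt_of_lt e1 (hlt p' hp') (hlt p hp)).symm
    · intro r hr
      rw [mem_image] at hr
      obtain ⟨p, hp, rfl⟩ := hr
      obtain ⟨g1, g2, g3, g4⟩ := hg p hp
      refine ⟨g1, ?_, g3, g4⟩
      rw [ZMod.natCast_eq_natCast_iff] at g2
      have h8 : 8 ∣ 2 ^ s := by
        have : (8 : ℕ) = 2 ^ 3 := by norm_num
        rw [this]
        exact pow_dvd_pow 2 (by omega)
      have h9 : g p ≡ p [MOD 8] := g2.of_dvd h8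
      have h10 : g p % 8 = p % 8 := h9
      rw [h10, (hR0p p hp).2]
  have h1 : (((range X).filter fun N => coeff N Φ ≠ 0).card : ℝ) ≤
      ∑ p ∈ R0, (((range X).filter fun n => ∀ r : ℕ, r.Prime →
        (r : ZMod (2 ^ s)) = (p : ZMod (2 ^ s)) → ¬ (r ∣ n ∧ ¬ r ^ 2 ∣ n)).card : ℝ) := by
    exact_mod_cast (card_le_card hsub).trans card_biUnion_le
  have h2 : ∑ p ∈ R0, (((range X).filter fun n => ∀ r : ℕ, r.Prime →
        (r : ZMod (2 ^ s)) = (p : ZMod (2 ^ s)) → ¬ (r ∣ n ∧ ¬ r ^ 2 ∣ n)).card : ℝ) ≤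
      ∑ p ∈ R0, (ε / (H + 1)) * X := by
    apply sum_le_sum
    intro p hp
    apply hX0 p hp
    exact (single_le_sum (f := X0) (fun _ _ => Nat.zero_le _) hp).trans hX
  rw [sum_const, hR0, nsmul_eq_mul] at h2
  have h3 : (H : ℝ) * (ε / (H + 1) * X) ≤ ε * X := by
    have h4 : (H : ℝ) * (ε / (H + 1)) ≤ ε := by
      rw [← mul_div_assoc, div_le_iff₀ (by positivity)]
      nlinarith
    calc (H : ℝ) * (ε / (H + 1) * X) = (H : ℝ) * (ε / (H + 1)) * X := by ring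
      _ ≤ ε * X := mul_le_mul_of_nonneg_right h4 (by positivity)
  linarith

end Pool.Agent.R836.PP
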