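import Pool.Agent.TH423.SH.PAIP

set_option autoImplicit false

/-! Sums of reciprocals of primes in residue classes over dyadic ranges. -/

namespace Pool.Agent.R836.PP

open Finset

theorem block (Q : ℕ) (hQ : 0 < Q) (u : ℕ) (hu : u.Coprime Q) : ∃ c : ℝ, 0 < c ∧ ∃ Y0 : ℕ,
    ∀ Y : ℕ, Y0 ≤ Y → c / Real.log Y ≤
      ∑ q ∈ (Ioc Y (2 * Y)).filter (fun q => q.Prime ∧ q % Q = u % Q), (1 : ℝ) / q := by
  obtain ⟨x0, hx0⟩ := Pool.Agent.TH423.SH.pai Q hQ (1 / 2) 1 (by norm_num) one_pos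
  have hφ : (0 : ℝ) < (Nat.totient Q : ℝ) := by exact_mod_cast Nat.totient_pos.2 hQ
  obtain ⟨Y1, hY1⟩ := exists_nat_ge x0
  refine ⟨1 / (4 * Nat.totient Q), by positivity, max Y1 3, fun Y hY => ?_⟩
  have hY3 : 3 ≤ Y := le_trans (le_max_right _ _) hY
  have hYr : (3 : ℝ) ≤ Y := by exact_mod_cast hY3
  have hlog : 0 < Real.log Y := Real.log_pos (by linarith)
  have h := hx0 Y (hY1.trans (by exact_mod_cast le_trans (le_max_left _ _) hY)) Y (2 * Y) u
    (by linarith) (by push_cast; linarith) (by push_cast; linarith) hu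
  set N := ((Ioc Y (2 * Y)).filter (fun q => q.Prime ∧ q % Q = u % Q)) with hN
  have e1 : (((2 * Y : ℕ) : ℝ) - Y) = Y := by push_cast; ring
  rw [e1, abs_le] at h
  have h1 : (Y : ℝ) / (Nat.totient Q * Real.log Y) / 2 ≤ (N.card : ℝ) := by linarith [h.1]
  have h2 : ∀ q ∈ N, (1 : ℝ) / (2 * Y) ≤ 1 / q := by
    intro q hq
    rw [hN, mem_filter, mem_Ioc] at hq
    have hq1 : (q : ℝ) ≤ 2 * Y := by exact_mod_cast hq.1.2
    have hq0 : (0 : ℝ) < q := by
      have : 0 < q := by omega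
      exact_mod_cast this
    exact one_div_le_one_div_of_le hq0 hq1
  calc 1 / (4 * (Nat.totient Q : ℝ)) / Real.log Y
      = ((Y : ℝ) / (Nat.totient Q * Real.log Y) / 2) * (1 / (2 * Y)) := by
        field_simp
        norm_num
    _ ≤ (N.card : ℝ) * (1 / (2 * Y)) := mul_le_mul_of_nonneg_right h1 (by positivity)
    _ = ∑ q ∈ N, (1 : ℝ) / (2 * Y) := by rw [sum_const, nsmul_eq_mul]
    _ ≤ ∑ q ∈ N, (1 : ℝ) / q := sum_le_sum h2

theorem range_sum (Q : ℕ) (hQ : 0 < Q) (u : ℕ) (hu : u.Coprime Q) : ∃ c : ℝ, 0 < c ∧ ∃ i0 : ℕ,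
    1 ≤ i0 ∧ ∀ i i' : ℕ, i0 ≤ i → i ≤ i' → c * (Real.log i' - Real.log i) ≤
      ∑ q ∈ (Ioc (2 ^ i) (2 ^ i')).filter (fun q => q.Prime ∧ q % Q = u % Q), (1 : ℝ) / q := by
  obtain ⟨c, hc, Y0, hY0⟩ := block Q hQ u hu
  refine ⟨c, hc, Y0 + 1, by omega, fun i i' hi hii' => ?_⟩
  induction i', hii' using Nat.le_induction with
  | base => simp
  | succ k hk ih =>
    have hk1 : 1 ≤ k := by omega
    have hkr : (1 : ℝ) ≤ k := by exact_mod_cast hk1
    have h2k : k < 2 ^ k := Nat.lt_two_pow_self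
    have h1 := hY0 (2 ^ k) (by omega)
    have hlog2 : Real.log ((2 ^ k : ℕ) : ℝ) = k * Real.log 2 := by
      push_cast
      rw [Real.log_pow]
    rw [hlog2] at h1
    have hl2 : Real.log 2 < 1 := by
      have := Real.log_two_lt_d9
      linarith
    have hl2' : 0 < Real.log 2 := Real.log_pos (by norm_num)
    have h2 : c * (Real.log ((k + 1 : ℕ) : ℝ) - Real.log k) ≤ c / (k * Real.log 2) := by
      have h3 : Real.log ((k + 1 : ℕ) : ℝ) - Real.log k ≤ 1 / k := by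
        rw [← Real.log_div (by positivity) (by positivity)]
        have h4 : (((k + 1 : ℕ) : ℝ)) / k = 1 + 1 / k := by
          push_cast
          field_simp
        rw [h4]
        have := Real.log_le_sub_one_of_pos (show (0 : ℝ) < 1 + 1 / k by positivity)
        linarith
      have h5 : (1 : ℝ) / k ≤ 1 / (k * Real.log 2) := by
        apply one_div_le_one_div_of_le (by positivity)
        nlinarith
      calc c * (Real.log ((k + 1 : ℕ) : ℝ) - Real.log k) ≤ c * (1 / (k * Real.log 2)) :=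
            mul_le_mul_of_nonneg_left (h3.trans h5) hc.le
        _ = c / (k * Real.log 2) := by ring
    have hdisj : Disjoint ((Ioc (2 ^ i) (2 ^ k)).filter (fun q => q.Prime ∧ q % Q = u % Q))
        ((Ioc (2 ^ k) (2 * 2 ^ k)).filter (fun q => q.Prime ∧ q % Q = u % Q)) := by
      rw [Finset.disjoint_left]
      intro q h3 h4
      rw [mem_filter, mem_Ioc] at h3 h4
      omega
    have hsub : ((Ioc (2 ^ i) (2 ^ k)).filter (fun q => q.Prime ∧ q % Q = u % Q)) ∪
        ((Ioc (2 ^ k) (2 * 2 ^ k)).filter (fun q => q.Prime ∧ q % Q = u % Q)) ⊆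
        (Ioc (2 ^ i) (2 ^ (k + 1))).filter (fun q => q.Prime ∧ q % Q = u % Q) := by
      have hpow : 2 ^ i ≤ 2 ^ k := Nat.pow_le_pow_right (by norm_num) hk
      have hpow' : 2 ^ (k + 1) = 2 * 2 ^ k := by ring
      intro q hq
      rw [mem_union, mem_filter, mem_filter, mem_Ioc, mem_Ioc] at hq
      rw [mem_filter, mem_Ioc, hpow']
      rcases hq with ⟨h3, h4⟩ | ⟨h3, h4⟩
      · exact ⟨by omega, h4⟩
      · exact ⟨by omega, h4⟩
    calc c * (Real.log ((k + 1 : ℕ) : ℝ) - Real.log i)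
        = c * (Real.log k - Real.log i) + c * (Real.log ((k + 1 : ℕ) : ℝ) - Real.log k) := by ring
      _ ≤ _ := add_le_add ih (h2.trans h1)
      _ = ∑ q ∈ ((Ioc (2 ^ i) (2 ^ k)).filter (fun q => q.Prime ∧ q % Q = u % Q)) ∪
        ((Ioc (2 ^ k) (2 * 2 ^ k)).filter (fun q => q.Prime ∧ q % Q = u % Q)), (1 : ℝ) / q :=
          (sum_union hdisj).symm
      _ ≤ _ := sum_le_sum_of_subset_of_nonneg hsub (fun q _ _ => by positivity)

end Pool.Agent.R836.PP
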