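import Pool.Agent.R836.PP.FinB
import Pool.Agent.H413R3.Part.Pt

set_option autoImplicit false

/-!
# Counting the parity changes of the multipartition functions (MP_a3366f_nt)

Let `t` be odd. For every `h ≥ 1` and every `K`, for all large `x`, at least
`√x (log log x) ^ K / log x` of the `n ≤ x` satisfy: `p_t n` is even and `p_t (n + h)` is odd; and at
least as many satisfy: `p_t n` is odd and `p_t (n + h)` is even.

Method. By the counting theorem for linear patterns (see the hand-in `PatternCounts`; it is proved
in `Pool.Agent.R836.PP`) the sum `p_t n + p_t (n + h)` is odd for at least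
`√x (log log x) ^ (K + 1) / log x` of the `n ≤ x`. The numbers of the changes in the two directions up
to `x` differ by at most `h`.
-/

namespace Pool.Agent.R836.PP.ParityChangesT

open Pool.Agent.R836.PP PowerSeries

/-- the number of `t`-multipartitions of `n`: the coefficient of `q ^ n` in `∏ 1 / (1 - q ^ i) ^ t` -/
def multipartitions (t n : ℕ) : ℕ :=
  ∑ x ∈ Finset.Nat.antidiagonalTuple t n, ∏ i, Fintype.card (Nat.Partition (x i))

theorem result (t : ℕ) (ht : Odd t) (h : ℕ) (hh : 0 < h) (K : ℕ) :
    ∃ x0 : ℕ, ∀ x : ℕ, x0 ≤ x →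
      √x * Real.log (Real.log x) ^ K / Real.log x ≤
        (((Finset.range (x + 1)).filter fun n =>
          Even (multipartitions t n) ∧ Odd (multipartitions t (n + h))).card : ℝ) ∧
      √x * Real.log (Real.log x) ^ K / Real.log x ≤
        (((Finset.range (x + 1)).filter fun n =>
          Odd (multipartitions t n) ∧ Even (multipartitions t (n + h))).card : ℝ) := by
  obtain ⟨X0, hX0⟩ := transitions_all t (Nat.odd_iff.1 ht) h hh K
  refine ⟨X0, fun x hx => ?_⟩
  have h1 := hX0 x hx
  simp only [Pool.Agent.H413R3.Part.coeff_pow_eq, ZMod.natCast_eq_zero_iff_even,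
    ZMod.natCast_eq_one_iff_odd] at h1
  exact h1

end Pool.Agent.R836.PP.ParityChangesT
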