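import Pool.Agent.Cov.PNT

set_option autoImplicit false

/-! Lower bound for the number of primes in an arithmetic progression. -/

namespace Pool.Agent.R836.PP

open Finset Filter Topology ArithmeticFunction

theorem primes_AP (q : ℕ) (hq : 0 < q) (a : ℕ) (ha : a.Coprime q) :
    ∃ δ : ℝ, 0 < δ ∧ ∃ X0 : ℕ, ∀ X : ℕ, X0 ≤ X → δ * X / Real.log X ≤
      (((Icc 1 X).filter (fun p => p.Prime ∧ p % q = a % q)).card : ℝ) := by
  classical
  have : NeZero q := ⟨hq.ne'⟩
  have hu : IsUnit (a : ZMod q) := (ZMod.isUnit_iff_coprime a q).2 ha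
  have h := (Pool.Agent.Cov.PNT.pnt_residueClass hu).comp (tendsto_natCast_atTop_atTop (R := ℝ))
  have hφ : (0 : ℝ) < (q.totient : ℝ)⁻¹ := by
    have := Nat.totient_pos.2 hq
    positivity
  set φ := (q.totient : ℝ)⁻¹ with hφd
  have h1 := h.eventually_const_lt (show φ / 2 < φ by linarith)
  obtain ⟨C, hC⟩ := Chebyshev.psi_sub_theta_le_mul_sqrt
  have hs : Tendsto (fun n : ℕ => Real.sqrt (n : ℝ)) atTop atTop :=
    Real.tendsto_sqrt_atTop.comp tendsto_natCast_atTop_atTop
  have h2 := hs.eventually_ge_atTop (4 * |C| / φ)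
  have h3 := (h1.and h2).and (eventually_ge_atTop 3)
  obtain ⟨X0, hX0⟩ := eventually_atTop.1 h3
  refine ⟨φ / 4, by positivity, X0, fun X hX => ?_⟩
  obtain ⟨⟨h4, h5⟩, h6⟩ := hX0 X hX
  have hXpos : (0 : ℝ) < X := by
    have : 0 < X := by omega
    exact_mod_cast this
  have hlog : 0 < Real.log X := by
    apply Real.log_pos
    have : (1 : ℕ) < X := by omega
    exact_mod_cast this
  simp only [Function.comp, Nat.floor_natCast] at h4
  rw [lt_div_iff₀ hXpos] at h4
  -- the termwise inequality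
  have key : ∑ k ∈ Icc 1 X, vonMangoldt.residueClass (a : ZMod q) k ≤
      ∑ k ∈ Icc 1 X, (if k.Prime ∧ k % q = a % q then Real.log k else 0) +
      (Chebyshev.psi X - Chebyshev.theta X) := by
    have e1 : Chebyshev.psi X - Chebyshev.theta X =
        ∑ k ∈ Icc 1 X, (vonMangoldt k - if k.Prime then Real.log k else 0) := by
      unfold Chebyshev.psi Chebyshev.theta
      rw [Nat.floor_natCast, sum_sub_distrib, ← sum_filter]
      rfl
    rw [e1, ← sum_add_distrib]
    refine sum_le_sum fun k _ => ?_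
    have hcl : ((k : ZMod q) = (a : ZMod q)) ↔ k % q = a % q :=
      ZMod.natCast_eq_natCast_iff' k a q
    have hrest : 0 ≤ (vonMangoldt k - if k.Prime then Real.log k else 0 : ℝ) := by
      split_ifs with hp
      · rw [vonMangoldt_apply_prime hp]; simp
      · simp [vonMangoldt_nonneg]
    by_cases hk : k % q = a % q
    · have e0 : vonMangoldt.residueClass (a : ZMod q) k = vonMangoldt k :=
        Set.indicator_of_mem (s := {n : ℕ | (n : ZMod q) = (a : ZMod q)}) (hcl.2 hk) _
      rw [e0]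
      by_cases hp : k.Prime
      · rw [if_pos ⟨hp, hk⟩, if_pos hp]; linarith
      · rw [if_neg (fun h => hp h.1), if_neg hp]; linarith
    · have e0 : vonMangoldt.residueClass (a : ZMod q) k = 0 :=
        Set.indicator_of_notMem (s := {n : ℕ | (n : ZMod q) = (a : ZMod q)})
          (fun h' => hk (hcl.1 h')) _
      rw [e0, if_neg (fun h => hk h.2)]
      linarith
  have key2 : ∑ k ∈ Icc 1 X, (if k.Prime ∧ k % q = a % q then Real.log k else 0) ≤
      (((Icc 1 X).filter (fun p => p.Prime ∧ p % q = a % q)).card : ℝ) * Real.log X := by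
    rw [← sum_filter, ← nsmul_eq_mul, ← sum_const]
    refine sum_le_sum fun k hk => ?_
    rw [mem_filter, mem_Icc] at hk
    apply Real.log_le_log
    · exact_mod_cast hk.1.1
    · exact_mod_cast hk.1.2
  have h7 := hC X
  have h8 : C * Real.sqrt X ≤ φ / 4 * X := by
    have hsq : Real.sqrt (X : ℝ) * Real.sqrt X = X := Real.mul_self_sqrt hXpos.le
    have hs0 : 0 ≤ Real.sqrt (X : ℝ) := Real.sqrt_nonneg _
    rw [div_le_iff₀ hφ] at h5
    calc C * Real.sqrt X ≤ |C| * Real.sqrt X := mul_le_mul_of_nonneg_right (le_abs_self C) hs0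
      _ ≤ (Real.sqrt X * φ / 4) * Real.sqrt X := by
        apply mul_le_mul_of_nonneg_right _ hs0
        linarith
      _ = φ / 4 * (Real.sqrt X * Real.sqrt X) := by ring
      _ = φ / 4 * X := by rw [hsq]
  rw [div_le_iff₀ hlog]
  linarith

end Pool.Agent.R836.PP
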