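import Mathlib

set_option autoImplicit false

/-! Representations by two squares with an odd and an even term. -/

namespace Pool.Agent.R836.PP

theorem two_sq_unique {p x y z w : ℕ} (hp : p.Prime) (h1 : x ^ 2 + y ^ 2 = p)
    (h2 : z ^ 2 + w ^ 2 = p) (hx : x % 2 = 1) (hz : z % 2 = 1) (hy : y % 2 = 0)
    (hw : w % 2 = 0) : x = z ∧ y = w := by
  have hpZ : Prime (p : ℤ) := Nat.prime_iff_prime_int.1 hp
  have h1' : (x : ℤ) ^ 2 + (y : ℤ) ^ 2 = p := by exact_mod_cast h1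
  have h2' : (z : ℤ) ^ 2 + (w : ℤ) ^ 2 = p := by exact_mod_cast h2
  have hp0 : (0 : ℤ) < p := by exact_mod_cast hp.pos
  have hx0 : (0 : ℤ) < x := by
    have : 0 < x := by omega
    exact_mod_cast this
  have hz0 : (0 : ℤ) < z := by
    have : 0 < z := by omega
    exact_mod_cast this
  have hy0 : (0 : ℤ) ≤ y := by positivity
  have hw0 : (0 : ℤ) ≤ w := by positivity
  have hd : (p : ℤ) ∣ ((x : ℤ) * z - y * w) * (x * z + y * w) := by
    refine ⟨(x : ℤ) ^ 2 - w ^ 2, ?_⟩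
    calc ((x : ℤ) * z - y * w) * (x * z + y * w)
        = (x : ℤ) ^ 2 * (z ^ 2 + w ^ 2) - w ^ 2 * (x ^ 2 + y ^ 2) := by ring
      _ = p * ((x : ℤ) ^ 2 - w ^ 2) := by rw [h1', h2']; ring
  have small : ∀ k : ℤ, (p : ℤ) ^ 2 * k ^ 2 ≤ p ^ 2 → k ^ 2 ≤ 1 := by
    intro k hk
    have : (0 : ℤ) < (p : ℤ) ^ 2 := by positivity
    nlinarith
  rcases hpZ.dvd_or_dvd hd with h | h
  · exfalso
    obtain ⟨k, hk⟩ := h
    have e1 : ((x : ℤ) * z - y * w) ^ 2 + (x * w + y * z) ^ 2 = (p : ℤ) ^ 2 := by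
      calc ((x : ℤ) * z - y * w) ^ 2 + (x * w + y * z) ^ 2
          = ((x : ℤ) ^ 2 + y ^ 2) * (z ^ 2 + w ^ 2) := by ring
        _ = (p : ℤ) ^ 2 := by rw [h1', h2']; ring
    have hk2 : k ^ 2 ≤ 1 := by
      apply small
      have : ((x : ℤ) * z - y * w) ^ 2 = p ^ 2 * k ^ 2 := by rw [hk]; ring
      nlinarith [sq_nonneg ((x : ℤ) * w + y * z)]
    have hk3 : -1 ≤ k ∧ k ≤ 1 := ⟨by nlinarith, by nlinarith⟩
    rcases eq_or_ne k 0 with rfl | hk0
    · rw [mul_zero, sub_eq_zero] at hk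
      have hk' : x * z = y * w := by exact_mod_cast hk
      have a1 : (x * z) % 2 = 1 := by rw [Nat.mul_mod, hx, hz]
      have a2 : (y * w) % 2 = 0 := by rw [Nat.mul_mod, hy, hw]
      omega
    · have hk4 : k ^ 2 = 1 := by
        have : 1 ≤ k ^ 2 := by
          have := Int.one_le_abs hk0
          nlinarith [sq_abs k]
        omega
      have e2 : ((x : ℤ) * w + y * z) ^ 2 = 0 := by
        have : ((x : ℤ) * z - y * w) ^ 2 = p ^ 2 * k ^ 2 := by rw [hk]; ring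
        rw [hk4] at this
        linarith
      have e3 : (x : ℤ) * w + y * z = 0 := by
        exact pow_eq_zero_iff (two_ne_zero) |>.1 e2
      have e4 : (y : ℤ) * z = 0 := by nlinarith [mul_nonneg hx0.le hw0, mul_nonneg hy0 hz0.le]
      have e5 : (y : ℤ) = 0 := by
        rcases mul_eq_zero.1 e4 with h | h
        · exact h
        · omega
      have e6 : y = 0 := by exact_mod_cast e5
      rw [e6] at h1
      simp only [ne_eq, OfNat.ofNat_ne_zero, not_false_eq_true, zero_pow, add_zero] at h1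
      exact Nat.Prime.not_prime_pow (le_refl 2) (h1 ▸ hp)
  · obtain ⟨k, hk⟩ := h
    have e1 : ((x : ℤ) * z + y * w) ^ 2 + (x * w - y * z) ^ 2 = (p : ℤ) ^ 2 := by
      calc ((x : ℤ) * z + y * w) ^ 2 + (x * w - y * z) ^ 2
          = ((x : ℤ) ^ 2 + y ^ 2) * (z ^ 2 + w ^ 2) := by ring
        _ = (p : ℤ) ^ 2 := by rw [h1', h2']; ring
    have hk2 : k ^ 2 ≤ 1 := by
      apply small
      have : ((x : ℤ) * z + y * w) ^ 2 = p ^ 2 * k ^ 2 := by rw [hk]; ring
      nlinarith [sq_nonneg ((x : ℤ) * w - y * z)]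
    have hpos : 0 < (x : ℤ) * z + y * w := by
      have := mul_pos hx0 hz0
      have := mul_nonneg hy0 hw0
      linarith
    have hk0 : k ≠ 0 := by
      rintro rfl
      rw [mul_zero] at hk
      omega
    have hk4 : k ^ 2 = 1 := by
      have : 1 ≤ k ^ 2 := by
        have := Int.one_le_abs hk0
        nlinarith [sq_abs k]
      omega
    have e2 : ((x : ℤ) * w - y * z) ^ 2 = 0 := by
      have : ((x : ℤ) * z + y * w) ^ 2 = p ^ 2 * k ^ 2 := by rw [hk]; ring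
      rw [hk4] at this
      linarith
    have e3 : (x : ℤ) * w - y * z = 0 := pow_eq_zero_iff (two_ne_zero) |>.1 e2
    have e4 : (x : ℤ) * w = y * z := by linarith
    have e5 : (x : ℤ) ^ 2 * (p : ℤ) = (z : ℤ) ^ 2 * (p : ℤ) := by
      calc (x : ℤ) ^ 2 * (p : ℤ) = (x : ℤ) ^ 2 * (z : ℤ) ^ 2 + ((x : ℤ) * w) ^ 2 := by
            rw [← h2']; ring
        _ = (z : ℤ) ^ 2 * (p : ℤ) := by rw [e4, ← h1']; ring
    have e6 : (x : ℤ) ^ 2 = z ^ 2 := mul_right_cancel₀ hp0.ne' e5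
    have e7 : (x : ℤ) = z := by nlinarith
    have e8 : (y : ℤ) ^ 2 = w ^ 2 := by rw [e7] at h1'; linarith
    have e9 : (y : ℤ) = w := by
      rcases sq_eq_sq_iff_eq_or_eq_neg.1 e8 with h | h
      · exact h
      · omega
    exact ⟨by exact_mod_cast e7, by exact_mod_cast e9⟩

theorem sq_dvd_of_rep {r n x y : ℕ} (hr : r.Prime) (h3 : r % 4 = 3) (h : x ^ 2 + y ^ 2 = n)
    (hd : r ∣ n) : r ^ 2 ∣ n := by
  have : Fact r.Prime := ⟨hr⟩
  have h0 : ((x : ZMod r)) ^ 2 + (y : ZMod r) ^ 2 = 0 := by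
    have := (ZMod.natCast_eq_zero_iff n r).2 hd
    rw [← h] at this
    push_cast at this
    exact this
  have hx : (x : ZMod r) = 0 := by
    by_contra hx
    exact ZMod.mod_four_ne_three_of_sq_eq_neg_sq' hx (eq_neg_of_add_eq_zero_left (by rw [add_comm]; exact h0)) h3
  have hy : (y : ZMod r) = 0 := by
    rw [hx] at h0
    simpa using h0
  rw [ZMod.natCast_eq_zero_iff] at hx hy
  rw [← h]
  exact dvd_add (pow_dvd_pow_of_dvd hx 2) (pow_dvd_pow_of_dvd hy 2)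

/-- a prime `5` mod `8` is `x² + (2 u)²` with `x`, `u` odd -/
theorem exists_rep {p : ℕ} (hp : p.Prime) (h5 : p % 8 = 5) :
    ∃ x u : ℕ, x % 2 = 1 ∧ u % 2 = 1 ∧ x ^ 2 + (2 * u) ^ 2 = p := by
  have : Fact p.Prime := ⟨hp⟩
  obtain ⟨a, b, hab⟩ := Nat.Prime.sq_add_sq (p := p) (by omega)
  have key : ∀ a b : ℕ, a ^ 2 + b ^ 2 = p → a % 2 = 1 → ∃ x u : ℕ, x % 2 = 1 ∧ u % 2 = 1 ∧
      x ^ 2 + (2 * u) ^ 2 = p := by
    intro a b hab ha
    have ha8 : a ^ 2 % 8 = 1 := by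
      have : a % 8 = 1 ∨ a % 8 = 3 ∨ a % 8 = 5 ∨ a % 8 = 7 := by omega
      rcases this with h | h | h | h <;> rw [Nat.pow_mod, h]
    have hb8 : b ^ 2 % 8 = 4 := by omega
    have hb : b % 2 = 0 := by
      rcases Nat.mod_two_eq_zero_or_one b with h | h
      · exact h
      · exfalso
        have : b ^ 2 % 2 = 1 := by rw [Nat.pow_mod, h]
        omega
    obtain ⟨u, rfl⟩ : ∃ u, b = 2 * u := ⟨b / 2, by omega⟩
    refine ⟨a, u, ha, ?_, hab⟩
    rcases Nat.mod_two_eq_zero_or_one u with h | h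
    · exfalso
      obtain ⟨v, rfl⟩ : ∃ v, u = 2 * v := ⟨u / 2, by omega⟩
      have : (2 * (2 * v)) ^ 2 = 8 * (2 * v ^ 2) := by ring
      omega
    · exact h
  rcases Nat.mod_two_eq_zero_or_one a with h | h
  · refine key b a (by omega) ?_
    rcases Nat.mod_two_eq_zero_or_one b with h' | h'
    · exfalso
      have e1 : a ^ 2 % 2 = 0 := by rw [Nat.pow_mod, h]
      have e2 : b ^ 2 % 2 = 0 := by rw [Nat.pow_mod, h']
      omega
    · exact h'
  · exact key a b hab h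

end Pool.Agent.R836.PP
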