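import Pool.Agent.H397R2.PP.D1
import Pool.Agent.H397R2.PP.TH
import Pool.Agent.R836.PP.Fin
import Pool.Agent.R836.PP.Sq

set_option autoImplicit false

/-! Binary theta series modulo 2 and the counting functions of the exponents. -/

namespace Pool.Agent.R836.PP

open PowerSeries Finset
open Pool.Agent.H397R2.PP Pool.Agent.H397R2.PP.TH

theorem tri_iff (a : ℕ) : isTri a ↔ ∃ x, x ^ 2 = 8 * a + 1 := by
  constructor
  · rintro ⟨i, hi⟩
    exact ⟨2 * i + 1, by nlinarith⟩
  · rintro ⟨x, hx⟩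
    have hodd : x % 2 = 1 := by
      rcases Nat.mod_two_eq_zero_or_one x with h | h
      · exfalso
        have : x ^ 2 % 2 = 0 := by rw [Nat.pow_mod, h]
        omega
      · exact h
    obtain ⟨t, i, e1, e2, -⟩ := odd_sq hodd
    exact ⟨i, by omega⟩

theorem pent_iff (a : ℕ) : isPent a ↔ ∃ x, x ^ 2 = 24 * a + 1 := by
  constructor
  · rintro ⟨j, hj⟩
    refine ⟨(6 * j - 1).natAbs, ?_⟩
    have h := pent24 j
    have h2 : (((6 * j - 1).natAbs ^ 2 : ℕ) : ℤ) = ((24 * a + 1 : ℕ) : ℤ) := by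
      push_cast
      rw [sq_abs, hj, ← h]
    exact_mod_cast h2
  · rintro ⟨x, hx⟩
    have hodd : x % 2 = 1 := by
      rcases Nat.mod_two_eq_zero_or_one x with h | h
      · exfalso
        have : x ^ 2 % 2 = 0 := by rw [Nat.pow_mod, h]
        omega
      · exact h
    have h3 : x % 3 ≠ 0 := by
      intro h
      have : x ^ 2 % 3 = 0 := by rw [Nat.pow_mod, h]
      omega
    obtain ⟨j, hj⟩ := cop_sq hodd h3
    exact ⟨j, by omega⟩

open Classical in
theorem theta_coeff_one (P1 P2 : ℕ → Prop) (α₁ α₂ α A₁ A₂ M n : ℕ) (hα : 0 < α)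
    (hP1 : ∀ a, P1 a ↔ ∃ x, x ^ 2 = α₁ * a + 1) (hP2 : ∀ a, P2 a ↔ ∃ x, x ^ 2 = α₂ * a + 1)
    (h1 : A₁ * α₁ = α) (h2 : A₂ * α₂ = M * α) (hα₁ : 0 < α₁)
    (hex : ∃ x y a k, x ^ 2 = α₁ * a + 1 ∧ y ^ 2 = α₂ * k + 1 ∧
      A₁ * x ^ 2 + A₂ * y ^ 2 = α * n + (A₁ + A₂))
    (huniq : ∀ x y a k x' y' a' k', x ^ 2 = α₁ * a + 1 → y ^ 2 = α₂ * k + 1 →
      A₁ * x ^ 2 + A₂ * y ^ 2 = α * n + (A₁ + A₂) → x' ^ 2 = α₁ * a' + 1 →
      y' ^ 2 = α₂ * k' + 1 →
      A₁ * x' ^ 2 + A₂ * y' ^ 2 = α * n + (A₁ + A₂) → x = x') :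
    coeff n (ind P1 * ind fun b => ∃ k, b = M * k ∧ P2 k) = 1 := by
  rw [coeff_ind_mul]
  obtain ⟨x, y, a, k, hx, hy, hxy⟩ := hex
  have key : ∀ x y a k, x ^ 2 = α₁ * a + 1 → y ^ 2 = α₂ * k + 1 →
      (A₁ * x ^ 2 + A₂ * y ^ 2 = α * n + (A₁ + A₂) ↔ a + M * k = n) := by
    intro x y a k hx hy
    rw [hx, hy]
    have e : A₁ * (α₁ * a + 1) + A₂ * (α₂ * k + 1) = α * (a + M * k) + (A₁ + A₂) := by
      have e1 : A₁ * (α₁ * a + 1) = (A₁ * α₁) * a + A₁ := by ring
      have e2 : A₂ * (α₂ * k + 1) = (A₂ * α₂) * k + A₂ := by ring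
      rw [e1, e2, h1, h2]
      ring
    rw [e]
    constructor
    · intro h
      exact Nat.eq_of_mul_eq_mul_left hα (Nat.add_right_cancel h)
    · intro h
      rw [h]
  have hcard : ((HasAntidiagonal.antidiagonal n).filter
      fun z => P1 z.1 ∧ ∃ k, z.2 = M * k ∧ P2 k) = {(a, M * k)} := by
    ext ⟨b, c⟩
    rw [mem_filter, HasAntidiagonal.mem_antidiagonal, mem_singleton]
    simp only
    constructor
    · rintro ⟨h3, h4, k', h5, h6⟩
      obtain ⟨x', hx'⟩ := (hP1 b).1 h4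
      obtain ⟨y', hy'⟩ := (hP2 k').1 h6
      have h7 := (key x' y' b k' hx' hy').2 (by rw [← h5]; exact h3)
      have h8 := huniq x y a k x' y' b k' hx hy hxy hx' hy' h7
      have h9 : a = b := by
        rw [h8, hx'] at hx
        have : α₁ * b = α₁ * a := Nat.add_right_cancel hx
        exact (Nat.eq_of_mul_eq_mul_left hα₁ this).symm
      have h10 := (key x y a k hx hy).1 hxy
      rw [Prod.mk.injEq]
      exact ⟨h9.symm, by omega⟩
    · intro h
      rw [Prod.mk.injEq] at h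
      obtain ⟨rfl, rfl⟩ := h
      exact ⟨(key x y b k hx hy).1 hxy, (hP1 b).2 ⟨x, hx⟩, k, rfl, (hP2 k).2 ⟨y, hy⟩⟩
  rw [hcard, card_singleton, Nat.cast_one]

open Classical in
theorem theta_coeff_zero (P1 P2 : ℕ → Prop) (α₁ α₂ α A₁ A₂ M n : ℕ)
    (hP1 : ∀ a, P1 a ↔ ∃ x, x ^ 2 = α₁ * a + 1) (hP2 : ∀ a, P2 a ↔ ∃ x, x ^ 2 = α₂ * a + 1)
    (h1 : A₁ * α₁ = α) (h2 : A₂ * α₂ = M * α)
    (hno : ∀ x y, A₁ * x ^ 2 + A₂ * y ^ 2 ≠ α * n + (A₁ + A₂)) :
    coeff n (ind P1 * ind fun b => ∃ k, b = M * k ∧ P2 k) = 0 := by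
  rw [coeff_ind_mul]
  have hcard : ((HasAntidiagonal.antidiagonal n).filter
      fun z => P1 z.1 ∧ ∃ k, z.2 = M * k ∧ P2 k) = ∅ := by
    rw [filter_eq_empty_iff]
    rintro ⟨b, c⟩ h3 ⟨h4, k, h5, h6⟩
    rw [HasAntidiagonal.mem_antidiagonal] at h3
    simp only at h3 h4 h5 h6
    obtain ⟨x, hx⟩ := (hP1 b).1 h4
    obtain ⟨y, hy⟩ := (hP2 k).1 h6
    apply hno x y
    rw [hx, hy, ← h3, h5]
    have e1 : A₁ * (α₁ * b + 1) = (A₁ * α₁) * b + A₁ := by ring
    have e2 : A₂ * (α₂ * k + 1) = (A₂ * α₂) * k + A₂ := by ring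
    rw [e1, e2, h1, h2]
    ring
  rw [hcard, card_empty, Nat.cast_zero]

/-- the exponents `m g`, `P g` -/
def Sx (m : ℕ) (P : ℕ → Prop) (n : ℕ) : Prop := ∃ k, n = m * k ∧ P k

theorem cnt_bound (P : ℕ → Prop) (m γ : ℕ) (hm : 0 < m) (hγ : 0 < γ) (hγ2 : γ ≤ 24)
    (hP : ∀ a, P a ↔ ∃ x, x ^ 2 = γ * a + 1) (X : ℕ) :
    ((cntF (Sx m P) X).card : ℝ) ≤ 5 * (Real.sqrt X + 1) := by
  classical
  have hex : ∀ n ∈ cntF (Sx m P) X, ∃ x : ℕ, x ^ 2 * m = γ * n + m := by
    intro n hn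
    unfold cntF at hn
    rw [mem_filter] at hn
    obtain ⟨k, hk, hPk⟩ := hn.2
    obtain ⟨x, hx⟩ := (hP k).1 hPk
    exact ⟨x, by rw [hx, hk]; ring⟩
  choose! x hx using hex
  have h1 : (cntF (Sx m P) X).card ≤ (range (Nat.sqrt (24 * X + 1) + 1)).card := by
    apply card_le_card_of_injOn x
    · intro n hn
      rw [mem_coe] at hn
      have e1 := hx n hn
      unfold cntF at hn
      rw [mem_filter, mem_range] at hn
      rw [mem_coe, mem_range, Nat.lt_succ_iff, Nat.le_sqrt']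
      have e2 : γ * n ≤ 24 * X := Nat.mul_le_mul hγ2 (by omega)
      have e3 : x n ^ 2 * m ≤ (24 * X + 1) * m := by nlinarith
      exact Nat.le_of_mul_le_mul_right e3 hm
    · intro n hn n' hn' heq
      rw [mem_coe] at hn hn'
      have e1 := hx n hn
      have e2 := hx n' hn'
      rw [heq, e2] at e1
      exact (Nat.eq_of_mul_eq_mul_left hγ (Nat.add_right_cancel e1)).symm
  rw [card_range] at h1
  have h2 : ((cntF (Sx m P) X).card : ℝ) ≤ (Nat.sqrt (24 * X + 1) : ℝ) + 1 := by exact_mod_cast h1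
  have h3 : (Nat.sqrt (24 * X + 1) : ℝ) ≤ 5 * Real.sqrt X + 1 := by
    have e1 : (Nat.sqrt (24 * X + 1) : ℝ) ≤ Real.sqrt ((24 * X + 1 : ℕ) : ℝ) :=
      Real.nat_sqrt_le_real_sqrt
    have e2 : Real.sqrt ((24 * X + 1 : ℕ) : ℝ) ≤ 5 * Real.sqrt X + 1 := by
      have e3 : Real.sqrt (X : ℝ) * Real.sqrt X = X := Real.mul_self_sqrt (by positivity)
      have e4 := Real.sqrt_nonneg (X : ℝ)
      rw [Real.sqrt_le_left (by positivity)]
      push_cast
      nlinarith
    linarith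
  linarith

theorem half_tri (l : ℕ) : 2 * (l * (3 * l + 1) / 2) = l * (3 * l + 1) := by
  apply Nat.mul_div_cancel'
  rcases Nat.even_or_odd l with h | h
  · exact (h.two_dvd).mul_right _
  · apply Dvd.dvd.mul_left
    obtain ⟨k, rfl⟩ := h
    exact ⟨3 * k + 2, by ring⟩

/-- lower ends of the intervals, pentagonal case -/
def uP (l : ℕ) : ℕ := l * (3 * l + 1) / 2

theorem uP_two (l : ℕ) : 2 * uP l = l * (3 * l + 1) := half_tri l

theorem uP1 (l : ℕ) : uP l + (2 * l + 1) ≤ uP (l + 1) := by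
  have h1 := uP_two l
  have h2 := uP_two (l + 1)
  nlinarith

theorem uP2 (l : ℕ) : uP l ≤ 2 * l ^ 2 + l := by
  have h1 := uP_two l
  nlinarith

theorem uP_odd (m : ℕ) (hm : 0 < m) (l N : ℕ) (h1 : m * uP l ≤ N)
    (h2 : N < m * (uP l + (2 * l + 1))) : ((cntF (Sx m isPent) N).card : ZMod 2) = 1 := by
  classical
  have hu := uP_two l
  have e1 : m * (6 * l + 1) ^ 2 ≤ 24 * N + m := by
    have : m * (6 * l + 1) ^ 2 = 24 * (m * uP l) + m := by
      have : (6 * l + 1) ^ 2 = 12 * (2 * uP l) + 1 := by rw [hu]; ring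
      rw [this]; ring
    omega
  have e2 : 24 * N + m < m * (6 * l + 5) ^ 2 := by
    have : m * (6 * l + 5) ^ 2 = 24 * (m * (uP l + (2 * l + 1))) + m := by
      have : (6 * l + 5) ^ 2 = 12 * (2 * uP l) + 24 * (2 * l + 1) + 1 := by rw [hu]; ring
      rw [this]; ring
    omega
  have h := cnt_odd m N l hm e1 e2
  have hc : (cntF (Sx m isPent) N).card = (cntS m N).card := by
    have : cntF (Sx m isPent) N = (cntS m N).image fun j => m * pentagonal j := by
      ext n
      unfold cntF cntS Sx isPent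
      rw [mem_filter, mem_range, mem_image]
      constructor
      · rintro ⟨h3, k, h4, j, h5⟩
        refine ⟨j, ?_, by rw [h4, h5]⟩
        rw [mem_filter, mem_Icc]
        have h6 : m * pentagonal j ≤ N := by
          rw [← h5, ← h4]
          omega
        refine ⟨?_, h6⟩
        have h7 := abs_le_pent j
        have h8 : pentagonal j ≤ N := le_trans (Nat.le_mul_of_pos_left _ hm) h6
        have h9 : |j| ≤ N := h7.trans (by exact_mod_cast h8)
        rw [abs_le] at h9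
        exact h9
      · rintro ⟨j, h3, h4⟩
        rw [mem_filter] at h3
        exact ⟨by omega, pentagonal j, h4.symm, j, rfl⟩
    rw [this, card_image_of_injective]
    intro i j hij
    exact pentagonal_injective (Nat.eq_of_mul_eq_mul_left hm hij)
  rw [hc, h]
  push_cast
  have : (2 : ZMod 2) = 0 := rfl
  rw [this]
  ring

/-- lower ends of the intervals, triangular case -/
def uT (l : ℕ) : ℕ := l * (2 * l + 1)

theorem uT1 (l : ℕ) : uT l + (2 * l + 1) ≤ uT (l + 1) := by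
  unfold uT
  nlinarith

theorem uT2 (l : ℕ) : uT l ≤ 2 * l ^ 2 + l := by
  unfold uT
  nlinarith

theorem uT_odd (m : ℕ) (hm : 0 < m) (l N : ℕ) (h1 : m * uT l ≤ N)
    (h2 : N < m * (uT l + (2 * l + 1))) : ((cntF (Sx m isTri) N).card : ZMod 2) = 1 := by
  classical
  have hT : ∀ i : ℕ, 2 * (i * (i + 1) / 2) = i * (i + 1) := fun i =>
    Nat.mul_div_cancel' (Nat.even_mul_succ_self i).two_dvd
  have hmono : ∀ i j : ℕ, i * (i + 1) / 2 < j * (j + 1) / 2 → i < j := by
    intro i j h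
    by_contra hcon
    push Not at hcon
    have := Nat.mul_le_mul hcon (Nat.add_le_add_right hcon 1)
    have := hT i
    have := hT j
    omega
  have hc : (cntF (Sx m isTri) N).card = 2 * l + 1 := by
    have : cntF (Sx m isTri) N = (range (2 * l + 1)).image fun i => m * (i * (i + 1) / 2) := by
      ext n
      unfold cntF Sx isTri
      rw [mem_filter, mem_range, mem_image]
      have b1 : (2 * l) * (2 * l + 1) / 2 = uT l := by
        have := hT (2 * l)
        unfold uT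
        nlinarith
      have b2 : (2 * l + 1) * (2 * l + 1 + 1) / 2 = uT l + (2 * l + 1) := by
        have := hT (2 * l + 1)
        unfold uT
        nlinarith
      constructor
      · rintro ⟨h3, k, h4, i, h5⟩
        refine ⟨i, ?_, ?_⟩
        · rw [mem_range]
          apply hmono
          rw [b2]
          have h6 : i * (i + 1) / 2 = k := by omega
          rw [h6]
          have h7 : m * k < m * (uT l + (2 * l + 1)) := by rw [← h4]; omega
          exact Nat.lt_of_mul_lt_mul_left h7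
        · rw [h4]
          congr 1
          omega
      · rintro ⟨i, h3, h4⟩
        rw [mem_range] at h3
        refine ⟨?_, _, h4.symm, i, hT i⟩
        have h6 : i * (i + 1) / 2 ≤ uT l := by
          rw [← b1]
          apply Nat.div_le_div_right
          exact Nat.mul_le_mul (by omega) (by omega)
        have := Nat.mul_le_mul_left m h6
        omega
    rw [this, card_image_of_injOn, card_range]
    intro i _ j _ hij
    have h3 := Nat.eq_of_mul_eq_mul_left hm hij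
    have h4 := hT i
    have h5 := hT j
    have h6 : i * (i + 1) = j * (j + 1) := by omega
    rcases lt_trichotomy i j with h | h | h
    · nlinarith
    · exact h
    · nlinarith
  rw [hc]
  push_cast
  have : (2 : ZMod 2) = 0 := rfl
  rw [this]
  ring

end Pool.Agent.R836.PP
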