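import Pool.Agent.R836.PP.Mert
import Pool.Agent.R836.PP.DistB
import Pool.Agent.R836.PP.Alg

set_option autoImplicit false

/-! Many products of primes in prescribed classes. -/

namespace Pool.Agent.R836.PP

open Finset

theorem list_prime {q w : List ℕ} (h : List.Forall₂ (fun q x => q.Prime ∧ q % 8 = x) q w) :
    ∀ y ∈ q, y.Prime := by
  intro y hy
  obtain ⟨i, hi, hyi⟩ := List.getElem_of_mem hy
  have := (List.forall₂_iff_get.1 h).2 i hi (by rw [← h.length_eq]; exact hi)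
  simp only [List.get_eq_getElem] at this
  rw [← hyi]
  exact this.1

theorem prime_mem_of_dvd {q w : List ℕ} (h : List.Forall₂ (fun q x => q.Prime ∧ q % 8 = x) q w)
    {p : ℕ} (hp : p.Prime) (hd : p ∣ q.prod) : p ∈ q := by
  obtain ⟨y, hy, hdy⟩ := (Prime.dvd_prod_iff hp.prime).1 hd
  have := (Nat.prime_dvd_prime_iff_eq hp (list_prime h y hy)).1 hdy
  rw [this]
  exact hy

theorem class_prime (Q : ℕ) (hQ : 0 < Q) (x : ℕ) (hx : x = 3 ∨ x = 5) :
    ∃ u : ℕ, u.Coprime Q ∧ u % 8 = x := by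
  have hc : x.Coprime 8 := by rcases hx with rfl | rfl <;> norm_num
  obtain ⟨p, h1, h2, h3⟩ := Nat.forall_exists_prime_gt_and_modEq Q (q := 8) (a := x) (by norm_num) hc
  refine ⟨p, ?_, ?_⟩
  · rw [Nat.Prime.coprime_iff_not_dvd h2]
    intro h
    have := Nat.le_of_dvd hQ h
    omega
  · have h4 : p % 8 = x % 8 := h3
    rcases hx with rfl | rfl <;> simpa using h4

/-- the property of the products -/
def DP (w : List ℕ) (B d : ℕ) : Prop := ∃ q : List ℕ, q.prod = d ∧
  List.Forall₂ (fun q x => q.Prime ∧ q % 8 = x) q w ∧ q.Nodup ∧ ∀ y ∈ q, y ≤ B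

theorem tuples (Q : ℕ) (hQ : 0 < Q) (h8 : 8 ∣ Q) (w : List ℕ) : (∀ x ∈ w, x = 3 ∨ x = 5) →
    ∃ c : ℝ, 0 < c ∧ ∃ T0 v : ℕ, 2 ≤ T0 ∧ v.Coprime Q ∧ ∀ T : ℕ, T0 ≤ T → ∃ D : Finset ℕ,
      (∀ d ∈ D, 0 < d ∧ d ≤ 2 ^ (w.length * T ^ (w.length + 1)) ∧ d % Q = v % Q ∧
        DP w (2 ^ (T ^ (w.length + 1))) d) ∧
      c * (Real.log T) ^ w.length ≤ ∑ d ∈ D, (1 : ℝ) / d := by
  classical
  induction w with
  | nil =>
    intro _
    refine ⟨1, one_pos, 2, 1, le_rfl, Nat.coprime_one_left Q, fun T _ => ⟨{1}, ?_, ?_⟩⟩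
    · intro d hd
      rw [mem_singleton] at hd
      subst hd
      exact ⟨one_pos, by simp, rfl, [], rfl, List.Forall₂.nil, List.nodup_nil, by simp⟩
    · simp
  | cons x w ih =>
    intro hx
    obtain ⟨c, hc, T0, v, hT0, hv, hD⟩ := ih fun y hy => hx y (List.mem_cons_of_mem _ hy)
    obtain ⟨u, hu1, hu2⟩ := class_prime Q hQ x (hx x (by simp))
    obtain ⟨c1, hc1, i0, hi0, hsum⟩ := range_sum Q hQ u hu1
    refine ⟨c1 * c, by positivity, max T0 i0, u * v, le_trans hT0 (le_max_left _ _),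
      Nat.Coprime.mul_left hu1 hv, fun T hT => ?_⟩
    have hTT0 : T0 ≤ T := le_trans (le_max_left _ _) hT
    have hTi : i0 ≤ T := le_trans (le_max_right _ _) hT
    obtain ⟨D, hD1, hD2⟩ := hD T hTT0
    have hT2 : 2 ≤ T := hT0.trans hTT0
    set k := w.length with hk
    set P : Finset ℕ := (Ioc (2 ^ (T ^ (k + 1))) (2 ^ (T ^ (k + 2)))).filter
      (fun q => q.Prime ∧ q % Q = u % Q) with hP
    have hTk : T ≤ T ^ (k + 1) := by
      calc T = T ^ 1 := (pow_one T).symm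
        _ ≤ T ^ (k + 1) := Nat.pow_le_pow_right (by omega) (by omega)
    have hTk2 : T ^ (k + 1) ≤ T ^ (k + 2) := Nat.pow_le_pow_right (by omega) (by omega)
    have hinj : Set.InjOn (fun qd : ℕ × ℕ => qd.1 * qd.2) (P ×ˢ D : Finset (ℕ × ℕ)) := by
      rintro ⟨q, d⟩ h1 ⟨q', d'⟩ h2 heq
      rw [mem_coe, mem_product] at h1 h2
      simp only at h1 h2 heq
      obtain ⟨h1a, h1b⟩ := h1
      obtain ⟨h2a, h2b⟩ := h2
      rw [hP, mem_filter, mem_Ioc] at h1a h2a
      obtain ⟨-, -, -, l, hl1, hl2, -, hl4⟩ := hD1 d' h2b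
      have hqq : q = q' := by
        have hdvd : q ∣ q' * d' := heq ▸ Dvd.intro _ rfl
        rcases (Nat.Prime.dvd_mul h1a.2.1).1 hdvd with h | h
        · exact (Nat.prime_dvd_prime_iff_eq h1a.2.1 h2a.2.1).1 h
        · exfalso
          rw [← hl1] at h
          have := hl4 q (prime_mem_of_dvd hl2 h1a.2.1 h)
          omega
      subst hqq
      have hdd : d = d' := Nat.eq_of_mul_eq_mul_left h1a.2.1.pos heq
      rw [hdd]
    refine ⟨(P ×ˢ D).image fun qd : ℕ × ℕ => qd.1 * qd.2, ?_, ?_⟩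
    · intro n hn
      rw [mem_image] at hn
      obtain ⟨⟨q, d⟩, h1, rfl⟩ := hn
      rw [mem_product] at h1
      simp only at h1 ⊢
      obtain ⟨h1a, h1b⟩ := h1
      rw [hP, mem_filter, mem_Ioc] at h1a
      obtain ⟨⟨hq1, hq2⟩, hq3, hq4⟩ := h1a
      obtain ⟨g1, g2, g3, l, hl1, hl2, hl3, hl4⟩ := hD1 d h1b
      rw [List.length_cons, ← hk]
      refine ⟨Nat.mul_pos hq3.pos g1, ?_, ?_, q :: l, ?_, ?_, ?_, ?_⟩
      · calc q * d ≤ 2 ^ (T ^ (k + 2)) * 2 ^ (k * T ^ (k + 1)) := Nat.mul_le_mul hq2 g2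
          _ = 2 ^ (T ^ (k + 2) + k * T ^ (k + 1)) := (pow_add 2 _ _).symm
          _ ≤ 2 ^ ((k + 1) * T ^ (k + 1 + 1)) := by
            apply Nat.pow_le_pow_right (by norm_num)
            have : k * T ^ (k + 1) ≤ k * T ^ (k + 2) := Nat.mul_le_mul_left _ hTk2
            have e : (k + 1) * T ^ (k + 1 + 1) = k * T ^ (k + 2) + T ^ (k + 2) := by ring
            omega
      · have e1 : q * d ≡ u * v [MOD Q] := Nat.ModEq.mul hq4 g3
        exact e1
      · rw [List.prod_cons, hl1]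
      · refine List.Forall₂.cons ⟨hq3, ?_⟩ hl2
        have e1 : q ≡ u [MOD 8] := (show q ≡ u [MOD Q] from hq4).of_dvd h8
        have e2 : q % 8 = u % 8 := e1
        rw [e2, hu2]
      · rw [List.nodup_cons]
        refine ⟨fun h => ?_, hl3⟩
        have := hl4 q h
        omega
      · intro y hy
        rw [List.mem_cons] at hy
        rcases hy with rfl | hy
        · exact hq2
        · exact (hl4 y hy).trans (Nat.pow_le_pow_right (by norm_num) hTk2)
    · rw [sum_image hinj, sum_product]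
      have e1 : ∑ q ∈ P, ∑ d ∈ D, (1 : ℝ) / ((q * d : ℕ) : ℝ) =
          (∑ q ∈ P, (1 : ℝ) / q) * ∑ d ∈ D, (1 : ℝ) / d := by
        rw [sum_mul_sum]
        refine sum_congr rfl fun q _ => sum_congr rfl fun d _ => ?_
        push_cast
        rw [one_div_mul_one_div]
      rw [e1, List.length_cons, ← hk]
      have hlogT : 0 ≤ Real.log T := Real.log_nonneg (by
        have : 1 ≤ T := by omega
        exact_mod_cast this)
      have e2 : c1 * Real.log T ≤ ∑ q ∈ P, (1 : ℝ) / q := by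
        have h := hsum (T ^ (k + 1)) (T ^ (k + 2)) (hTi.trans hTk) hTk2
        have e3 : Real.log ((T ^ (k + 2) : ℕ) : ℝ) - Real.log ((T ^ (k + 1) : ℕ) : ℝ) =
            Real.log T := by
          push_cast
          rw [Real.log_pow, Real.log_pow]
          push_cast
          ring
        rw [e3] at h
        exact h
      calc c1 * c * Real.log T ^ (k + 1) = (c1 * Real.log T) * (c * Real.log T ^ k) := by ring
        _ ≤ _ := mul_le_mul e2 hD2 (by positivity) (by positivity)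

end Pool.Agent.R836.PP
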